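import Pool.Agent.U640.CT.B7

set_option autoImplicit false

namespace Pool.Agent.U640.CT

open Cone

/-- the generating set of the frozen statement -/
def FS (P : Finset ℕ) : Set (Equiv.Perm ℤ) :=
  {σ : Equiv.Perm ℤ | ∃ r₁ m₁ r₂ m₂ : ℤ,
          0 < m₁ ∧ 0 < m₂ ∧ 0 ≤ r₁ ∧ r₁ < m₁ ∧ 0 ≤ r₂ ∧ r₂ < m₂ ∧
          (∀ k : ℤ, ¬ (k % m₁ = r₁ ∧ k % m₂ = r₂)) ∧
          (∀ p ∈ Nat.primeFactors m₁.natAbs, p = 2 ∨ p ∈ P) ∧
          (∀ p ∈ Nat.primeFactors m₂.natAbs, p = 2 ∨ p ∈ P) ∧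
          ∀ k : ℤ, σ k =
            if k % m₁ = r₁ then (m₂ * k + m₁ * r₂ - m₂ * r₁) / m₁
            else if k % m₂ = r₂ then (m₁ * k + m₂ * r₁ - m₁ * r₂) / m₂
            else k}

theorem FS_eq (P : Finset ℕ) : FS P = {σ | IsCT (insert 2 P) σ} := by
  ext σ
  constructor
  · rintro ⟨r₁, m₁, r₂, m₂, hm₁, hm₂, hr₁, hr₁', hr₂, hr₂', hd, hp₁, hp₂, hσ⟩
    lift r₁ to ℕ using hr₁
    lift r₂ to ℕ using hr₂
    lift m₁ to ℕ using hm₁.le
    lift m₂ to ℕ using hm₂.le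
    have h1 : r₁ < m₁ := by exact_mod_cast hr₁'
    have h2 : r₂ < m₂ := by exact_mod_cast hr₂'
    have hm₁' : m₁ ≠ 0 := by omega
    have hm₂' : m₂ ≠ 0 := by omega
    refine ⟨⟨r₁, m₁, h1⟩, ⟨r₂, m₂, h2⟩, ⟨hm₁', ?_⟩, ⟨hm₂', ?_⟩, ?_, ?_, ?_, ?_⟩
    · intro q hq hqm
      rw [Finset.mem_insert]
      exact hp₁ q (by rw [Int.natAbs_natCast]; exact Nat.mem_primeFactors.mpr ⟨hq, hqm, hm₁'⟩)
    · intro q hq hqm
      rw [Finset.mem_insert]
      exact hp₂ q (by rw [Int.natAbs_natCast]; exact Nat.mem_primeFactors.mpr ⟨hq, hqm, hm₂'⟩)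
    · rw [Set.disjoint_left]
      intro n hn hn'
      exact hd n ⟨hn, hn'⟩
    · intro z
      have hin := (⟨r₁, m₁, h1⟩ : Cone).ev_in z
      unfold Cone.In at hin
      rw [hσ, if_pos hin]
      unfold Cone.ev
      simp only
      have e : (m₂ : ℤ) * (r₁ + m₁ * z) + m₁ * r₂ - m₂ * r₁ = m₁ * (r₂ + m₂ * z) := by ring
      rw [e, Int.mul_ediv_cancel_left _ hm₁.ne']
    · intro z
      have hin := (⟨r₂, m₂, h2⟩ : Cone).ev_in z
      unfold Cone.In at hin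
      have hn : ¬ ((⟨r₂, m₂, h2⟩ : Cone).ev z % (m₁ : ℤ) = r₁) := fun h => hd _ ⟨h, hin⟩
      rw [hσ, if_neg hn, if_pos hin]
      unfold Cone.ev
      simp only
      have e : (m₁ : ℤ) * (r₂ + m₂ * z) + m₂ * r₁ - m₁ * r₂ = m₂ * (r₁ + m₁ * z) := by ring
      rw [e, Int.mul_ediv_cancel_left _ hm₂.ne']
    · intro n hn1 hn2
      unfold Cone.In at hn1 hn2
      rw [hσ, if_neg hn1, if_neg hn2]
  · rintro ⟨c, d, hc, hd, hdis, h1, h2, h3⟩
    refine ⟨c.r, c.m, d.r, d.m, c.mposZ, d.mposZ, by positivity, by exact_mod_cast c.h,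
      by positivity, by exact_mod_cast d.h, ?_, ?_, ?_, ?_⟩
    · rintro k ⟨hk1, hk2⟩
      exact Set.disjoint_left.mp hdis hk1 hk2
    · intro q hq
      rw [Int.natAbs_natCast, Nat.mem_primeFactors] at hq
      exact Finset.mem_insert.mp (hc.2 q hq.1 hq.2.1)
    · intro q hq
      rw [Int.natAbs_natCast, Nat.mem_primeFactors] at hq
      exact Finset.mem_insert.mp (hd.2 q hq.1 hq.2.1)
    · intro k
      by_cases hk : c.In k
      · have hk' : k % (c.m : ℤ) = c.r := hk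
        rw [if_pos hk']
        obtain ⟨z, rfl⟩ := Cone.in_iff.mp hk
        rw [h1]
        unfold Cone.ev
        have e : (d.m : ℤ) * (c.r + c.m * z) + c.m * d.r - d.m * c.r = c.m * (d.r + d.m * z) := by
          ring
        rw [e, Int.mul_ediv_cancel_left _ c.mposZ.ne']
      · have hk' : ¬ k % (c.m : ℤ) = c.r := hk
        rw [if_neg hk']
        by_cases hkd : d.In k
        · have hkd' : k % (d.m : ℤ) = d.r := hkd
          rw [if_pos hkd']
          obtain ⟨z, rfl⟩ := Cone.in_iff.mp hkd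
          rw [h2]
          unfold Cone.ev
          have e : (c.m : ℤ) * (d.r + d.m * z) + d.m * c.r - c.m * d.r = d.m * (c.r + c.m * z) := by
            ring
          rw [e, Int.mul_ediv_cancel_left _ d.mposZ.ne']
        · have hkd' : ¬ k % (d.m : ℤ) = d.r := hkd
          rw [if_neg hkd', h3 k hk hkd]

theorem final (P : Finset ℕ) (hP : ∀ p ∈ P, Nat.Prime p ∧ p ≠ 2) :
    ∃ (n : ℕ) (φ : FreeGroup (Fin n) →* ↥(Subgroup.closure (FS P))),
      Function.Surjective φ ∧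
        ∃ R : Finset (FreeGroup (Fin n)),
          φ.ker = Subgroup.normalClosure (R : Set (FreeGroup (Fin n))) := by
  obtain ⟨h1, h2⟩ := main_T P hP
  have he : T (insert 2 P) = Subgroup.closure (FS P) := by
    rw [FS_eq]
    exact le_antisymm h2 (KG_le_T _)
  rw [he] at h1
  obtain ⟨n, φ, hφ, R, hR, hker⟩ := h1
  refine ⟨n, φ, hφ, hR.toFinset, ?_⟩
  rw [Set.Finite.coe_toFinset, hker]

end Pool.Agent.U640.CT
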