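import Mathlib

set_option autoImplicit false

namespace Pool.Agent.U640.CT

/-- A cone is a normalised residue class `r + mℤ`, `0 ≤ r < m`, together with its parametrisation
`z ↦ r + m z`. -/
@[ext] structure Cone where
  r : ℕ
  m : ℕ
  h : r < m

namespace Cone

theorem mpos (c : Cone) : 0 < c.m := lt_of_le_of_lt (Nat.zero_le _) c.h

theorem mposZ (c : Cone) : (0 : ℤ) < c.m := by exact_mod_cast c.mpos

/-- the parametrisation of a cone -/
def ev (c : Cone) (z : ℤ) : ℤ := c.r + c.m * z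

/-- membership in a cone -/
def In (c : Cone) (n : ℤ) : Prop := n % (c.m : ℤ) = c.r

instance (c : Cone) (n : ℤ) : Decidable (c.In n) := by unfold In; infer_instance

theorem ev_in (c : Cone) (z : ℤ) : c.In (c.ev z) := by
  unfold In ev
  rw [Int.add_mul_emod_self_left]
  exact Int.emod_eq_of_lt (by positivity) (by exact_mod_cast c.h)

theorem ev_inj {c : Cone} {z z' : ℤ} (h : c.ev z = c.ev z') : z = z' := by
  unfold ev at h
  have h0 := c.mposZ
  have : (c.m : ℤ) * z = c.m * z' := by linarith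
  exact mul_left_cancel₀ h0.ne' this

theorem in_iff {c : Cone} {n : ℤ} : c.In n ↔ ∃ z, n = c.ev z := by
  constructor
  · intro h
    refine ⟨n / c.m, ?_⟩
    unfold In at h
    unfold ev
    rw [← h]
    exact (Int.emod_add_mul_ediv n c.m).symm
  · rintro ⟨z, rfl⟩
    exact c.ev_in z

/-- composition of cones -/
def comp (c d : Cone) : Cone := ⟨c.r + c.m * d.r, c.m * d.m, by
  have h1 := c.h
  have h2 := d.h
  have h3 : c.m * (d.r + 1) ≤ c.m * d.m := Nat.mul_le_mul_left _ h2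
  rw [Nat.mul_add, Nat.mul_one] at h3
  omega⟩

@[simp] theorem comp_m (c d : Cone) : (c.comp d).m = c.m * d.m := rfl
@[simp] theorem comp_r (c d : Cone) : (c.comp d).r = c.r + c.m * d.r := rfl

theorem comp_ev (c d : Cone) (z : ℤ) : (c.comp d).ev z = c.ev (d.ev z) := by
  simp only [ev, comp_m, comp_r, Nat.cast_add, Nat.cast_mul]
  ring

theorem in_comp_iff {c d : Cone} {z : ℤ} : (c.comp d).In (c.ev z) ↔ d.In z := by
  rw [in_iff, in_iff]
  constructor
  · rintro ⟨w, hw⟩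
    rw [comp_ev] at hw
    exact ⟨w, ev_inj hw⟩
  · rintro ⟨w, rfl⟩
    exact ⟨w, (comp_ev _ _ _).symm⟩

theorem in_of_comp {c d : Cone} {n : ℤ} (h : (c.comp d).In n) : c.In n := by
  rw [in_iff] at h
  obtain ⟨w, rfl⟩ := h
  rw [comp_ev]
  exact ev_in _ _

theorem ext_ev {c d : Cone} (h : ∀ z, c.ev z = d.ev z) : c = d := by
  have h0 := h 0
  have h1 := h 1
  simp only [ev, mul_zero, add_zero, mul_one] at h0 h1
  have hr : c.r = d.r := by exact_mod_cast h0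
  have hm : c.m = d.m := by
    have : (c.m : ℤ) = d.m := by rw [h0] at h1; linarith
    exact_mod_cast this
  ext
  · exact hr
  · exact hm

theorem comp_assoc (c d e : Cone) : (c.comp d).comp e = c.comp (d.comp e) :=
  ext_ev fun z => by simp only [comp_ev]

/-- the whole of `ℤ` -/
def one : Cone := ⟨0, 1, by norm_num⟩

@[simp] theorem one_ev (z : ℤ) : one.ev z = z := by simp [one, ev]

@[simp] theorem one_comp (c : Cone) : one.comp c = c := ext_ev fun z => by simp [comp_ev]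
@[simp] theorem comp_one (c : Cone) : c.comp one = c := ext_ev fun z => by simp [comp_ev]

theorem in_r (c : Cone) : c.In c.r := by
  have := c.ev_in 0
  simpa [ev] using this

theorem comp_inj {c d e : Cone} (h : c.comp d = c.comp e) : d = e := by
  apply ext_ev
  intro z
  have := congrArg (fun x : Cone => x.ev z) h
  simp only [comp_ev] at this
  exact ev_inj this

/-- the class of `k` modulo `N` -/
def cls (k N : ℕ) (hN : 0 < N) : Cone := ⟨k % N, N, Nat.mod_lt _ hN⟩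

theorem factor {c d : Cone} (hm : c.m ∣ d.m) (hr : c.In d.r) :
    ∃ e : Cone, d = c.comp e ∧ c.m * e.m = d.m := by
  obtain ⟨k, hk⟩ := hm
  have hr' : d.r % c.m = c.r := by
    unfold In at hr
    exact_mod_cast hr
  have hlt : d.r / c.m < k := by
    apply Nat.div_lt_of_lt_mul
    rw [← hk]
    exact d.h
  refine ⟨⟨d.r / c.m, k, hlt⟩, ?_, hk.symm⟩
  ext
  · simp only [comp_r]
    rw [← hr']
    exact (Nat.mod_add_div _ _).symm
  · simp only [comp_m]
    exact hk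

/-- a cone whose modulus is a multiple of `N` lies in a class modulo `N` -/
theorem coarsen {d : Cone} {N : ℕ} (hN : 0 < N) (h : N ∣ d.m) :
    ∃ c e : Cone, c.m = N ∧ d = c.comp e ∧ c.m * e.m = d.m := by
  have hin : (⟨d.r % N, N, Nat.mod_lt _ hN⟩ : Cone).In d.r := by
    unfold In
    simp
  obtain ⟨e, he, hem⟩ := factor (c := ⟨d.r % N, N, Nat.mod_lt _ hN⟩) (d := d) h hin
  exact ⟨_, e, rfl, he, hem⟩

/-- every integer is in a class modulo `N` -/
theorem exists_cls (n : ℤ) {N : ℕ} (hN : 0 < N) : ∃ c : Cone, c.m = N ∧ c.In n := by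
  have h1 : 0 ≤ n % (N : ℤ) := Int.emod_nonneg _ (by exact_mod_cast hN.ne')
  have h2 : n % (N : ℤ) < N := Int.emod_lt_of_pos _ (by exact_mod_cast hN)
  refine ⟨⟨(n % (N : ℤ)).toNat, N, ?_⟩, rfl, ?_⟩
  · zify
    rw [Int.toNat_of_nonneg h1]
    exact h2
  · unfold In
    simp only
    rw [Int.toNat_of_nonneg h1]

/-- two cones with the same modulus sharing a point are equal -/
theorem eq_of_in {c d : Cone} {n : ℤ} (hm : c.m = d.m) (hc : c.In n) (hd : d.In n) : c = d := by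
  unfold In at hc hd
  rw [hm] at hc
  rw [hc] at hd
  ext
  · exact_mod_cast hd
  · exact hm

end Cone

open Cone

theorem pai (g : Equiv.Perm ℤ) (n : ℤ) : g (g⁻¹ n) = n := by
  rw [← Equiv.Perm.mul_apply, mul_inv_cancel, Equiv.Perm.one_apply]

theorem pia (g : Equiv.Perm ℤ) (n : ℤ) : g⁻¹ (g n) = n := by
  rw [← Equiv.Perm.mul_apply, inv_mul_cancel, Equiv.Perm.one_apply]

/-- `g` maps the cone `c` canonically onto the cone `d` -/
def Mp (g : Equiv.Perm ℤ) (c d : Cone) : Prop := ∀ z, g (c.ev z) = d.ev z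

theorem Mp.mul {g h : Equiv.Perm ℤ} {c d e : Cone} (h1 : Mp h c d) (h2 : Mp g d e) :
    Mp (g * h) c e := fun z => by rw [Equiv.Perm.mul_apply, h1 z, h2 z]

theorem Mp.inv {g : Equiv.Perm ℤ} {c d : Cone} (h : Mp g c d) : Mp g⁻¹ d c := fun z => by
  rw [Equiv.Perm.inv_eq_iff_eq, h z]

theorem Mp.one (c : Cone) : Mp 1 c c := fun _ => rfl

theorem Mp.sub {g : Equiv.Perm ℤ} {c d : Cone} (h : Mp g c d) (e : Cone) :
    Mp g (c.comp e) (d.comp e) := fun z => by rw [comp_ev, comp_ev, h]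

theorem Mp.uniq {g : Equiv.Perm ℤ} {c d d' : Cone} (h : Mp g c d) (h' : Mp g c d') : d = d' :=
  ext_ev fun z => by rw [← h z, h' z]

theorem Mp.uniq' {g : Equiv.Perm ℤ} {c c' d : Cone} (h : Mp g c d) (h' : Mp g c' d) : c = c' :=
  Mp.uniq h.inv h'.inv

theorem Mp.in_iff {g : Equiv.Perm ℤ} {c d : Cone} (h : Mp g c d) {n : ℤ} :
    d.In (g n) ↔ c.In n := by
  rw [Cone.in_iff, Cone.in_iff]
  constructor
  · rintro ⟨z, hz⟩
    exact ⟨z, g.injective (by rw [hz, h z])⟩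
  · rintro ⟨z, rfl⟩
    exact ⟨z, h z⟩

/-- smooth moduli -/
def Sm (S : Finset ℕ) (m : ℕ) : Prop := m ≠ 0 ∧ ∀ p, p.Prime → p ∣ m → p ∈ S

theorem Sm.one (S : Finset ℕ) : Sm S 1 := by
  refine ⟨one_ne_zero, fun p hp h => ?_⟩
  exact absurd (Nat.dvd_one.mp h) hp.one_lt.ne'

theorem Sm.mul {S : Finset ℕ} {a b : ℕ} (ha : Sm S a) (hb : Sm S b) : Sm S (a * b) := by
  refine ⟨mul_ne_zero ha.1 hb.1, fun p hp h => ?_⟩
  rcases hp.dvd_mul.mp h with h | h
  · exact ha.2 p hp h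
  · exact hb.2 p hp h

theorem Sm.dvd {S : Finset ℕ} {a b : ℕ} (hb : Sm S b) (h : a ∣ b) : Sm S a := by
  refine ⟨fun h0 => hb.1 (by rw [h0] at h; exact Nat.eq_zero_of_zero_dvd h), fun p hp h' => ?_⟩
  exact hb.2 p hp (h'.trans h)

theorem Sm.pos {S : Finset ℕ} {a : ℕ} (h : Sm S a) : 0 < a := Nat.pos_of_ne_zero h.1

theorem Sm.prime {S : Finset ℕ} {p : ℕ} (hp : p.Prime) (h : p ∈ S) : Sm S p := by
  refine ⟨hp.ne_zero, fun q hq hqp => ?_⟩
  rw [(Nat.prime_dvd_prime_iff_eq hq hp).mp hqp]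
  exact h

theorem Sm.pow {S : Finset ℕ} {a : ℕ} (h : Sm S a) (n : ℕ) : Sm S (a ^ n) := by
  induction n with
  | zero => simpa using Sm.one S
  | succ n ih => rw [pow_succ]; exact ih.mul h

theorem Sm.prod {S : Finset ℕ} {ι : Type*} (s : Finset ι) (f : ι → ℕ) (h : ∀ i ∈ s, Sm S (f i)) :
    Sm S (∏ i ∈ s, f i) := by
  classical
  induction s using Finset.induction_on with
  | empty => simpa using Sm.one S
  | insert a s ha ih =>
    rw [Finset.prod_insert ha]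
    exact (h a (Finset.mem_insert_self _ _)).mul
      (ih fun i hi => h i (Finset.mem_insert_of_mem hi))

theorem Sm.mono {S S' : Finset ℕ} (h : S ⊆ S') {a : ℕ} (ha : Sm S a) : Sm S' a :=
  ⟨ha.1, fun p hp hpa => h (ha.2 p hp hpa)⟩

/-- the set of permutations which are canonical on all classes modulo some smooth `N` -/
def TSet (S : Finset ℕ) (g : Equiv.Perm ℤ) : Prop :=
  ∃ N, Sm S N ∧ ∀ c : Cone, Sm S c.m → N ∣ c.m → ∃ d : Cone, Sm S d.m ∧ Mp g c d

theorem TSet.mul {S : Finset ℕ} {g h : Equiv.Perm ℤ} (hg : TSet S g) (hh : TSet S h) :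
    TSet S (g * h) := by
  obtain ⟨N, hN, hg⟩ := hg
  obtain ⟨M, hM, hh⟩ := hh
  refine ⟨M * N, hM.mul hN, fun c hc hd => ?_⟩
  obtain ⟨c', e, hc', rfl, hme⟩ := coarsen hM.pos ((dvd_mul_right M N).trans hd)
  obtain ⟨d', hd', hMp⟩ := hh c' (hc' ▸ hM) (hc' ▸ dvd_rfl)
  have he : N ∣ e.m := by
    rw [← hme, hc'] at hd
    exact Nat.dvd_of_mul_dvd_mul_left hM.pos hd
  have hes : Sm S e.m := hc.dvd (by rw [comp_m]; exact dvd_mul_left _ _)
  obtain ⟨d, hd, hMp'⟩ := hg (d'.comp e) (hd'.mul hes) (he.trans (by rw [comp_m]; exact dvd_mul_left _ _))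
  exact ⟨d, hd, (hMp.sub e).mul hMp'⟩

theorem TSet.inv {S : Finset ℕ} {g : Equiv.Perm ℤ} (hg : TSet S g) : TSet S g⁻¹ := by
  obtain ⟨N, hN, hg⟩ := hg
  have hg' : ∀ r : Fin N, ∃ d : Cone, Sm S d.m ∧ Mp g ⟨r, N, r.2⟩ d := fun r =>
    hg ⟨r, N, r.2⟩ hN dvd_rfl
  choose D hD1 hD2 using hg'
  refine ⟨∏ r, (D r).m, Sm.prod _ _ fun i _ => hD1 i, fun c hc hd => ?_⟩
  obtain ⟨k, hk, hkin⟩ := exists_cls (g⁻¹ (c.r : ℤ)) hN.pos
  obtain ⟨kr, km, kh⟩ := k
  simp only at hk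
  subst hk
  have h1 : (D ⟨kr, kh⟩).In c.r := by
    have := (hD2 ⟨kr, kh⟩).in_iff (n := g⁻¹ (c.r : ℤ))
    rw [pai] at this
    exact this.mpr hkin
  have h2 : (D ⟨kr, kh⟩).m ∣ c.m := (Finset.dvd_prod_of_mem (fun r => (D r).m) (Finset.mem_univ _)).trans hd
  obtain ⟨e, he, hem⟩ := factor h2 h1
  refine ⟨Cone.comp ⟨kr, km, kh⟩ e, ?_, ?_⟩
  · rw [comp_m]
    exact hN.mul (hc.dvd ⟨_, (by rw [mul_comm]; exact hem.symm)⟩)
  · rw [he]
    exact (hD2 ⟨kr, kh⟩).inv.sub e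

/-- the group `𝒯(S)` -/
def T (S : Finset ℕ) : Subgroup (Equiv.Perm ℤ) where
  carrier := {g | TSet S g}
  mul_mem' := fun ha hb => TSet.mul ha hb
  one_mem' := ⟨1, Sm.one S, fun c hc _ => ⟨c, hc, Mp.one c⟩⟩
  inv_mem' := fun ha => TSet.inv ha

theorem mem_T {S : Finset ℕ} {g : Equiv.Perm ℤ} : g ∈ T S ↔ TSet S g := Iff.rfl

/-- a permutation which is canonical on the members of a finite smooth cover is in `𝒯(S)` -/
theorem T_of_cover {S : Finset ℕ} {g : Equiv.Perm ℤ} {ι : Type*} [Fintype ι] (c d : ι → Cone)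
    (hc : ∀ i, Sm S (c i).m) (hd : ∀ i, Sm S (d i).m) (hcov : ∀ n, ∃ i, (c i).In n)
    (hM : ∀ i, Mp g (c i) (d i)) : g ∈ T S := by
  refine ⟨∏ i, (c i).m, Sm.prod _ _ fun i _ => hc i, fun x hx hdv => ?_⟩
  obtain ⟨i, hi⟩ := hcov x.r
  have h2 : (c i).m ∣ x.m := (Finset.dvd_prod_of_mem (fun r => (c r).m) (Finset.mem_univ _)).trans hdv
  obtain ⟨e, he, hem⟩ := factor h2 hi
  refine ⟨(d i).comp e, ?_, ?_⟩
  · rw [comp_m]
    exact (hd i).mul (hx.dvd ⟨_, (by rw [mul_comm]; exact hem.symm)⟩)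
  · rw [he]
    exact (hM i).sub e

theorem T_mono {S S' : Finset ℕ} (h : S ⊆ S') : T S ≤ T S' := by
  rintro g ⟨N, hN, hg⟩
  have hg' : ∀ r : Fin N, ∃ d : Cone, Sm S d.m ∧ Mp g ⟨r, N, r.2⟩ d := fun r =>
    hg ⟨r, N, r.2⟩ hN dvd_rfl
  choose D hD1 hD2 using hg'
  refine T_of_cover (fun r : Fin N => (⟨r, N, r.2⟩ : Cone)) D (fun i => hN.mono h)
    (fun i => (hD1 i).mono h) (fun n => ?_) hD2
  obtain ⟨c, hc, hin⟩ := exists_cls n hN.pos
  obtain ⟨cr, cm, ch⟩ := c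
  simp only at hc
  subst hc
  exact ⟨⟨cr, ch⟩, hin⟩

/-- a marked partition -/
def IsPart {ι : Type*} (c : ι → Cone) : Prop := ∀ n : ℤ, ∃! i, (c i).In n

theorem IsPart.comp_equiv {ι κ : Type*} {c : ι → Cone} (h : IsPart c) (e : κ ≃ ι) :
    IsPart (c ∘ e) := by
  intro n
  obtain ⟨i, hi, hu⟩ := h n
  refine ⟨e.symm i, by simpa using hi, fun j hj => ?_⟩
  rw [← hu (e j) hj]
  simp

theorem exists_perm {ι : Type*} {c d : ι → Cone} (hc : IsPart c) (hd : IsPart d) :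
    ∃ g : Equiv.Perm ℤ, ∀ i, Mp g (c i) (d i) := by
  choose I hI hIu using hc
  choose J hJ hJu using hd
  have hz : ∀ n, ∃ z, n = (c (I n)).ev z := fun n => Cone.in_iff.mp (hI n)
  choose Z hZ using hz
  have hw : ∀ n, ∃ z, n = (d (J n)).ev z := fun n => Cone.in_iff.mp (hJ n)
  choose W hW using hw
  have key1 : ∀ i z, I ((c i).ev z) = i ∧ Z ((c i).ev z) = z := by
    intro i z
    have h1 : i = I ((c i).ev z) := hIu _ i (ev_in _ _)
    refine ⟨h1.symm, ?_⟩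
    have h2 := hZ ((c i).ev z)
    rw [← h1] at h2
    exact (ev_inj h2).symm
  have key2 : ∀ i z, J ((d i).ev z) = i ∧ W ((d i).ev z) = z := by
    intro i z
    have h1 : i = J ((d i).ev z) := hJu _ i (ev_in _ _)
    refine ⟨h1.symm, ?_⟩
    have h2 := hW ((d i).ev z)
    rw [← h1] at h2
    exact (ev_inj h2).symm
  refine ⟨⟨fun n => (d (I n)).ev (Z n), fun n => (c (J n)).ev (W n), fun n => ?_, fun n => ?_⟩, ?_⟩
  · simp only
    rw [(key2 _ _).1, (key2 _ _).2, ← hZ]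
  · simp only
    rw [(key1 _ _).1, (key1 _ _).2, ← hW]
  · intro i z
    show (d (I ((c i).ev z))).ev (Z ((c i).ev z)) = _
    rw [(key1 i z).1, (key1 i z).2]

theorem perm_ext {ι : Type*} {c d : ι → Cone} (hc : ∀ n, ∃ i, (c i).In n)
    {g h : Equiv.Perm ℤ} (hg : ∀ i, Mp g (c i) (d i)) (hh : ∀ i, Mp h (c i) (d i)) : g = h := by
  ext n
  obtain ⟨i, hi⟩ := hc n
  obtain ⟨z, rfl⟩ := Cone.in_iff.mp hi
  rw [hg i z, hh i z]

/-- the uniform partition -/
def uni (N : ℕ) (i : Fin N) : Cone := ⟨i, N, i.2⟩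

theorem uni_part (N : ℕ) (hN : 0 < N) : IsPart (uni N) := by
  intro n
  obtain ⟨c, hc, hin⟩ := exists_cls n hN
  obtain ⟨cr, cm, ch⟩ := c
  simp only at hc
  subst hc
  refine ⟨⟨cr, ch⟩, hin, fun j hj => ?_⟩
  have := eq_of_in (c := uni cm j) (d := ⟨cr, cm, ch⟩) rfl hj hin
  have h2 := congrArg Cone.r this
  simp only [uni] at h2
  ext
  exact h2

end Pool.Agent.U640.CT
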