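import Pool.Agent.U640.CT.A1

set_option autoImplicit false

namespace Pool.Agent.U640.CT

open Cone

/-- `g` is affine near `n` (in the profinite sense) with slope of `p`-adic valuation `k` -/
def Dr (p : ℕ) (g : Equiv.Perm ℤ) (n k : ℤ) : Prop :=
  ∃ a b : ℕ, 0 < a ∧ 0 < b ∧ (∀ z : ℤ, g (n + a * z) = g n + b * z) ∧
    (padicValNat p b : ℤ) = padicValNat p a + k

section Dr

variable {p : ℕ} [hp : Fact p.Prime]

theorem Dr.uniq {g : Equiv.Perm ℤ} {n k k' : ℤ} (h : Dr p g n k) (h' : Dr p g n k') : k = k' := by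
  obtain ⟨a, b, ha, hb, h1, h2⟩ := h
  obtain ⟨a', b', ha', hb', h1', h2'⟩ := h'
  have e1 := h1 a'
  have e2 := h1' a
  have e3 : (n + (a : ℤ) * a') = n + (a' : ℤ) * a := by ring
  rw [e3] at e1
  rw [e1] at e2
  have e4 : (b : ℤ) * a' = b' * a := by linarith
  have e5 : b * a' = b' * a := by exact_mod_cast e4
  have e6 := congrArg (padicValNat p) e5
  rw [padicValNat.mul hb.ne' ha'.ne', padicValNat.mul hb'.ne' ha.ne'] at e6
  omega

theorem Dr.mul {g h : Equiv.Perm ℤ} {n k l : ℤ} (h1 : Dr p h n l) (h2 : Dr p g (h n) k) :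
    Dr p (g * h) n (k + l) := by
  obtain ⟨a, b, ha, hb, h1, h1'⟩ := h1
  obtain ⟨a', b', ha', hb', h2, h2'⟩ := h2
  refine ⟨a * a', b * b', Nat.mul_pos ha ha', Nat.mul_pos hb hb', fun z => ?_, ?_⟩
  · rw [Equiv.Perm.mul_apply, Equiv.Perm.mul_apply]
    have e1 : (n + ((a * a' : ℕ) : ℤ) * z) = n + (a : ℤ) * (a' * z) := by push_cast; ring
    have e2 : h n + (b : ℤ) * (a' * z) = h n + (a' : ℤ) * (b * z) := by ring
    rw [e1, h1, e2, h2]
    push_cast
    ring
  · rw [padicValNat.mul ha.ne' ha'.ne', padicValNat.mul hb.ne' hb'.ne', Nat.cast_add, Nat.cast_add]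
    omega

omit hp in
theorem Dr.inv {g : Equiv.Perm ℤ} {n k : ℤ} (h : Dr p g n k) : Dr p g⁻¹ (g n) (-k) := by
  obtain ⟨a, b, ha, hb, h1, h2⟩ := h
  refine ⟨b, a, hb, ha, fun z => ?_, by omega⟩
  rw [Equiv.Perm.inv_eq_iff_eq, pia, h1]

omit hp in
theorem Dr.of_Mp {g : Equiv.Perm ℤ} {c d : Cone} (h : Mp g c d) {n : ℤ} (hn : c.In n) :
    Dr p g n ((padicValNat p d.m : ℤ) - padicValNat p c.m) := by
  obtain ⟨z0, rfl⟩ := Cone.in_iff.mp hn
  refine ⟨c.m, d.m, c.mpos, d.mpos, fun z => ?_, by omega⟩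
  have e1 : c.ev z0 + (c.m : ℤ) * z = c.ev (z0 + z) := by unfold Cone.ev; ring
  rw [e1, h, h]
  unfold Cone.ev
  ring

omit hp in
theorem Dr.one (n : ℤ) : Dr p 1 n 0 :=
  ⟨1, 1, one_pos, one_pos, fun z => by simp, by simp⟩

theorem padic_Sm {S : Finset ℕ} (hpS : p ∉ S) {m : ℕ} (h : Sm S m) : padicValNat p m = 0 := by
  rcases Nat.eq_zero_or_pos (padicValNat p m) with h0 | h0
  · exact h0
  · exact absurd (h.2 p hp.out (dvd_of_one_le_padicValNat h0)) hpS

theorem Dr.of_T {S : Finset ℕ} (hpS : p ∉ S) {g : Equiv.Perm ℤ} (h : g ∈ T S) (n : ℤ) :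
    Dr p g n 0 := by
  obtain ⟨N, hN, h⟩ := h
  obtain ⟨c, hc, hin⟩ := exists_cls n hN.pos
  obtain ⟨d, hd, hM⟩ := h c (hc ▸ hN) (hc ▸ dvd_rfl)
  have := Dr.of_Mp (p := p) hM hin
  rw [padic_Sm hpS hd, padic_Sm hpS (hc ▸ hN : Sm S c.m)] at this
  simpa using this

end Dr

/-- periodic sets -/
def Per (L : ℕ) (E : Set ℤ) : Prop := ∀ n z : ℤ, n + L * z ∈ E ↔ n ∈ E

theorem Per.mul {L M : ℕ} {E : Set ℤ} (h : Per L E) (hd : L ∣ M) : Per M E := by
  obtain ⟨k, rfl⟩ := hd
  intro n z
  have := h n (k * z)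
  rw [← this]
  push_cast
  rw [mul_assoc]

theorem Per.inter {L : ℕ} {E F : Set ℤ} (h : Per L E) (h' : Per L F) : Per L (E ∩ F) :=
  fun n z => by rw [Set.mem_inter_iff, Set.mem_inter_iff, h, h']

theorem Per.diff {L : ℕ} {E F : Set ℤ} (h : Per L E) (h' : Per L F) : Per L (E \ F) :=
  fun n z => by rw [Set.mem_sdiff, Set.mem_sdiff, h, h']

theorem Per.union {L : ℕ} {E F : Set ℤ} (h : Per L E) (h' : Per L F) : Per L (E ∪ F) :=
  fun n z => by rw [Set.mem_union, Set.mem_union, h, h']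

/-- the set underlying a cone -/
def Cone.S (c : Cone) : Set ℤ := {n | c.In n}

theorem Cone.mem_S {c : Cone} {n : ℤ} : n ∈ c.S ↔ c.In n := Iff.rfl

theorem per_cone (c : Cone) {L : ℕ} (h : c.m ∣ L) : Per L c.S := by
  refine Per.mul ?_ h
  intro n z
  simp only [Cone.mem_S, Cone.In, Int.add_mul_emod_self_left]

theorem per_in {L : ℕ} {E : Set ℤ} (h : Per L E) {c : Cone} (hc : L ∣ c.m) {n : ℤ}
    (hn : c.In n) : n ∈ E ↔ (c.r : ℤ) ∈ E := by
  obtain ⟨z, rfl⟩ := Cone.in_iff.mp hn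
  exact h.mul hc _ _

/-- union of the cones in a list -/
def LS (l : List Cone) : Set ℤ := {n | ∃ c ∈ l, c.In n}

theorem LS_cons (c : Cone) (l : List Cone) : LS (c :: l) = c.S ∪ LS l := by
  ext n
  simp [LS, Cone.mem_S]

theorem per_LS {L : ℕ} (l : List Cone) (h : ∀ c ∈ l, c.m ∣ L) : Per L (LS l) := by
  induction l with
  | nil => intro n z; simp [LS]
  | cons c l ih =>
    rw [LS_cons]
    exact (per_cone c (h c (by simp))).union (ih fun d hd => h d (by simp [hd]))

structure Sys (S : Finset ℕ) (p : ℕ) (H : Type) [Group H] where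
  i : T S →* H
  w : Cone → H
  q : H →* Equiv.Perm ℤ
  two : 2 ∈ S
  pS : p ∉ S
  prime : p.Prime
  qi : ∀ b : T S, q (i b) = b
  conj : ∀ (b : T S) (u u' : Cone), Sm S u.m → 1 < u.m → Sm S u'.m → Mp b u u' →
    i b * w u * (i b)⁻¹ = w u'
  comm : ∀ L, 3 ≤ L → Sm S L → ∀ x y : Fin L, x ≠ y → Commute (w (uni L x)) (w (uni L y))
  split : ∀ r : ℕ, r.Prime → r ∈ S → ∀ u : Cone, Sm S u.m → 1 < u.m →
    ∃ v : T S, (∀ n, ¬ u.In n → (v : Equiv.Perm ℤ) n = n) ∧
      w u = i v * ((List.finRange r).map (fun j => w (u.comp (uni r j)))).prod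
  qw_in : ∀ u : Cone, Sm S u.m → 1 < u.m → ∀ n, u.In n → Dr p (q (w u)) n (-1)
  qw_out : ∀ u : Cone, Sm S u.m → 1 < u.m → ∀ n, ¬ u.In n →
    q (w u) n = n ∧ Dr p (q (w u)) n 0
  trans : ∀ u : Cone, Sm S u.m → 1 < u.m → ∃ b : T S, Mp b ⟨0, 2, by norm_num⟩ u
  gen : Subgroup.closure (Set.range i ∪ {w ⟨0, 2, by norm_num⟩}) = ⊤

theorem filter_prod_mul {α : Type*} {H : Type*} [Group H] (l : List α) (f : α → H)
    (hc : ∀ x ∈ l, ∀ y ∈ l, Commute (f x) (f y)) (P Q : α → Bool)
    (hd : ∀ x ∈ l, ¬ (P x = true ∧ Q x = true)) :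
    ((l.filter P).map f).prod * ((l.filter Q).map f).prod =
      ((l.filter (fun x => P x || Q x)).map f).prod := by
  induction l with
  | nil => simp
  | cons a l ih =>
    have ih' := ih (fun x hx y hy => hc x (by simp [hx]) y (by simp [hy]))
      (fun x hx => hd x (by simp [hx]))
    have hda := hd a (by simp)
    by_cases hP : P a = true
    · have hQ : Q a = false := by
        by_contra h
        exact hda ⟨hP, by simpa using h⟩
      simp only [List.filter_cons, hP, hQ, if_true, Bool.true_or, List.map_cons, List.prod_cons]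
      rw [mul_assoc]
      simp only [Bool.false_eq_true, if_false]
      rw [ih']
    · have hP' : P a = false := by simpa using hP
      by_cases hQ : Q a = true
      · simp only [List.filter_cons, hP', hQ, if_true, Bool.or_true, List.map_cons,
          List.prod_cons, Bool.false_eq_true, if_false]
        have hcm : Commute ((l.filter P).map f).prod (f a) := by
          apply Commute.list_prod_left
          intro x hx
          rw [List.mem_map] at hx
          obtain ⟨y, hy, rfl⟩ := hx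
          exact hc y (by simp [(List.mem_filter.mp hy).1]) a (by simp)
        rw [← mul_assoc, hcm.eq, mul_assoc, ih']
      · have hQ' : Q a = false := by simpa using hQ
        simp only [List.filter_cons, hP', hQ', Bool.or_self, Bool.false_eq_true, if_false]
        exact ih'

namespace Sys

variable {S : Finset ℕ} {p : ℕ} {H : Type} [Group H] (s : Sys S p H)

open Classical in
/-- the product of the `w`'s of the classes modulo `L` contained in `E` -/
noncomputable def U (L : ℕ) (E : Set ℤ) : H :=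
  (((List.finRange L).filter (fun x : Fin L => decide ((((x : ℕ) : ℤ)) ∈ E))).map
    (fun x => s.w (uni L x))).prod

theorem commAll {L : ℕ} (h3 : 3 ≤ L) (hL : Sm S L) (x y : Fin L) :
    Commute (s.w (uni L x)) (s.w (uni L y)) := by
  by_cases h : x = y
  · rw [h]
  · exact s.comm L h3 hL x y h

theorem U_union {L : ℕ} (h3 : 3 ≤ L) (hL : Sm S L) {E F : Set ℤ} (hd : Disjoint E F) :
    s.U L (E ∪ F) = s.U L E * s.U L F := by
  classical
  unfold U
  rw [filter_prod_mul]
  · congr 3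
    funext x
    simp
  · intro x _ y _
    exact s.commAll h3 hL x y
  · intro x _ h
    simp only [decide_eq_true_eq] at h
    exact (Set.disjoint_left.mp hd) h.1 h.2

theorem U_empty (L : ℕ) : s.U L ∅ = 1 := by
  unfold U
  simp

theorem U_comm {L : ℕ} (h3 : 3 ≤ L) (hL : Sm S L) (E F : Set ℤ) :
    Commute (s.U L E) (s.U L F) := by
  unfold U
  apply Commute.list_prod_left
  intro x hx
  apply Commute.list_prod_right
  intro y hy
  rw [List.mem_map] at hx hy
  obtain ⟨a, _, rfl⟩ := hx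
  obtain ⟨b, _, rfl⟩ := hy
  exact s.commAll h3 hL a b

/-- elements of `T S` fixing a cone commute with its `w` -/
theorem comm_fix (v : T S) (u : Cone) (hu : Sm S u.m) (hu1 : 1 < u.m)
    (h : ∀ n, u.In n → (v : Equiv.Perm ℤ) n = n) : Commute (s.i v) (s.w u) := by
  have := s.conj v u u hu hu1 hu (fun z => h _ (ev_in _ _))
  rw [mul_inv_eq_iff_eq_mul] at this
  exact this

theorem comm_U {L : ℕ} (h3 : 3 ≤ L) (hL : Sm S L) {E : Set ℤ} (hE : Per L E) (v : T S)
    (h : ∀ n ∈ E, (v : Equiv.Perm ℤ) n = n) : Commute (s.i v) (s.U L E) := by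
  unfold U
  apply Commute.list_prod_right
  intro x hx
  rw [List.mem_map] at hx
  obtain ⟨a, ha, rfl⟩ := hx
  have ha' := (List.mem_filter.mp ha).2
  simp only [decide_eq_true_eq] at ha'
  apply s.comm_fix
  · exact hL
  · exact lt_of_lt_of_le (by norm_num) h3
  · intro n hn
    apply h
    rw [per_in hE (c := uni L a) dvd_rfl hn]
    exact ha'

/-- `h` agrees with `U L E` up to an element of `T S` supported on `E` -/
def Rep (L : ℕ) (E : Set ℤ) (h : H) : Prop :=
  ∃ v : T S, (∀ n, n ∉ E → (v : Equiv.Perm ℤ) n = n) ∧ h = s.i v * s.U L E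

theorem Rep.mul {L : ℕ} (h3 : 3 ≤ L) (hL : Sm S L) {E F : Set ℤ} (hE : Per L E)
    (hd : Disjoint E F) {h k : H} (h1 : s.Rep L E h) (h2 : s.Rep L F k) :
    s.Rep L (E ∪ F) (h * k) := by
  obtain ⟨v, hv, rfl⟩ := h1
  obtain ⟨v', hv', rfl⟩ := h2
  refine ⟨v * v', fun n hn => ?_, ?_⟩
  · rw [Set.mem_union, not_or] at hn
    rw [Subgroup.coe_mul, Equiv.Perm.mul_apply, hv' n hn.2, hv n hn.1]
  · have hc := s.comm_U h3 hL hE v' (fun n hn => hv' n (Set.disjoint_left.mp hd hn))
    rw [s.U_union h3 hL hd, map_mul]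
    calc s.i v * s.U L E * (s.i v' * s.U L F) = s.i v * (s.U L E * s.i v') * s.U L F := by group
      _ = s.i v * (s.i v' * s.U L E) * s.U L F := by rw [hc.eq]
      _ = _ := by group

theorem Rep.left {L : ℕ} {E : Set ℤ} {h : H} (h1 : s.Rep L E h) (b : T S)
    (hb : ∀ n, n ∉ E → (b : Equiv.Perm ℤ) n = n) : s.Rep L E (s.i b * h) := by
  obtain ⟨v, hv, rfl⟩ := h1
  refine ⟨b * v, fun n hn => ?_, by rw [map_mul, mul_assoc]⟩
  rw [Subgroup.coe_mul, Equiv.Perm.mul_apply, hv n hn, hb n hn]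

theorem Rep.list {L : ℕ} (h3 : 3 ≤ L) (hL : Sm S L) (l : List Cone)
    (hp : l.Pairwise (fun c d => Disjoint c.S d.S)) (hdv : ∀ c ∈ l, c.m ∣ L)
    (hr : ∀ c ∈ l, s.Rep L c.S (s.w c)) : s.Rep L (LS l) (l.map s.w).prod := by
  induction l with
  | nil =>
    refine ⟨1, fun n _ => rfl, ?_⟩
    have : LS [] = ∅ := by ext n; simp [LS]
    rw [this, s.U_empty]
    simp
  | cons c l ih =>
    rw [LS_cons, List.map_cons, List.prod_cons]
    rw [List.pairwise_cons] at hp
    refine Rep.mul s h3 hL (per_cone c (hdv c (by simp))) ?_ (hr c (by simp))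
      (ih hp.2 (fun d hd => hdv d (by simp [hd])) (fun d hd => hr d (by simp [hd])))
    rw [Set.disjoint_left]
    rintro n hn ⟨d, hd, hnd⟩
    exact (Set.disjoint_left.mp (hp.1 d hd)) hn hnd

theorem U_cone {L : ℕ} (c : Cone) (hc : c.m = L) : s.U L c.S = s.w c := by
  subst hc
  classical
  unfold U
  have : (List.finRange c.m).filter (fun x : Fin c.m => decide ((((x : ℕ) : ℤ)) ∈ c.S)) =
      [(⟨c.r, c.h⟩ : Fin c.m)] := by
    have h1 : (fun x : Fin c.m => decide ((((x : ℕ) : ℤ)) ∈ c.S)) =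
        (fun x : Fin c.m => decide (x = (⟨c.r, c.h⟩ : Fin c.m))) := by
      funext x
      rw [decide_eq_decide]
      rw [Cone.mem_S, Cone.In]
      have : ((x : ℕ) : ℤ) % (c.m : ℤ) = (x : ℕ) := by
        exact_mod_cast Nat.mod_eq_of_lt x.2
      rw [this, Fin.ext_iff]
      exact_mod_cast Iff.rfl
    rw [h1]
    rw [List.filter_eq, List.count_eq_one_of_mem (List.nodup_finRange _) (List.mem_finRange _)]
    rfl
  rw [this]
  simp [uni]

theorem Rep.single {L : ℕ} (h3 : 3 ≤ L) (hL : Sm S L) : ∀ (k : ℕ) (c : Cone), 1 < c.m →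
    c.m * k = L → s.Rep L c.S (s.w c) := by
  intro k
  induction k using Nat.strong_induction_on with
  | _ k ih =>
    intro c hc hk
    have hcs : Sm S c.m := hL.dvd ⟨k, hk.symm⟩
    rcases Nat.lt_or_ge 1 k with h1 | h1
    · obtain ⟨r, hr, hrk⟩ := Nat.exists_prime_and_dvd h1.ne'
      obtain ⟨k', rfl⟩ := hrk
      have hrS : r ∈ S := hL.2 r hr ⟨c.m * k', by rw [← hk]; ring⟩
      obtain ⟨v, hv, hw⟩ := s.split r hr hrS c hcs hc
      rw [hw]
      have hk'pos : 0 < k' := by
        rcases Nat.eq_zero_or_pos k' with h0 | h0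
        · subst h0; simp at h1
        · exact h0
      have hLS : LS ((List.finRange r).map (fun j => c.comp (uni r j))) = c.S := by
        ext n
        simp only [LS, List.mem_map, List.mem_finRange, true_and, Set.mem_ofPred_eq, Cone.mem_S]
        constructor
        · rintro ⟨d, ⟨j, rfl⟩, hd⟩
          exact in_of_comp hd
        · intro hn
          obtain ⟨z, rfl⟩ := Cone.in_iff.mp hn
          obtain ⟨j, hj, _⟩ := uni_part r hr.pos z
          exact ⟨_, ⟨j, rfl⟩, in_comp_iff.mpr hj⟩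
      refine Rep.left s (E := c.S) ?_ v (fun n hn => hv n hn)
      rw [← hLS]
      have := Rep.list s h3 hL ((List.finRange r).map (fun j => c.comp (uni r j))) ?_ ?_ ?_
      · rw [List.map_map] at this
        exact this
      · rw [List.pairwise_map]
        refine (List.nodup_finRange r).imp ?_
        intro a b hab
        rw [Set.disjoint_left]
        intro n hn hn'
        rw [Cone.mem_S] at hn hn'
        obtain ⟨z, rfl⟩ := Cone.in_iff.mp (in_of_comp hn)
        rw [in_comp_iff] at hn hn'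
        exact hab ((uni_part r hr.pos z).unique hn hn')
      · intro d hd
        rw [List.mem_map] at hd
        obtain ⟨j, _, rfl⟩ := hd
        exact ⟨k', by rw [← hk, comp_m]; simp only [uni]; ring⟩
      · intro d hd
        rw [List.mem_map] at hd
        obtain ⟨j, _, rfl⟩ := hd
        refine ih k' ?_ _ ?_ ?_
        · have := hr.two_le
          nlinarith
        · rw [comp_m]
          have := hr.two_le
          simp only [uni]
          nlinarith
        · rw [← hk, comp_m]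
          simp only [uni]
          ring
    · have hk1 : k = 1 := by
        rcases Nat.eq_zero_or_pos k with h0 | h0
        · subst h0
          rw [mul_zero] at hk
          omega
        · omega
      subst hk1
      rw [mul_one] at hk
      refine ⟨1, fun n _ => rfl, ?_⟩
      rw [s.U_cone c hk]
      simp

theorem Rep.single' {L : ℕ} (h3 : 3 ≤ L) (hL : Sm S L) (c : Cone) (hc : 1 < c.m)
    (hd : c.m ∣ L) : s.Rep L c.S (s.w c) := by
  obtain ⟨k, hk⟩ := hd
  exact Rep.single s h3 hL k c hc hk.symm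

theorem Rep.list' {L : ℕ} (h3 : 3 ≤ L) (hL : Sm S L) (l : List Cone)
    (hp : l.Pairwise (fun c d => Disjoint c.S d.S)) (hdv : ∀ c ∈ l, c.m ∣ L)
    (h1 : ∀ c ∈ l, 1 < c.m) : s.Rep L (LS l) (l.map s.w).prod :=
  Rep.list s h3 hL l hp hdv fun c hc => Rep.single' s h3 hL c (h1 c hc) (hdv c hc)

open Classical in
/-- the classes modulo `L` in `E` -/
noncomputable def cl (L : ℕ) (E : Set ℤ) : List Cone :=
  ((List.finRange L).filter (fun x : Fin L => decide ((((x : ℕ) : ℤ)) ∈ E))).map (uni L)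

theorem U_eq (L : ℕ) (E : Set ℤ) : s.U L E = ((cl L E).map s.w).prod := by
  unfold U cl
  rw [List.map_map]
  rfl

theorem cl_m {L : ℕ} {E : Set ℤ} {c : Cone} (h : c ∈ cl L E) : c.m = L ∧ (c.r : ℤ) ∈ E := by
  classical
  unfold cl at h
  rw [List.mem_map] at h
  obtain ⟨x, hx, rfl⟩ := h
  exact ⟨rfl, by simpa [uni] using (List.mem_filter.mp hx).2⟩

theorem cl_pair (L : ℕ) (E : Set ℤ) : (cl L E).Pairwise (fun c d => Disjoint c.S d.S) := by
  classical
  unfold cl
  rw [List.pairwise_map]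
  refine ((List.nodup_finRange L).filter _).imp ?_
  intro a b hab
  rw [Set.disjoint_left]
  intro n hn hn'
  rw [Cone.mem_S] at hn hn'
  exact hab ((uni_part L (lt_of_le_of_lt (Nat.zero_le _) a.2) n).unique hn hn')

theorem cl_LS {L : ℕ} (hL : 0 < L) {E : Set ℤ} (hE : Per L E) : LS (cl L E) = E := by
  classical
  ext n
  unfold LS cl
  simp only [List.mem_map, List.mem_filter, List.mem_finRange, true_and, Set.mem_ofPred_eq,
    decide_eq_true_eq]
  constructor
  · rintro ⟨c, ⟨x, hx, rfl⟩, hn⟩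
    rw [per_in hE (c := uni L x) dvd_rfl hn]
    exact hx
  · intro hn
    obtain ⟨x, hx, _⟩ := uni_part L hL n
    exact ⟨_, ⟨x, (per_in hE (c := uni L x) dvd_rfl hx).mp hn, rfl⟩, hx⟩

/-- refinement of the modulus -/
theorem Rep.refine {L M : ℕ} (hL3 : 3 ≤ L) (hM3 : 3 ≤ M) (hM : Sm S M) (hd : L ∣ M)
    {E : Set ℤ} (hE : Per L E) : s.Rep M E (s.U L E) := by
  rw [s.U_eq]
  have := Rep.list' s hM3 hM (cl L E) (cl_pair L E) (fun c hc => (cl_m hc).1 ▸ hd)
    (fun c hc => by rw [(cl_m hc).1]; omega)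
  rwa [cl_LS (by omega) hE] at this

/-- conjugation -/
theorem Rep.conj {N : ℕ} (hN3 : 3 ≤ N) (hN : Sm S N) {E : Set ℤ} (hE : Per N E) (b : T S)
    (hb : ∀ c : Cone, c.m = N → ∃ d : Cone, Sm S d.m ∧ Mp b c d) :
    ∃ M : ℕ, 3 ≤ M ∧ Sm S M ∧ Per M ((b : Equiv.Perm ℤ) '' E) ∧
      s.Rep M ((b : Equiv.Perm ℤ) '' E) (s.i b * s.U N E * (s.i b)⁻¹) := by
  have hb' : ∀ x : Fin N, ∃ d : Cone, Sm S d.m ∧ Mp b (uni N x) d := fun x => hb _ rfl
  choose D hD1 hD2 using hb'
  have hgt : ∀ x, 1 < (D x).m := by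
    intro x
    by_contra hcon
    have h1 : (D x).m = 1 := le_antisymm (not_lt.mp hcon) (D x).mpos
    have hall : ∀ n, (D x).In n := by
      intro n
      unfold Cone.In
      have := (D x).h
      rw [h1] at this ⊢
      have h0 : (D x).r = 0 := by omega
      rw [h0]
      simp
    have hx : ∀ n, (uni N x).In n := fun n => (hD2 x).in_iff.mp (hall _)
    have h0 := hx 0
    have h1 := hx 1
    unfold Cone.In uni at h0 h1
    simp only at h0 h1
    rw [Int.zero_emod] at h0
    rw [← h0] at h1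
    have : (1 : ℤ) % (N : ℤ) = 1 := Int.emod_eq_of_lt (by norm_num) (by exact_mod_cast (by omega : 1 < N))
    rw [this] at h1
    exact one_ne_zero h1
  classical
  have hEq : s.i b * s.U N E * (s.i b)⁻¹ =
      ((((List.finRange N).filter (fun x : Fin N => decide ((((x : ℕ) : ℤ)) ∈ E))).map D).map
        s.w).prod := by
    have := map_list_prod (MulAut.conj (s.i b))
      (((List.finRange N).filter (fun x : Fin N => decide ((((x : ℕ) : ℤ)) ∈ E))).map
    (fun x => s.w (uni N x)))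
    rw [MulAut.conj_apply] at this
    unfold U
    rw [this, List.map_map, List.map_map]
    congr 1
    apply List.map_congr_left
    intro x _
    simp only [Function.comp_apply, MulAut.conj_apply]
    exact s.conj b _ _ hN (by show 1 < N; omega) (hD1 x) (hD2 x)
  have hLS : LS (((List.finRange N).filter (fun x : Fin N => decide ((((x : ℕ) : ℤ)) ∈ E))).map D)
      = (b : Equiv.Perm ℤ) '' E := by
    ext n
    simp only [LS, List.mem_map, List.mem_filter, List.mem_finRange, true_and, Set.mem_ofPred_eq,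
      decide_eq_true_eq, Set.mem_image]
    constructor
    · rintro ⟨c, ⟨x, hx, rfl⟩, hn⟩
      refine ⟨(b : Equiv.Perm ℤ)⁻¹ n, ?_, pai _ _⟩
      have : (uni N x).In ((b : Equiv.Perm ℤ)⁻¹ n) := by
        rw [← (hD2 x).in_iff, pai]
        exact hn
      rw [per_in hE (c := uni N x) dvd_rfl this]
      exact hx
    · rintro ⟨m, hm, rfl⟩
      obtain ⟨x, hx, _⟩ := uni_part N (by omega) m
      exact ⟨_, ⟨x, (per_in hE (c := uni N x) dvd_rfl hx).mp hm, rfl⟩, (hD2 x).in_iff.mpr hx⟩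
  have hdv : ∀ x, (D x).m ∣ 4 * ∏ x, (D x).m := fun x =>
    (Finset.dvd_prod_of_mem (fun r => (D r).m) (Finset.mem_univ _)).trans (dvd_mul_left _ _)
  have hS4 : Sm S 4 := by
    have := (Sm.prime Nat.prime_two s.two).pow 2
    norm_num at this
    exact this
  have hM : Sm S (4 * ∏ x, (D x).m) := hS4.mul (Sm.prod _ _ fun x _ => hD1 x)
  have hM3 : 3 ≤ 4 * ∏ x, (D x).m := by
    have : 0 < ∏ x, (D x).m := Finset.prod_pos fun x _ => (D x).mpos
    omega
  have hdv' : ∀ c ∈ ((List.finRange N).filter (fun x : Fin N => decide ((((x : ℕ) : ℤ)) ∈ E))).map D,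
      c.m ∣ 4 * ∏ x, (D x).m := by
    intro c hc
    rw [List.mem_map] at hc
    obtain ⟨x, _, rfl⟩ := hc
    exact hdv x
  refine ⟨4 * ∏ x, (D x).m, hM3, hM, ?_, ?_⟩
  · rw [← hLS]
    exact per_LS _ hdv'
  · rw [hEq, ← hLS]
    refine Rep.list' s hM3 hM _ ?_ hdv' ?_
    · rw [List.pairwise_map]
      refine ((List.nodup_finRange N).filter _).imp ?_
      intro x y hxy
      rw [Set.disjoint_left]
      intro n hn hn'
      rw [Cone.mem_S] at hn hn'
      have e1 : (uni N x).In ((b : Equiv.Perm ℤ)⁻¹ n) := by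
        rw [← (hD2 x).in_iff, pai]; exact hn
      have e2 : (uni N y).In ((b : Equiv.Perm ℤ)⁻¹ n) := by
        rw [← (hD2 y).in_iff, pai]; exact hn'
      exact hxy ((uni_part N (by omega) _).unique e1 e2)
    · intro c hc
      rw [List.mem_map] at hc
      obtain ⟨x, _, rfl⟩ := hc
      exact hgt x

end Sys

end Pool.Agent.U640.CT
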