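import Pool.Agent.U640.CT.A2

set_option autoImplicit false

namespace Pool.Agent.U640.CT

open Cone

/-- the cone `2ℤ` -/
def u0 : Cone := ⟨0, 2, by norm_num⟩

namespace Sys

variable {S : Finset ℕ} {p : ℕ} {H : Type} [Group H] (s : Sys S p H)

/-- the extra generator -/
def t : H := s.w u0

/-- the positive monoid -/
def Pos : Submonoid H := Submonoid.closure (Set.range s.i ∪ {s.t})

theorem i_pos (b : T S) : s.i b ∈ s.Pos := Submonoid.subset_closure (Or.inl ⟨b, rfl⟩)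

theorem i_inv_pos (b : T S) : (s.i b)⁻¹ ∈ s.Pos := by
  rw [← map_inv]
  exact s.i_pos _

theorem t_pos : s.t ∈ s.Pos := Submonoid.subset_closure (Or.inr rfl)

include s in
theorem two_sm : Sm S 2 := Sm.prime Nat.prime_two s.two

theorem w_pos (u : Cone) (hu : Sm S u.m) (h1 : 1 < u.m) : s.w u ∈ s.Pos := by
  obtain ⟨b, hb⟩ := s.trans u hu h1
  have := s.conj b u0 u s.two_sm (by show 1 < 2; norm_num) hu hb
  rw [← this]
  exact mul_mem (mul_mem (s.i_pos b) s.t_pos) (s.i_inv_pos b)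

theorem U_pos {L : ℕ} (h3 : 3 ≤ L) (hL : Sm S L) (E : Set ℤ) : s.U L E ∈ s.Pos := by
  rw [s.U_eq]
  apply Submonoid.list_prod_mem
  intro x hx
  rw [List.mem_map] at hx
  obtain ⟨c, hc, rfl⟩ := hx
  apply s.w_pos
  · rw [(cl_m hc).1]; exact hL
  · rw [(cl_m hc).1]; omega

include s in
theorem fact : Fact p.Prime := ⟨s.prime⟩

include s in
theorem four_sm : Sm S 4 := by
  have := s.two_sm.pow 2
  norm_num at this
  exact this

theorem u0_in (n : ℤ) : u0.In n ↔ n % 2 = 0 := by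
  unfold u0 Cone.In
  simp

theorem Mon {a : H} (ha : a ∈ s.Pos) : ∀ n, ∃ k ≤ 0, Dr p (s.q a) n k := by
  have := s.fact
  induction ha using Submonoid.closure_induction_right with
  | one => intro n; exact ⟨0, le_refl _, by rw [map_one]; exact Dr.one n⟩
  | mul_right x hx y hy ih =>
    intro n
    rcases hy with ⟨b, rfl⟩ | hy
    · have h1 := Dr.of_T (p := p) s.pS b.2 n
      obtain ⟨k, hk, h2⟩ := ih ((b : Equiv.Perm ℤ) n)
      refine ⟨k + 0, by omega, ?_⟩
      rw [map_mul, s.qi]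
      exact h1.mul h2
    · rw [Set.mem_singleton_iff] at hy
      subst hy
      rw [map_mul]
      obtain ⟨k, hk, h2⟩ := ih (s.q s.t n)
      by_cases hn : u0.In n
      · have h1 := s.qw_in u0 s.two_sm (by show 1 < 2; norm_num) n hn
        exact ⟨k + -1, by omega, h1.mul h2⟩
      · have h1 := (s.qw_out u0 s.two_sm (by show 1 < 2; norm_num) n hn).2
        exact ⟨k + 0, by omega, h1.mul h2⟩

theorem Pos0 {a : H} (ha : a ∈ s.Pos) : (∃ b, a = s.i b) ∨ ∃ n, ∃ k < 0, Dr p (s.q a) n k := by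
  have := s.fact
  induction ha using Submonoid.closure_induction_right with
  | one => exact Or.inl ⟨1, (map_one _).symm⟩
  | mul_right x hx y hy ih =>
    rcases hy with ⟨b, rfl⟩ | hy
    · rcases ih with ⟨b', rfl⟩ | ⟨n, k, hk, hD⟩
      · exact Or.inl ⟨b' * b, (map_mul _ _ _).symm⟩
      · right
        refine ⟨(b : Equiv.Perm ℤ)⁻¹ n, k + 0, by omega, ?_⟩
        rw [map_mul, s.qi]
        refine (Dr.of_T (p := p) s.pS b.2 _).mul ?_
        rw [pai]
        exact hD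
    · rw [Set.mem_singleton_iff] at hy
      subst hy
      right
      have hn : u0.In 0 := by rw [u0_in]; norm_num
      have h1 := s.qw_in u0 s.two_sm (by show 1 < 2; norm_num) 0 hn
      obtain ⟨k, hk, h2⟩ := s.Mon hx (s.q s.t 0)
      refine ⟨0, k + -1, by omega, ?_⟩
      rw [map_mul]
      exact h1.mul h2

theorem Div {a : H} (ha : a ∈ s.Pos) : ∀ (N : ℕ) (_ : 3 ≤ N) (_ : Sm S N) (E : Set ℤ)
    (_ : Per N E) (_ : ∀ n ∈ E, ∃ k < 0, Dr p (s.q a) n k), ∃ a' ∈ s.Pos, a = a' * s.U N E := by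
  have := s.fact
  induction ha using Submonoid.closure_induction_right with
  | one =>
    intro N h3 hN E hE hD
    have : E = ∅ := by
      ext n
      simp only [Set.mem_empty_iff_false, iff_false]
      intro hn
      obtain ⟨k, hk, h1⟩ := hD n hn
      rw [map_one] at h1
      have := h1.uniq (Dr.one n)
      omega
    rw [this, s.U_empty]
    exact ⟨1, one_mem _, by simp⟩
  | mul_right x hx y hy ih =>
    intro N h3 hN E hE hD
    rcases hy with ⟨b, rfl⟩ | hy
    · obtain ⟨Nb, hNb, hb⟩ := b.2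
      have hN' : Sm S (N * Nb) := hN.mul hNb
      have h3' : 3 ≤ N * Nb := le_trans h3 (Nat.le_mul_of_pos_right _ hNb.pos)
      obtain ⟨v, hv, hvU⟩ := Rep.refine s h3 h3' hN' (dvd_mul_right N Nb) hE
      obtain ⟨M, hM3, hM, hPer, v', hv', hvU'⟩ := Rep.conj s h3' hN' (hE.mul (dvd_mul_right N Nb)) b
        (fun c hc => hb c (hc ▸ hN') (hc ▸ dvd_mul_left _ _))
      obtain ⟨a2, ha2, ha2'⟩ := ih M hM3 hM _ hPer (by
        rintro _ ⟨n, hn, rfl⟩
        obtain ⟨k, hk, h1⟩ := hD n hn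
        refine ⟨-0 + k, by omega, ?_⟩
        rw [map_mul, s.qi] at h1
        have h2 := (Dr.of_T (p := p) s.pS b.2 n).inv
        have h3 : Dr p (s.q x * (b : Equiv.Perm ℤ)) ((b : Equiv.Perm ℤ)⁻¹ ((b : Equiv.Perm ℤ) n)) k := by
          rw [pia]; exact h1
        have h4 := h2.mul h3
        rw [mul_inv_cancel_right] at h4
        rw [add_comm]
        exact h4)
      refine ⟨a2 * (s.i v')⁻¹ * s.i b * (s.i v)⁻¹, mul_mem (mul_mem (mul_mem ha2 (s.i_inv_pos _))
        (s.i_pos _)) (s.i_inv_pos _), ?_⟩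
      have e1 : s.U M ((b : Equiv.Perm ℤ) '' E) = (s.i v')⁻¹ * (s.i b * s.U (N * Nb) E * (s.i b)⁻¹) := by
        rw [hvU']; group
      rw [ha2', e1, hvU]
      group
    · rw [Set.mem_singleton_iff] at hy
      subst hy
      have hN' : Sm S (4 * N) := s.four_sm.mul hN
      have h3' : 3 ≤ 4 * N := by omega
      have hE' : Per (4 * N) E := hE.mul (dvd_mul_left _ _)
      have hu0 : Per (4 * N) u0.S := per_cone u0 (by
        show 2 ∣ 4 * N
        exact ⟨2 * N, by ring⟩)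
      obtain ⟨v, hv, hvU⟩ := Rep.refine s h3 h3' hN' (dvd_mul_left N 4) hE
      obtain ⟨v2, hv2, ht⟩ := Rep.single' s h3' hN' u0 (by show 1 < 2; norm_num)
        (by show 2 ∣ 4 * N; exact ⟨2 * N, by ring⟩)
      obtain ⟨a2, ha2, ha2'⟩ := ih (4 * N) h3' hN' (E \ u0.S) (hE'.diff hu0) (by
        intro n hn
        obtain ⟨k, hk, h1⟩ := hD n hn.1
        have hout := s.qw_out u0 s.two_sm (by show 1 < 2; norm_num) n hn.2
        rw [map_mul] at h1
        have hout' : s.q s.t n = n := hout.1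
        have h2 := hout.2.inv
        refine ⟨k + -0, by omega, ?_⟩
        have h3 : Dr p (s.q x * s.q s.t) ((s.q s.t)⁻¹ (s.q s.t n)) k := by
          rw [pia]; exact h1
        have h4 := h2.mul h3
        have e5 : s.q s.t = s.q (s.w u0) := rfl
        rw [e5, mul_inv_cancel_right] at h4
        rw [hout.1] at h4
        exact h4)
      have eE : s.U (4 * N) E = s.U (4 * N) (E \ u0.S) * s.U (4 * N) (u0.S ∩ E) := by
        rw [← s.U_union h3' hN']
        · congr 1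
          ext n
          simp only [Set.mem_union, Set.mem_sdiff, Set.mem_inter_iff]
          tauto
        · rw [Set.disjoint_left]
          intro n hn hn'
          exact hn.2 hn'.1
      have eu : s.U (4 * N) u0.S = s.U (4 * N) (u0.S \ E) * s.U (4 * N) (u0.S ∩ E) := by
        rw [← s.U_union h3' hN']
        · congr 1
          ext n
          simp only [Set.mem_union, Set.mem_sdiff, Set.mem_inter_iff]
          tauto
        · rw [Set.disjoint_left]
          intro n hn hn'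
          exact hn.2 hn'.2
      have c1 : Commute (s.i v2) (s.U (4 * N) (E \ u0.S)) :=
        s.comm_U h3' hN' (hE'.diff hu0) v2 (fun n hn => hv2 n hn.2)
      have c2 : Commute (s.U (4 * N) (u0.S \ E)) (s.U (4 * N) (E \ u0.S)) := s.U_comm h3' hN' _ _
      refine ⟨a2 * s.i v2 * s.U (4 * N) (u0.S \ E) * (s.i v)⁻¹,
        mul_mem (mul_mem (mul_mem ha2 (s.i_pos _)) (s.U_pos h3' hN' _)) (s.i_inv_pos _), ?_⟩
      have ht' : s.t = s.i v2 * (s.U (4 * N) (u0.S \ E) * s.U (4 * N) (u0.S ∩ E)) := by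
        rw [← eu]; exact ht
      rw [ha2', ht', hvU, eE]
      calc a2 * s.U (4 * N) (E \ u0.S) * (s.i v2 * (s.U (4 * N) (u0.S \ E) * s.U (4 * N) (u0.S ∩ E)))
          = a2 * (s.U (4 * N) (E \ u0.S) * s.i v2) * s.U (4 * N) (u0.S \ E)
              * s.U (4 * N) (u0.S ∩ E) := by group
        _ = a2 * (s.i v2 * s.U (4 * N) (E \ u0.S)) * s.U (4 * N) (u0.S \ E)
              * s.U (4 * N) (u0.S ∩ E) := by rw [c1.eq]
        _ = a2 * s.i v2 * (s.U (4 * N) (E \ u0.S) * s.U (4 * N) (u0.S \ E))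
              * s.U (4 * N) (u0.S ∩ E) := by group
        _ = a2 * s.i v2 * (s.U (4 * N) (u0.S \ E) * s.U (4 * N) (E \ u0.S))
              * s.U (4 * N) (u0.S ∩ E) := by rw [c2.eq]
        _ = _ := by group

/-- the generator `t` via the modulus `4` -/
theorem t_eq : ∃ v : T S, (∀ n, n ∉ u0.S → (v : Equiv.Perm ℤ) n = n) ∧
    s.t = s.i v * s.U 4 u0.S :=
  Rep.single' s (by norm_num) s.four_sm u0 (by show 1 < 2; norm_num)
    (by show 2 ∣ 4; norm_num)

theorem per_u0 : Per 4 u0.S := per_cone u0 (by show 2 ∣ 4; norm_num)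

theorem faith {c : H} (hc : c ∈ s.Pos) : ∀ a ∈ s.Pos, (∃ β : T S, s.q a = β * s.q c) →
    ∃ β : T S, a = s.i β * c := by
  have := s.fact
  induction hc using Submonoid.closure_induction_right with
  | one =>
    rintro a ha ⟨β, hβ⟩
    rw [map_one, mul_one] at hβ
    rcases s.Pos0 ha with ⟨b, rfl⟩ | ⟨n, k, hk, hD⟩
    · exact ⟨b, by simp⟩
    · rw [hβ] at hD
      have := hD.uniq (Dr.of_T s.pS β.2 n)
      omega
  | mul_right x hx y hy ih =>
    rintro a ha ⟨β, hβ⟩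
    rcases hy with ⟨b, rfl⟩ | hy
    · obtain ⟨β', h'⟩ := ih (a * (s.i b)⁻¹) (mul_mem ha (s.i_inv_pos b)) ⟨β, by
        rw [map_mul, hβ, map_mul, map_inv, s.qi]; group⟩
      exact ⟨β', by rw [← mul_assoc, ← h']; group⟩
    · rw [Set.mem_singleton_iff] at hy
      subst hy
      obtain ⟨v, hv, hvt⟩ := s.t_eq
      obtain ⟨a', ha', haa⟩ := s.Div ha 4 (by norm_num) s.four_sm u0.S per_u0 (by
        intro n hn
        rw [hβ, map_mul]
        obtain ⟨k, hk, h1⟩ := s.Mon hx (s.q s.t n)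
        have h2 := s.qw_in u0 s.two_sm (by show 1 < 2; norm_num) n hn
        have h3 := (h2.mul h1).mul (Dr.of_T s.pS β.2 _)
        exact ⟨_, by omega, h3⟩)
      have e1 : a = a' * (s.i v)⁻¹ * s.t := by
        rw [haa, hvt]; group
      obtain ⟨β', h'⟩ := ih (a' * (s.i v)⁻¹) (mul_mem ha' (s.i_inv_pos v)) ⟨β, by
        have : s.q (a' * (s.i v)⁻¹) = s.q a * (s.q s.t)⁻¹ := by
          rw [e1, map_mul _ _ s.t]; group
        rw [this, hβ, map_mul]; group⟩
      exact ⟨β', by rw [e1, h']; group⟩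

/-- the element `ω̂` -/
noncomputable def om : H := s.U 4 Set.univ

theorem om_pos : s.om ∈ s.Pos := s.U_pos (by norm_num) s.four_sm _

theorem per_univ (L : ℕ) : Per L Set.univ := fun n z => by simp

theorem om_b (b : T S) : ∃ b' : T S, s.om * s.i b = s.i b' * s.om := by
  -- apply conjugation to `b⁻¹`
  obtain ⟨Nb, hNb, hb⟩ := (b⁻¹).2
  have hN' : Sm S (4 * Nb) := s.four_sm.mul hNb
  have h3' : 3 ≤ 4 * Nb := by have := hNb.pos; omega
  obtain ⟨v, _, hvU⟩ := Rep.refine s (by norm_num : 3 ≤ 4) h3' hN' (dvd_mul_right 4 Nb) (per_univ 4)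
  obtain ⟨M, hM3, hM, hPer, v', _, hvU'⟩ := Rep.conj s h3' hN' (per_univ (4 * Nb)) (b⁻¹)
    (fun c hc => hb c (hc ▸ hN') (hc ▸ dvd_mul_left _ _))
  have himg : ((b⁻¹ : T S) : Equiv.Perm ℤ) '' Set.univ = Set.univ := by
    rw [Set.image_univ]
    exact (Equiv.surjective _).range_eq
  rw [himg] at hvU'
  obtain ⟨w1, _, hw1⟩ := Rep.refine s (by norm_num : 3 ≤ 4) (M := 4 * M) (by omega)
    (s.four_sm.mul hM) (dvd_mul_right 4 M) (per_univ 4)
  obtain ⟨w2, _, hw2⟩ := Rep.refine s hM3 (M := 4 * M) (by omega)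
    (s.four_sm.mul hM) (dvd_mul_left M 4) (per_univ M)
  -- om = i v * U (4Nb) univ ; i b⁻¹ * U(4Nb) * i b = i v' * U M = i v' * i w2 * U (4M)
  refine ⟨v * b * v' * w2 * w1⁻¹, ?_⟩
  have e1 : s.U (4 * Nb) Set.univ = s.i b * (s.i v' * s.U M Set.univ) * (s.i b)⁻¹ := by
    rw [← hvU', map_inv]; group
  have e2 : s.U (4 * M) Set.univ = (s.i w1)⁻¹ * s.om := by
    unfold om; rw [hw1]; group
  have e3 : s.om = s.i v * (s.i b * (s.i v' * (s.i w2 * ((s.i w1)⁻¹ * s.om))) * (s.i b)⁻¹) := by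
    have := hvU
    rw [e1, hw2, e2] at this
    exact this
  calc s.om * s.i b = s.i v * (s.i b * (s.i v' * (s.i w2 * ((s.i w1)⁻¹ * s.om))) * (s.i b)⁻¹)
        * s.i b := by rw [← e3]
    _ = _ := by simp only [map_mul, map_inv]; group

theorem om_pow_b (m : ℕ) (b : T S) : ∃ b' : T S, s.om ^ m * s.i b = s.i b' * s.om ^ m := by
  induction m with
  | zero => exact ⟨b, by simp⟩
  | succ m ih =>
    obtain ⟨b1, h1⟩ := ih
    obtain ⟨b2, h2⟩ := s.om_b b1
    refine ⟨b2, ?_⟩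
    rw [pow_succ', mul_assoc, h1, ← mul_assoc, h2, mul_assoc]

/-- `ω̂ = (v⁻¹) t o`, with `o` commuting with `t` -/
theorem om_t : ∃ (v : T S) (o : H), o ∈ s.Pos ∧ s.om = (s.i v)⁻¹ * s.t * o ∧ Commute s.t o ∧
    Commute (s.i v) o := by
  obtain ⟨v, hv, hvt⟩ := s.t_eq
  refine ⟨v, s.U 4 (Set.univ \ u0.S), s.U_pos (by norm_num) s.four_sm _, ?_, ?_, ?_⟩
  · have : s.om = s.U 4 u0.S * s.U 4 (Set.univ \ u0.S) := by
      rw [← s.U_union (by norm_num) s.four_sm]
      · unfold om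
        congr 1
        ext n
        simp only [Set.mem_union, Set.mem_sdiff, Set.mem_univ, true_and]
        tauto
      · rw [Set.disjoint_left]
        intro n hn hn'
        exact hn'.2 hn
    rw [this, hvt]; group
  · rw [hvt]
    apply Commute.mul_left
    · exact s.comm_U (by norm_num) s.four_sm ((per_univ 4).diff per_u0) v (fun n hn => hv n hn.2)
    · exact s.U_comm (by norm_num) s.four_sm _ _
  · exact s.comm_U (by norm_num) s.four_sm ((per_univ 4).diff per_u0) v (fun n hn => hv n hn.2)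

theorem om_pow_t (m : ℕ) : ∃ β : T S, s.om ^ m * s.t = s.i β * s.t * (s.i β)⁻¹ * s.om ^ m := by
  induction m with
  | zero => exact ⟨1, by simp⟩
  | succ m ih =>
    obtain ⟨β, hβ⟩ := ih
    obtain ⟨β', hβ'⟩ := s.om_b β
    obtain ⟨v, o, _, h1, h2, h3⟩ := s.om_t
    have e1 : s.om * s.t = (s.i v)⁻¹ * s.t * s.i v * s.om := by
      rw [h1]
      calc (s.i v)⁻¹ * s.t * o * s.t = (s.i v)⁻¹ * s.t * (o * s.t) := by group
        _ = (s.i v)⁻¹ * s.t * (s.t * o) := by rw [h2.eq]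
        _ = _ := by group
    refine ⟨β' * v⁻¹, ?_⟩
    have e2 : s.om * (s.i β)⁻¹ = (s.i β')⁻¹ * s.om := by
      rw [eq_inv_mul_iff_mul_eq, ← mul_assoc, ← hβ']
      group
    calc s.om ^ (m + 1) * s.t = s.om * (s.om ^ m * s.t) := by rw [pow_succ', mul_assoc]
      _ = s.om * (s.i β * s.t * (s.i β)⁻¹ * s.om ^ m) := by rw [hβ]
      _ = (s.om * s.i β) * s.t * (s.i β)⁻¹ * s.om ^ m := by group
      _ = s.i β' * (s.om * s.t) * (s.i β)⁻¹ * s.om ^ m := by rw [hβ']; group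
      _ = s.i β' * (s.i v)⁻¹ * s.t * s.i v * (s.om * (s.i β)⁻¹) * s.om ^ m := by rw [e1]; group
      _ = s.i β' * (s.i v)⁻¹ * s.t * s.i v * ((s.i β')⁻¹ * s.om) * s.om ^ m := by rw [e2]
      _ = _ := by rw [map_mul, map_inv, pow_succ']; group

theorem all_frac (h : H) : ∃ k ∈ s.Pos, ∃ (m : ℕ) (b : T S), k * h = s.i b * s.om ^ m := by
  have hh : h ∈ Subgroup.closure (Set.range s.i ∪ {s.t}) := by
    have : Subgroup.closure (Set.range s.i ∪ {s.t}) = ⊤ := s.gen
    rw [this]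
    exact Subgroup.mem_top _
  induction hh using Subgroup.closure_induction_right with
  | one => exact ⟨1, one_mem _, 0, 1, by simp⟩
  | mul_right x hx y hy ih =>
    obtain ⟨k, hk, m, b, hkb⟩ := ih
    rcases hy with ⟨b', rfl⟩ | hy
    · obtain ⟨b2, h2⟩ := s.om_pow_b m b'
      refine ⟨k, hk, m, b * b2, ?_⟩
      rw [← mul_assoc, hkb, mul_assoc, h2, map_mul, mul_assoc]
    · rw [Set.mem_singleton_iff] at hy
      subst hy
      obtain ⟨β, hβ⟩ := s.om_pow_t m
      obtain ⟨v, o, ho, h1, h2, h3⟩ := s.om_t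
      obtain ⟨β', hβ'⟩ := s.om_b β⁻¹
      refine ⟨o * (s.i (b * β))⁻¹ * k, mul_mem (mul_mem ho (s.i_inv_pos _)) hk, m + 1, v * β', ?_⟩
      have e1 : o * s.t = s.i v * s.om := by
        rw [← h2.eq, h1]; group
      calc o * (s.i (b * β))⁻¹ * k * (x * s.t) = o * (s.i (b * β))⁻¹ * (k * x) * s.t := by group
        _ = o * (s.i (b * β))⁻¹ * (s.i b * s.om ^ m) * s.t := by rw [hkb]
        _ = o * (s.i (b * β))⁻¹ * s.i b * (s.om ^ m * s.t) := by group
        _ = o * (s.i (b * β))⁻¹ * s.i b * (s.i β * s.t * (s.i β)⁻¹ * s.om ^ m) := by rw [hβ]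
        _ = (o * s.t) * (s.i β)⁻¹ * s.om ^ m := by rw [map_mul]; group
        _ = s.i v * (s.om * s.i (β⁻¹)) * s.om ^ m := by rw [e1, map_inv]; group
        _ = _ := by rw [hβ', map_mul, pow_succ']; group
  | mul_inv_cancel x hx y hy ih =>
    obtain ⟨k, hk, m, b, hkb⟩ := ih
    rcases hy with ⟨b', rfl⟩ | hy
    · obtain ⟨b2, h2⟩ := s.om_pow_b m b'⁻¹
      refine ⟨k, hk, m, b * b2, ?_⟩
      rw [← mul_assoc, hkb, mul_assoc, ← map_inv, h2, map_mul, mul_assoc]
    · rw [Set.mem_singleton_iff] at hy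
      subst hy
      obtain ⟨β, hβ⟩ := s.om_pow_t m
      refine ⟨s.t * (s.i (b * β))⁻¹ * k, mul_mem (mul_mem s.t_pos (s.i_inv_pos _)) hk, m, β⁻¹, ?_⟩
      have e1 : s.om ^ m * s.t⁻¹ = s.i β * s.t⁻¹ * (s.i β)⁻¹ * s.om ^ m := by
        rw [mul_inv_eq_iff_eq_mul, mul_assoc _ _ s.t, hβ]
        group
      calc s.t * (s.i (b * β))⁻¹ * k * (x * s.t⁻¹) = s.t * (s.i (b * β))⁻¹ * (k * x) * s.t⁻¹ := by
            group
        _ = s.t * (s.i (b * β))⁻¹ * (s.i b * s.om ^ m) * s.t⁻¹ := by rw [hkb]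
        _ = s.t * (s.i (b * β))⁻¹ * s.i b * (s.om ^ m * s.t⁻¹) := by group
        _ = s.t * (s.i (b * β))⁻¹ * s.i b * (s.i β * s.t⁻¹ * (s.i β)⁻¹ * s.om ^ m) := by rw [e1]
        _ = _ := by rw [map_mul, map_inv]; group

theorem inj : Function.Injective s.q := by
  rw [injective_iff_map_eq_one]
  intro h hh
  obtain ⟨k, hk, m, b, hkb⟩ := s.all_frac h
  have h1 : s.q k = b * s.q (s.om ^ m) := by
    have := congrArg s.q hkb
    rw [map_mul, map_mul, hh, mul_one, s.qi] at this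
    exact this
  obtain ⟨β, hβ⟩ := s.faith (pow_mem s.om_pos m) k hk ⟨b, h1⟩
  have h2 : (β : Equiv.Perm ℤ) = b := by
    rw [hβ, map_mul, s.qi] at h1
    exact mul_right_cancel h1
  have h3 : β = b := Subtype.ext h2
  rw [hβ, h3] at hkb
  have : s.i b * s.om ^ m * h = s.i b * s.om ^ m * 1 := by rw [hkb, mul_one]
  exact mul_left_cancel this

end Sys

end Pool.Agent.U640.CT
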