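import Pool.Agent.U640.CT.A3

set_option autoImplicit false

namespace Pool.Agent.U640.CT

open Cone

/-- the cone `1 + 2ℤ` -/
def u1 : Cone := ⟨1, 2, by norm_num⟩

theorem u1_in (n : ℤ) : u1.In n ↔ n % 2 = 1 := by
  unfold u1 Cone.In
  simp

/-- the comb partition with `n + 1` members -/
def cb : (n : ℕ) → Fin (n + 1) → Cone
  | 0 => fun _ => one
  | n + 1 => Fin.cons u0 (fun i => u1.comp (cb n i))

theorem cb_part : ∀ n, IsPart (cb n) := by
  intro n
  induction n with
  | zero =>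
    intro z
    refine ⟨0, by simp [cb, one, Cone.In], fun j _ => Fin.ext (by omega)⟩
  | succ n ih =>
    intro z
    rcases Int.emod_two_eq_zero_or_one z with h | h
    · refine ⟨0, ?_, ?_⟩
      · show (Fin.cons u0 (fun i => u1.comp (cb n i)) : Fin (n + 2) → Cone) 0 |>.In z
        rw [Fin.cons_zero, Sys.u0_in]
        exact h
      · intro j hj
        refine Fin.cases ?_ (fun i => ?_) j (motive := fun j => (cb (n + 1) j).In z → j = 0) hj
        · intro _; rfl
        · intro hi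
          exfalso
          change ((Fin.cons u0 (fun i => u1.comp (cb n i)) : Fin (n + 2) → Cone) i.succ).In z at hi
          rw [Fin.cons_succ] at hi
          have := in_of_comp hi
          rw [u1_in] at this
          omega
    · obtain ⟨w, hw⟩ := Cone.in_iff.mp ((u1_in z).mpr h)
      obtain ⟨i, hi, hu⟩ := ih w
      refine ⟨i.succ, ?_, ?_⟩
      · show ((Fin.cons u0 (fun i => u1.comp (cb n i)) : Fin (n + 2) → Cone) i.succ).In z
        rw [Fin.cons_succ, hw, in_comp_iff]
        exact hi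
      · intro j hj
        refine Fin.cases ?_ (fun i' => ?_) j (motive := fun j => (cb (n + 1) j).In z → j = i.succ) hj
        · intro h0
          change ((Fin.cons u0 (fun i => u1.comp (cb n i)) : Fin (n + 2) → Cone) 0).In z at h0
          rw [Fin.cons_zero, Sys.u0_in] at h0
          omega
        · intro hi'
          change ((Fin.cons u0 (fun i => u1.comp (cb n i)) : Fin (n + 2) → Cone) i'.succ).In z at hi'
          rw [Fin.cons_succ, hw, in_comp_iff] at hi'
          rw [hu i' hi']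

theorem cb_sm {S : Finset ℕ} (h2 : 2 ∈ S) : ∀ n i, Sm S (cb n i).m := by
  have hs2 : Sm S 2 := Sm.prime Nat.prime_two h2
  intro n
  induction n with
  | zero => intro i; exact Sm.one S
  | succ n ih =>
    intro j
    refine Fin.cases ?_ (fun i => ?_) j
    · exact hs2
    · exact hs2.mul (ih i)

/-- the identification of `ℤ` with a cone -/
def Cone.eqv (u : Cone) : ℤ ≃ {n : ℤ // u.In n} where
  toFun z := ⟨u.ev z, u.ev_in z⟩
  invFun n := (n.1 - u.r) / u.m
  left_inv z := by
    simp only [Cone.ev, add_sub_cancel_left]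
    exact Int.mul_ediv_cancel_left _ u.mposZ.ne'
  right_inv := by
    rintro ⟨n, hn⟩
    obtain ⟨z, rfl⟩ := Cone.in_iff.mp hn
    ext
    simp only [Cone.ev, add_sub_cancel_left]
    rw [Int.mul_ediv_cancel_left _ u.mposZ.ne']

/-- the copy of `g` acting inside the cone `u` -/
noncomputable def emb (u : Cone) : Equiv.Perm ℤ →* Equiv.Perm ℤ :=
  Equiv.Perm.extendDomainHom u.eqv

theorem emb_ev (u : Cone) (g : Equiv.Perm ℤ) (z : ℤ) : emb u g (u.ev z) = u.ev (g z) :=
  Equiv.Perm.extendDomain_apply_image g u.eqv z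

theorem emb_out (u : Cone) (g : Equiv.Perm ℤ) {n : ℤ} (h : ¬ u.In n) : emb u g n = n :=
  Equiv.Perm.extendDomain_apply_not_subtype g u.eqv h

theorem emb_in_iff (u : Cone) (g : Equiv.Perm ℤ) (n : ℤ) : u.In (emb u g n) ↔ u.In n := by
  by_cases h : u.In n
  · obtain ⟨z, rfl⟩ := Cone.in_iff.mp h
    rw [emb_ev]
    simp [ev_in]
  · rw [emb_out u g h]

theorem emb_Mp {u c d : Cone} {g : Equiv.Perm ℤ} (h : Mp g c d) :
    Mp (emb u g) (u.comp c) (u.comp d) := fun z => by
  rw [comp_ev, comp_ev, emb_ev, h]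

theorem emb_comp (u c : Cone) (g : Equiv.Perm ℤ) : emb u (emb c g) = emb (u.comp c) g := by
  ext n
  by_cases h : (u.comp c).In n
  · obtain ⟨z, rfl⟩ := Cone.in_iff.mp h
    rw [emb_ev, comp_ev, emb_ev, emb_ev, comp_ev]
  · rw [emb_out _ g h]
    by_cases h' : u.In n
    · obtain ⟨z, rfl⟩ := Cone.in_iff.mp h'
      rw [in_comp_iff] at h
      rw [emb_ev, emb_out _ g h]
    · rw [emb_out _ _ h']

theorem emb_conj {h : Equiv.Perm ℤ} {u u' : Cone} (hM : Mp h u u') (g : Equiv.Perm ℤ) :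
    h * emb u g * h⁻¹ = emb u' g := by
  ext n
  rw [Equiv.Perm.mul_apply, Equiv.Perm.mul_apply]
  by_cases hn : u'.In n
  · obtain ⟨z, rfl⟩ := Cone.in_iff.mp hn
    rw [hM.inv, emb_ev, emb_ev, hM]
  · rw [emb_out _ _ hn]
    have : ¬ u.In (h⁻¹ n) := by
      rw [hM.inv.in_iff]
      exact hn
    rw [emb_out _ _ this, pai]

theorem emb_T {S : Finset ℕ} {u : Cone} (hu : Sm S u.m) {g : Equiv.Perm ℤ} (hg : g ∈ T S) :
    emb u g ∈ T S := by
  obtain ⟨N, hN, hg⟩ := hg
  refine ⟨u.m * N, hu.mul hN, fun c hc hd => ?_⟩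
  by_cases h : u.In c.r
  · obtain ⟨e, rfl, hem⟩ := factor ((dvd_mul_right _ _).trans hd) h
    have he : N ∣ e.m := by
      rw [← hem] at hd
      exact Nat.dvd_of_mul_dvd_mul_left hu.pos hd
    obtain ⟨d, hds, hM⟩ := hg e (hc.dvd (by rw [comp_m]; exact dvd_mul_left _ _)) he
    exact ⟨u.comp d, by rw [comp_m]; exact hu.mul hds, emb_Mp hM⟩
  · refine ⟨c, hc, fun z => emb_out _ _ ?_⟩
    have := per_in (per_cone u dvd_rfl) (c := c) ((dvd_mul_right _ _).trans hd) (c.ev_in z)
    rw [mem_S, mem_S] at this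
    rw [this]
    exact h

theorem emb_comm {u u' : Cone} (hd : Disjoint u.S u'.S) (g g' : Equiv.Perm ℤ) :
    Commute (emb u g) (emb u' g') := by
  have hd1 : ∀ n, u.In n → ¬ u'.In n := fun n h h' => Set.disjoint_left.mp hd h h'
  ext n
  rw [Equiv.Perm.mul_apply, Equiv.Perm.mul_apply]
  by_cases h : u.In n
  · rw [emb_out u' g' (hd1 n h), emb_out u' g' (hd1 _ ((emb_in_iff u g n).mpr h))]
  · by_cases h' : u'.In n
    · have h'' : ¬ u.In (emb u' g' n) := fun hh => hd1 _ hh ((emb_in_iff u' g' n).mpr h')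
      rw [emb_out u g h'', emb_out u g h]
    · rw [emb_out u' g' h', emb_out u g h, emb_out u' g' h']

/-- elements fixing `2ℤ` pointwise live on `1 + 2ℤ` -/
theorem fix_u0 {S : Finset ℕ} (h2 : 2 ∈ S) {b : Equiv.Perm ℤ} (hb : b ∈ T S) (hM : Mp b u0 u0) :
    ∃ f : Equiv.Perm ℤ, f ∈ T S ∧ b = emb u1 f := by
  have hs2 : Sm S 2 := Sm.prime Nat.prime_two h2
  have hodd : ∀ n, u1.In (b n) ↔ u1.In n := by
    intro n
    have := hM.in_iff (n := n)
    rw [Sys.u0_in, Sys.u0_in] at this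
    rw [u1_in, u1_in]
    omega
  let f : Equiv.Perm ℤ := u1.eqv.trans ((b.subtypePerm (fun n => hodd n)).trans u1.eqv.symm)
  have hf : ∀ z, u1.ev (f z) = b (u1.ev z) := by
    intro z
    have : u1.eqv (f z) = (b.subtypePerm (fun n => hodd n)) (u1.eqv z) := by
      simp [f]
    have h3 := congrArg Subtype.val this
    exact h3
  refine ⟨f, ?_, ?_⟩
  · obtain ⟨N, hN, hb⟩ := hb
    refine ⟨N, hN, fun c hc hd => ?_⟩
    obtain ⟨d, hds, hMd⟩ := hb (u1.comp c) (by rw [comp_m]; exact hs2.mul hc)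
      (by rw [comp_m]; exact hd.mul_left _)
    have hin : ∀ z, u1.In (d.ev z) := by
      intro z
      rw [← hMd z, hodd, comp_ev]
      exact ev_in _ _
    have h0 := hin 0
    have h1 := hin 1
    rw [u1_in] at h0 h1
    unfold Cone.ev at h0 h1
    rw [mul_zero, add_zero] at h0
    rw [mul_one] at h1
    have hdm : u1.m ∣ d.m := by
      show 2 ∣ d.m
      omega
    obtain ⟨e, he, hem⟩ := factor hdm ((u1_in _).mpr h0)
    refine ⟨e, hds.dvd ⟨_, (by rw [mul_comm]; exact hem.symm)⟩, fun z => ?_⟩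
    apply u1.ev_inj
    rw [hf, ← comp_ev, hMd, he, comp_ev]
  · ext n
    by_cases h : u1.In n
    · obtain ⟨z, rfl⟩ := Cone.in_iff.mp h
      rw [emb_ev, hf]
    · rw [emb_out _ _ h]
      have : u0.In n := by
        rw [u1_in] at h
        rw [Sys.u0_in]
        omega
      obtain ⟨z, rfl⟩ := Cone.in_iff.mp this
      exact hM z

theorem Mp_proper {g : Equiv.Perm ℤ} {c d : Cone} (h : Mp g c d) (hc : 1 < c.m) : 1 < d.m := by
  by_contra hcon
  have h1 : d.m = 1 := le_antisymm (not_lt.mp hcon) d.mpos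
  have hall : ∀ n, d.In n := by
    intro n
    unfold Cone.In
    have := d.h
    rw [h1] at this ⊢
    have h0 : d.r = 0 := by omega
    rw [h0]
    simp
  have hx : ∀ n, c.In n := fun n => h.in_iff.mp (hall _)
  have h0 := hx 0
  have h1 := hx 1
  unfold Cone.In at h0 h1
  rw [Int.zero_emod] at h0
  rw [← h0] at h1
  have : (1 : ℤ) % (c.m : ℤ) = 1 := Int.emod_eq_of_lt (by norm_num) (by exact_mod_cast hc)
  rw [this] at h1
  exact one_ne_zero h1

theorem uni_sm {S : Finset ℕ} {L : ℕ} (hL : Sm S L) (i : Fin L) : Sm S (uni L i).m := hL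

theorem exists_two {n : ℕ} (a b x y : Fin n) (hab : a ≠ b) (hxy : x ≠ y) :
    ∃ σ : Equiv.Perm (Fin n), σ a = x ∧ σ b = y := by
  refine ⟨Equiv.swap (Equiv.swap a x b) y * Equiv.swap a x, ?_, ?_⟩
  · rw [Equiv.Perm.mul_apply, Equiv.swap_apply_left]
    apply Equiv.swap_apply_of_ne_of_ne
    · intro h
      have h1 : Equiv.swap a x a = x := Equiv.swap_apply_left _ _
      rw [← h1] at h
      exact hab ((Equiv.swap a x).injective (by rw [h]; exact (by simp)))
    · exact hxy
  · rw [Equiv.Perm.mul_apply, Equiv.swap_apply_left]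

/-- transitivity on pairs -/
theorem trans_pair {S : Finset ℕ} (h2 : 2 ∈ S) {L : ℕ} (h3 : 3 ≤ L) (hL : Sm S L) (x y : Fin L)
    (hxy : x ≠ y) : ∃ b : T S, Mp b u0 (uni L x) ∧ Mp b (u1.comp u0) (uni L y) := by
  obtain ⟨k, rfl⟩ : ∃ k, L = k + 3 := ⟨L - 3, by omega⟩
  obtain ⟨σ, h0, h1⟩ := exists_two (⟨0, by omega⟩ : Fin (k + 3)) ⟨1, by omega⟩ x y (by simp) hxy
  obtain ⟨g, hg⟩ := exists_perm (cb_part (k + 2)) ((uni_part (k + 3) (by omega)).comp_equiv σ)
  refine ⟨⟨g, ?_⟩, ?_, ?_⟩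
  · exact T_of_cover _ _ (fun i => cb_sm h2 _ i) (fun i => hL) (fun n => (cb_part _ n).exists) hg
  · have := hg ⟨0, by omega⟩
    simp only [Function.comp_apply] at this
    rw [h0] at this
    exact this
  · have := hg ⟨1, by omega⟩
    simp only [Function.comp_apply] at this
    rw [h1] at this
    exact this

theorem trans_one {S : Finset ℕ} (h2 : 2 ∈ S) (u : Cone) (hu : Sm S u.m) (h1 : 1 < u.m) :
    ∃ b : T S, Mp b u0 u := by
  obtain ⟨r, m, h⟩ := u
  simp only at hu h1
  obtain ⟨k, rfl⟩ : ∃ k, m = k + 2 := ⟨m - 2, by omega⟩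
  obtain ⟨g, hg⟩ := exists_perm (cb_part (k + 1)) ((uni_part (k + 2) (by omega)).comp_equiv
    (Equiv.swap (⟨0, by omega⟩ : Fin (k + 2)) ⟨r, h⟩))
  refine ⟨⟨g, ?_⟩, ?_⟩
  · exact T_of_cover _ _ (fun i => cb_sm h2 _ i) (fun i => hu) (fun n => (cb_part _ n).exists) hg
  · have := hg ⟨0, by omega⟩
    simp only [Function.comp_apply, Equiv.swap_apply_left] at this
    exact this

/-- the data of `ω_p` -/
structure Om (p : ℕ) where
  b : Fin p → Cone
  part : IsPart b
  sm : ∀ S : Finset ℕ, 2 ∈ S → ∀ i, Sm S (b i).m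
  om : Equiv.Perm ℤ
  mp : ∀ i, Mp om (uni p i) (b i)

theorem Om.exists (p : ℕ) (hp : 0 < p) : Nonempty (Om p) := by
  obtain ⟨k, rfl⟩ : ∃ k, p = k + 1 := ⟨p - 1, by omega⟩
  obtain ⟨g, hg⟩ := exists_perm (uni_part (k + 1) (by omega)) (cb_part k)
  exact ⟨⟨cb k, cb_part k, fun S h2 i => cb_sm h2 k i, g, hg⟩⟩

/-- a product of permutations supported on disjoint cones -/
theorem prod_disj {α : Type*} (l : List α) (hl : l.Nodup) (c : α → Cone) (g : α → Equiv.Perm ℤ)
    (hc : ∀ a ∈ l, ∀ b ∈ l, ∀ n, (c a).In n → (c b).In n → a = b) (n : ℤ) :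
    (∀ a ∈ l, (c a).In n → (l.map (fun a => emb (c a) (g a))).prod n = emb (c a) (g a) n) ∧
    ((∀ a ∈ l, ¬ (c a).In n) → (l.map (fun a => emb (c a) (g a))).prod n = n) := by
  induction l with
  | nil => simp
  | cons x l ih =>
    rw [List.nodup_cons] at hl
    obtain ⟨ih1, ih2⟩ := ih hl.2 (fun a ha b hb => hc a (by simp [ha]) b (by simp [hb]))
    constructor
    · intro a ha hn
      rw [List.map_cons, List.prod_cons, Equiv.Perm.mul_apply]
      by_cases hax : a = x
      · subst hax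
        rw [ih2]
        intro b hb hbn
        have := hc a (by simp) b (by simp [hb]) n hn hbn
        subst this
        exact hl.1 hb
      · have hal : a ∈ l := by
          rcases List.mem_cons.mp ha with h | h
          · exact absurd h hax
          · exact h
        rw [ih1 a hal hn]
        apply emb_out
        intro hx
        have h2 : (c a).In (emb (c a) (g a) n) := (emb_in_iff _ _ _).mpr hn
        exact hax (hc a (by simp [hal]) x (by simp) _ h2 hx)
    · intro h
      rw [List.map_cons, List.prod_cons, Equiv.Perm.mul_apply, ih2 (fun a ha => h a (by simp [ha]))]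
      exact emb_out _ _ (h x (by simp))

/-- the correction term in the splitting relation -/
theorem nu_T {S : Finset ℕ} (h2 : 2 ∈ S) {p : ℕ} (hp : 0 < p) (O : Om p) {r : ℕ} (hr : Sm S r) :
    O.om * ((List.finRange r).map (fun j => emb (uni r j) O.om)).prod⁻¹ ∈ T S := by
  have hrpos := hr.pos
  have key : ∀ (x : Fin r × Fin p), ∃ d : Cone, Sm S d.m ∧
      Mp (O.om * ((List.finRange r).map (fun j => emb (uni r j) O.om)).prod⁻¹)
        ((uni r x.1).comp (O.b x.2)) d := by
    rintro ⟨j, i⟩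
    have h1 : Mp ((List.finRange r).map (fun j => emb (uni r j) O.om)).prod
        ((uni r j).comp (uni p i)) ((uni r j).comp (O.b i)) := by
      intro z
      have h3 := (prod_disj (List.finRange r) (List.nodup_finRange r) (uni r) (fun _ => O.om)
        (fun a _ b _ n ha hb => (uni_part r hrpos n).unique ha hb)
        (((uni r j).comp (uni p i)).ev z)).1 j (List.mem_finRange _)
        (by rw [comp_ev]; exact ev_in _ _)
      rw [h3]
      exact emb_Mp (O.mp i) z
    -- decompose modulo `p`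
    obtain ⟨c', e, hc', hce, hme⟩ := coarsen (d := (uni r j).comp (uni p i)) hp
      (by rw [comp_m]; exact dvd_mul_left _ _)
    obtain ⟨cr, cm, ch⟩ := c'
    simp only at hc' hme
    subst hc'
    have hem : e.m = r := by
      rw [comp_m] at hme
      have h4 : (uni r j).m * (uni cm i).m = cm * r := by simp only [uni]; ring
      rw [h4] at hme
      exact Nat.eq_of_mul_eq_mul_left hp hme
    refine ⟨(O.b ⟨cr, ch⟩).comp e, ?_, ?_⟩
    · rw [comp_m, hem]
      exact (O.sm S h2 _).mul hr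
    · refine Mp.mul h1.inv ?_
      rw [hce]
      exact (O.mp ⟨cr, ch⟩).sub e
  choose D hD1 hD2 using key
  refine T_of_cover (fun x : Fin r × Fin p => (uni r x.1).comp (O.b x.2)) D ?_ hD1 ?_ hD2
  · intro x
    rw [comp_m]
    exact hr.mul (O.sm S h2 _)
  · intro n
    obtain ⟨j, hj, _⟩ := uni_part r hrpos n
    obtain ⟨z, rfl⟩ := Cone.in_iff.mp hj
    obtain ⟨i, hi, _⟩ := O.part z
    exact ⟨(j, i), in_comp_iff.mpr hi⟩

theorem drop_in {S : Finset ℕ} (h2 : 2 ∈ S) {p : ℕ} (hp : p.Prime) (hpS : p ∉ S) (O : Om p)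
    (u : Cone) (hu : Sm S u.m) (n : ℤ) (hn : u.In n) : Dr p (emb u O.om) n (-1) := by
  have : Fact p.Prime := ⟨hp⟩
  obtain ⟨z, rfl⟩ := Cone.in_iff.mp hn
  obtain ⟨i, hi, _⟩ := uni_part p hp.pos z
  have h1 : Mp (emb u O.om) (u.comp (uni p i)) (u.comp (O.b i)) := emb_Mp (O.mp i)
  have h2 := Dr.of_Mp (p := p) h1 (n := u.ev z) (in_comp_iff.mpr hi)
  rw [comp_m, comp_m, padicValNat.mul hu.1 (O.b i).mpos.ne', padicValNat.mul hu.1 (uni p i).mpos.ne',
    padic_Sm hpS (O.sm S ‹_› i), padic_Sm hpS hu] at h2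
  have h3 : padicValNat p (uni p i).m = 1 := by
    show padicValNat p p = 1
    exact padicValNat_self
  rw [h3] at h2
  simpa using h2

theorem drop_out {S : Finset ℕ} {p : ℕ} (O : Om p)
    (u : Cone) (hu : Sm S u.m) (n : ℤ) (hn : ¬ u.In n) :
    emb u O.om n = n ∧ Dr p (emb u O.om) n 0 := by
  refine ⟨emb_out _ _ hn, ?_⟩
  obtain ⟨c, hc, hin⟩ := exists_cls n hu.pos
  have : Mp (emb u O.om) c c := by
    intro z
    apply emb_out
    have h1 := per_in (per_cone u dvd_rfl) (c := c) (by rw [hc]) (c.ev_in z)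
    have h2 := per_in (per_cone u dvd_rfl) (c := c) (by rw [hc]) hin
    rw [mem_S, mem_S] at h1 h2
    rw [h1, ← h2]
    exact hn
  have h3 := Dr.of_Mp (p := p) this hin
  simpa using h3

end Pool.Agent.U640.CT
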