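import Pool.Agent.U640.CT.A4

set_option autoImplicit false

namespace Pool.Agent.U640.CT

open Cone

theorem u0_sm {S : Finset ℕ} (h2 : 2 ∈ S) : Sm S u0.m := Sm.prime Nat.prime_two h2
theorem u1_sm {S : Finset ℕ} (h2 : 2 ∈ S) : Sm S u1.m := Sm.prime Nat.prime_two h2
theorem u0_one : 1 < u0.m := by show 1 < 2; norm_num
theorem u1_one : 1 < u1.m := by show 1 < 2; norm_num

theorem u01_disj : Disjoint u0.S u1.S := by
  rw [Set.disjoint_left]
  intro n hn hn'
  rw [mem_S] at hn hn'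
  rw [Sys.u0_in] at hn
  rw [u1_in] at hn'
  omega

/-- `emb` restricted to `T S` -/
noncomputable def embT {S : Finset ℕ} (u : Cone) (hu : Sm S u.m) : T S →* T S where
  toFun f := ⟨emb u f.1, emb_T hu f.2⟩
  map_one' := by ext1; simp
  map_mul' f g := by ext1; simp

open Classical in
/-- a chosen element of `T S` carrying `u0` to `u` -/
noncomputable def hh {S : Finset ℕ} (h2 : 2 ∈ S) (u : Cone) : T S :=
  if H : Sm S u.m ∧ 1 < u.m then (trans_one h2 u H.1 H.2).choose else 1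

theorem hh_spec {S : Finset ℕ} (h2 : 2 ∈ S) (u : Cone) (hu : Sm S u.m) (h1 : 1 < u.m) :
    Mp (hh h2 u : T S) u0 u := by
  unfold hh
  rw [dif_pos ⟨hu, h1⟩]
  exact (trans_one h2 u hu h1).choose_spec

abbrev KK (S : Finset ℕ) := Monoid.Coprod (T S) (Multiplicative ℤ)

noncomputable def pK (S : Finset ℕ) {p : ℕ} (O : Om p) : KK S →* Equiv.Perm ℤ :=
  Monoid.Coprod.lift (T S).subtype (zpowersHom _ (emb u0 O.om))

def tauK (S : Finset ℕ) : KK S := Monoid.Coprod.inr (Multiplicative.ofAdd 1)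

def iK (S : Finset ℕ) : T S →* KK S := Monoid.Coprod.inl

theorem pK_i (S : Finset ℕ) {p : ℕ} (O : Om p) (b : T S) : pK S O (iK S b) = b := by
  simp [pK, iK]

theorem pK_tau (S : Finset ℕ) {p : ℕ} (O : Om p) : pK S O (tauK S) = emb u0 O.om := by
  simp [pK, tauK]

noncomputable def WK {S : Finset ℕ} (h2 : 2 ∈ S) (u : Cone) : KK S :=
  iK S (hh h2 u) * tauK S * (iK S (hh h2 u))⁻¹

theorem pK_W {S : Finset ℕ} (h2 : 2 ∈ S) {p : ℕ} (O : Om p) (u : Cone) (hu : Sm S u.m)
    (h1 : 1 < u.m) : pK S O (WK h2 u) = emb u O.om := by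
  unfold WK
  rw [map_mul, map_mul, map_inv, pK_i, pK_tau]
  exact emb_conj (hh_spec h2 u hu h1) _

/-- the correction element -/
noncomputable def vK {S : Finset ℕ} (h2 : 2 ∈ S) {p : ℕ} (hp : 0 < p) (O : Om p) {r : ℕ}
    (hr : Sm S r) : T S :=
  ⟨emb u0 (O.om * ((List.finRange r).map (fun j => emb (uni r j) O.om)).prod⁻¹),
    emb_T (u0_sm h2) (nu_T h2 hp O hr)⟩

theorem vK_spec {S : Finset ℕ} (h2 : 2 ∈ S) {p : ℕ} (hp : 0 < p) (O : Om p) {r : ℕ}
    (hr : Sm S r) : emb u0 O.om = (vK h2 hp O hr : Equiv.Perm ℤ) *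
      ((List.finRange r).map (fun j => emb (u0.comp (uni r j)) O.om)).prod := by
  have h1 : ((List.finRange r).map (fun j => emb (u0.comp (uni r j)) O.om)).prod =
      emb u0 ((List.finRange r).map (fun j => emb (uni r j) O.om)).prod := by
    rw [map_list_prod, List.map_map]
    congr 1
    apply List.map_congr_left
    intro x _
    simp only [Function.comp_apply, emb_comp]
  rw [h1]
  unfold vK
  rw [← map_mul, inv_mul_cancel_right]

open Classical in
/-- the relations -/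
noncomputable def relK {S : Finset ℕ} (h2 : 2 ∈ S) (hS : ∀ q ∈ S, q.Prime) {p : ℕ} (hp : 0 < p)
    (O : Om p) (X : Set (T S)) : Set (KK S) :=
  (fun x => tauK S * iK S (embT u1 (u1_sm h2) x) * (tauK S)⁻¹ *
    (iK S (embT u1 (u1_sm h2) x))⁻¹) '' X ∪
  Set.range (fun r : {r // r ∈ S} => (tauK S)⁻¹ *
    (iK S (vK h2 hp O (Sm.prime (hS r.1 r.2) r.2)) *
      ((List.finRange r.1).map (fun j => WK h2 (u0.comp (uni r.1 j)))).prod)) ∪
  {tauK S * WK h2 (u1.comp u0) * (tauK S)⁻¹ * (WK h2 (u1.comp u0))⁻¹}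

theorem relK_finite {S : Finset ℕ} (h2 : 2 ∈ S) (hS : ∀ q ∈ S, q.Prime) {p : ℕ} (hp : 0 < p)
    (O : Om p) {X : Set (T S)} (hX : X.Finite) : (relK h2 hS hp O X).Finite := by
  unfold relK
  exact ((hX.image _).union (Set.finite_range _)).union (Set.finite_singleton _)

theorem u0_comp_sm {S : Finset ℕ} (h2 : 2 ∈ S) {r : ℕ} (hr : Sm S r) (j : Fin r) :
    Sm S (u0.comp (uni r j)).m := by
  rw [comp_m]; exact (u0_sm h2).mul hr

theorem comp_one_lt {u c : Cone} (h : 1 < u.m) : 1 < (u.comp c).m := by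
  rw [comp_m]
  have := c.mpos
  nlinarith

theorem relK_ker {S : Finset ℕ} (h2 : 2 ∈ S) (hS : ∀ q ∈ S, q.Prime) {p : ℕ} (hp : 0 < p)
    (O : Om p) (X : Set (T S)) : relK h2 hS hp O X ⊆ (pK S O).ker := by
  intro k hk
  rw [SetLike.mem_coe, MonoidHom.mem_ker]
  rcases hk with (⟨x, _, rfl⟩ | ⟨r, rfl⟩) | hk
  · simp only [map_mul, map_inv, pK_tau, pK_i]
    have := emb_comm u01_disj O.om x.1
    have h3 : ((embT u1 (u1_sm h2) x : T S) : Equiv.Perm ℤ) = emb u1 x.1 := rfl
    rw [h3, this.eq]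
    group
  · simp only [map_mul, map_inv, pK_tau, pK_i]
    rw [map_list_prod, List.map_map]
    have h3 : ((List.finRange r.1).map (⇑(pK S O) ∘ fun j => WK h2 (u0.comp (uni r.1 j)))) =
        (List.finRange r.1).map (fun j => emb (u0.comp (uni r.1 j)) O.om) := by
      apply List.map_congr_left
      intro j _
      simp only [Function.comp_apply]
      exact pK_W h2 O _ (u0_comp_sm h2 (Sm.prime (hS r.1 r.2) r.2) j) (comp_one_lt u0_one)
    rw [h3, ← vK_spec]
    group
  · rw [Set.mem_singleton_iff] at hk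
    subst hk
    have hsm : Sm S (u1.comp u0).m := by rw [comp_m]; exact (u1_sm h2).mul (u0_sm h2)
    rw [map_mul, map_mul, map_mul, map_inv, map_inv, pK_tau,
      pK_W h2 O _ hsm (comp_one_lt u1_one)]
    have hd : Disjoint u0.S (u1.comp u0).S := by
      rw [Set.disjoint_left]
      intro n hn hn'
      exact Set.disjoint_left.mp u01_disj hn (in_of_comp hn')
    have := emb_comm hd O.om O.om
    rw [this.eq]
    group

theorem exists_fg {G : Type*} [Group G] [h : Group.IsFinitelyPresented G] :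
    ∃ X : Set G, X.Finite ∧ Subgroup.closure X = ⊤ := by
  obtain ⟨n, φ, hφ, _⟩ := h.out
  refine ⟨Set.range (fun i => φ (FreeGroup.of i)), Set.finite_range _, ?_⟩
  have h1 : Set.range (fun i => φ (FreeGroup.of i)) = φ '' Set.range FreeGroup.of := by
    rw [← Set.range_comp]; rfl
  rw [h1, ← MonoidHom.map_closure, FreeGroup.closure_range_of, ← MonoidHom.range_eq_map]
  exact MonoidHom.range_eq_top.mpr hφ

section build

variable {S : Finset ℕ} (h2 : 2 ∈ S) (hS : ∀ q ∈ S, q.Prime) {p : ℕ} (hp : p.Prime)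
  (hpS : p ∉ S) (O : Om p) {X : Set (T S)} (hX : Subgroup.closure X = ⊤)

abbrev HH (X : Set (T S)) := KK S ⧸ Subgroup.normalClosure (relK h2 hS hp.pos O X)

noncomputable def mkH (X : Set (T S)) : KK S →* HH h2 hS hp O X :=
  QuotientGroup.mk' (Subgroup.normalClosure (relK h2 hS hp.pos O X))

theorem mkH_rel (X : Set (T S)) {k : KK S} (hk : k ∈ relK h2 hS hp.pos O X) :
    mkH h2 hS hp O X k = 1 := by
  unfold mkH
  rw [← MonoidHom.mem_ker, QuotientGroup.ker_mk']
  exact Subgroup.subset_normalClosure hk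

include hX in
theorem H_comm (f : T S) :
    Commute (mkH h2 hS hp O X (tauK S)) (mkH h2 hS hp O X (iK S (embT u1 (u1_sm h2) f))) := by
  let F : T S →* HH h2 hS hp O X := (mkH h2 hS hp O X).comp ((iK S).comp (embT u1 (u1_sm h2)))
  have h1 : X ⊆ (Subgroup.comap F (Subgroup.centralizer {mkH h2 hS hp O X (tauK S)}) : Set (T S)) := by
    intro x hx
    rw [SetLike.mem_coe, Subgroup.mem_comap, Subgroup.mem_centralizer_singleton_iff]
    have h3 := mkH_rel h2 hS hp O X (k := tauK S * iK S (embT u1 (u1_sm h2) x) * (tauK S)⁻¹ *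
      (iK S (embT u1 (u1_sm h2) x))⁻¹) (Or.inl (Or.inl ⟨x, hx, rfl⟩))
    simp only [map_mul, map_inv] at h3
    rw [mul_inv_eq_one, mul_inv_eq_iff_eq_mul] at h3
    exact h3.symm
  have h2' : f ∈ Subgroup.closure X := by rw [hX]; exact Subgroup.mem_top _
  have h3 := (Subgroup.closure_le _).mpr h1 h2'
  rw [Subgroup.mem_comap, Subgroup.mem_centralizer_singleton_iff] at h3
  exact h3.symm

include hX in
theorem H_fix (g : T S) (hg : Mp g u0 u0) :
    Commute (mkH h2 hS hp O X (tauK S)) (mkH h2 hS hp O X (iK S g)) := by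
  obtain ⟨f, hf, hgf⟩ := fix_u0 h2 g.2 hg
  have := H_comm h2 hS hp O hX ⟨f, hf⟩
  have h3 : embT u1 (u1_sm h2) (⟨f, hf⟩ : T S) = g := Subtype.ext hgf.symm
  rw [h3] at this
  exact this

include hX in
theorem H_conj (b : T S) (u u' : Cone) (hu : Sm S u.m) (hu1 : 1 < u.m) (hu' : Sm S u'.m)
    (hM : Mp b u u') : mkH h2 hS hp O X (iK S b) * mkH h2 hS hp O X (WK h2 u) *
      (mkH h2 hS hp O X (iK S b))⁻¹ = mkH h2 hS hp O X (WK h2 u') := by
  have hu1' := Mp_proper hM hu1
  have hg : Mp ((hh h2 u')⁻¹ * b * hh h2 u : T S) u0 u0 := by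
    have e1 := hh_spec h2 u hu hu1
    have e2 := hh_spec h2 u' hu' hu1'
    have e3 := (e1.mul hM).mul e2.inv
    simp only [Subgroup.coe_mul, Subgroup.coe_inv]
    rw [mul_assoc]
    exact e3
  have hc := H_fix h2 hS hp O hX _ hg
  unfold WK
  simp only [map_mul, map_inv] at hc ⊢
  set t := mkH h2 hS hp O X (tauK S)
  set B := mkH h2 hS hp O X (iK S b)
  set A := mkH h2 hS hp O X (iK S (hh h2 u))
  set A' := mkH h2 hS hp O X (iK S (hh h2 u'))
  have hc' := hc.eq
  calc B * (A * t * A⁻¹) * B⁻¹ = A' * ((A'⁻¹ * B * A) * t) * A⁻¹ * B⁻¹ := by group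
    _ = A' * (t * (A'⁻¹ * B * A)) * A⁻¹ * B⁻¹ := by rw [hc']
    _ = _ := by group

include hX in
theorem H_W0 : mkH h2 hS hp O X (WK h2 u0) = mkH h2 hS hp O X (tauK S) := by
  have := H_fix h2 hS hp O hX _ (hh_spec h2 u0 (u0_sm h2) u0_one)
  unfold WK
  simp only [map_mul, map_inv]
  rw [mul_inv_eq_iff_eq_mul]
  exact this.eq.symm

noncomputable def qH (X : Set (T S)) : HH h2 hS hp O X →* Equiv.Perm ℤ :=
  QuotientGroup.lift _ (pK S O) (fun _ hx =>
    (Subgroup.normalClosure_le_normal (relK_ker h2 hS hp.pos O X)) hx)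

theorem qH_mk (X : Set (T S)) (k : KK S) : qH h2 hS hp O X (mkH h2 hS hp O X k) = pK S O k := rfl

noncomputable def theSys : Sys S p (HH h2 hS hp O X) where
  i := (mkH h2 hS hp O X).comp (iK S)
  w u := mkH h2 hS hp O X (WK h2 u)
  q := qH h2 hS hp O X
  two := h2
  pS := hpS
  prime := hp
  qi b := by
    rw [MonoidHom.comp_apply, qH_mk, pK_i]
  conj b u u' hu hu1 hu' hM := H_conj h2 hS hp O hX b u u' hu hu1 hu' hM
  comm L h3 hL x y hxy := by
    obtain ⟨b, hb1, hb2⟩ := trans_pair h2 h3 hL x y hxy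
    have e1 := H_conj h2 hS hp O hX b u0 _ (u0_sm h2) u0_one (uni_sm hL x) hb1
    have hsm : Sm S (u1.comp u0).m := by rw [comp_m]; exact (u1_sm h2).mul (u0_sm h2)
    have e2 := H_conj h2 hS hp O hX b (u1.comp u0) _ hsm (comp_one_lt u1_one) (uni_sm hL y) hb2
    rw [← e1, ← e2, H_W0 h2 hS hp O hX]
    have h3 := mkH_rel h2 hS hp O X (k := tauK S * WK h2 (u1.comp u0) * (tauK S)⁻¹ *
      (WK h2 (u1.comp u0))⁻¹) (Or.inr rfl)
    simp only [map_mul, map_inv] at h3
    rw [mul_inv_eq_one, mul_inv_eq_iff_eq_mul] at h3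
    rw [Commute, SemiconjBy]
    set t := mkH h2 hS hp O X (tauK S)
    set B := mkH h2 hS hp O X (iK S b)
    set C := mkH h2 hS hp O X (WK h2 (u1.comp u0))
    calc B * t * B⁻¹ * (B * C * B⁻¹) = B * (t * C) * B⁻¹ := by group
      _ = B * (C * t) * B⁻¹ := by rw [h3]
      _ = _ := by group
  split r hr hrS u hu hu1 := by
    have hrsm : Sm S r := Sm.prime hr hrS
    set v := vK h2 hp.pos O hrsm with hv
    refine ⟨hh h2 u * v * (hh h2 u)⁻¹, ?_, ?_⟩
    · intro n hn
      simp only [Subgroup.coe_mul, Subgroup.coe_inv, Equiv.Perm.mul_apply]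
      have h3 : ¬ u0.In (((hh h2 u : T S) : Equiv.Perm ℤ)⁻¹ n) := by
        rw [(hh_spec h2 u hu hu1).inv.in_iff]
        exact hn
      have h4 : (v : Equiv.Perm ℤ) (((hh h2 u : T S) : Equiv.Perm ℤ)⁻¹ n) =
          ((hh h2 u : T S) : Equiv.Perm ℤ)⁻¹ n := emb_out _ _ h3
      rw [h4, pai]
    · have e1 := H_conj h2 hS hp O hX (hh h2 u) u0 u (u0_sm h2) u0_one hu (hh_spec h2 u hu hu1)
      have h3 := mkH_rel h2 hS hp O X (k := (tauK S)⁻¹ *
        (iK S (vK h2 hp.pos O (Sm.prime (hS r hrS) hrS)) *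
        ((List.finRange r).map (fun j => WK h2 (u0.comp (uni r j)))).prod))
        (Or.inl (Or.inr ⟨⟨r, hrS⟩, rfl⟩))
      rw [map_mul, map_inv, inv_mul_eq_one, map_mul] at h3
      rw [← e1, H_W0 h2 hS hp O hX, h3]
      rw [map_list_prod, List.map_map]
      have h5 : (List.finRange r).map (fun j => mkH h2 hS hp O X (WK h2 (u.comp (uni r j)))) =
          ((List.finRange r).map (⇑(mkH h2 hS hp O X) ∘ fun j => WK h2 (u0.comp (uni r j)))).map
            (MulAut.conj (mkH h2 hS hp O X (iK S (hh h2 u)))) := by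
        rw [List.map_map]
        apply List.map_congr_left
        intro j _
        simp only [Function.comp_apply, MulAut.conj_apply]
        exact (H_conj h2 hS hp O hX (hh h2 u) _ _ (u0_comp_sm h2 hrsm j) (comp_one_lt u0_one)
          (by rw [comp_m]; exact hu.mul hrsm) ((hh_spec h2 u hu hu1).sub (uni r j))).symm
      rw [h5, ← map_list_prod, MulAut.conj_apply]
      simp only [map_mul, map_inv, MonoidHom.comp_apply, hv]
      group
  qw_in u hu hu1 n hn := by
    rw [qH_mk, pK_W h2 O u hu hu1]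
    exact drop_in h2 hp hpS O u hu n hn
  qw_out u hu hu1 n hn := by
    rw [qH_mk, pK_W h2 O u hu hu1]
    exact drop_out O u hu n hn
  trans u hu hu1 := trans_one h2 u hu hu1
  gen := by
    rw [eq_top_iff]
    rintro x -
    obtain ⟨k, rfl⟩ := QuotientGroup.mk'_surjective _ x
    have hw0 := H_W0 h2 hS hp O hX
    show mkH h2 hS hp O X k ∈ Subgroup.closure _
    induction k using Monoid.Coprod.induction_on with
    | inl b => exact Subgroup.subset_closure (Or.inl ⟨b, rfl⟩)
    | inr m =>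
      have e1 : (Monoid.Coprod.inr m : KK S) = tauK S ^ (Multiplicative.toAdd m) := by
        unfold tauK
        rw [← map_zpow]
        congr 1
        ext
        simp
      rw [e1, map_zpow]
      apply Subgroup.zpow_mem
      rw [← hw0]
      exact Subgroup.subset_closure (Or.inr rfl)
    | mul x y hx hy =>
      rw [map_mul]
      exact mul_mem hx hy

end build

/-- finite presentability passes from `T S` to `⟨T S, w⟩` -/
theorem ext_fp {S : Finset ℕ} (h2 : 2 ∈ S) (hS : ∀ q ∈ S, q.Prime) {p : ℕ} (hp : p.Prime)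
    (hpS : p ∉ S) (O : Om p) (hfp : Group.IsFinitelyPresented (T S)) :
    Group.IsFinitelyPresented
      (Subgroup.closure ((T S : Set (Equiv.Perm ℤ)) ∪ {emb u0 O.om})) := by
  obtain ⟨X, hXf, hX⟩ := exists_fg (G := T S)
  let s := theSys h2 hS hp hpS O hX
  have hH : Group.IsFinitelyPresented (HH h2 hS hp O X) := by
    have := relK_finite h2 hS hp.pos O hXf
    exact Group.IsFinitelyPresented.quotient _ ⟨_, this, rfl⟩
  have hrange : (qH h2 hS hp O X).range = Subgroup.closure ((T S : Set (Equiv.Perm ℤ)) ∪ {emb u0 O.om}) := by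
    have hg := s.gen
    rw [MonoidHom.range_eq_map, ← hg, MonoidHom.map_closure, Set.image_union]
    congr 1
    congr 1
    · ext x
      simp only [Set.mem_image, Set.mem_range, SetLike.mem_coe]
      constructor
      · rintro ⟨_, ⟨b, rfl⟩, rfl⟩
        have := s.qi b
        have h3 : (qH h2 hS hp O X) (s.i b) = b := this
        rw [h3]
        exact b.2
      · intro hx
        exact ⟨_, ⟨⟨x, hx⟩, rfl⟩, s.qi ⟨x, hx⟩⟩
    · rw [Set.image_singleton]
      congr 1
      exact pK_W h2 O u0 (u0_sm h2) u0_one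
  rw [← hrange]
  exact Group.IsFinitelyPresented.equiv (MonoidHom.ofInjective s.inj)

end Pool.Agent.U640.CT
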