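import Pool.Agent.U640.CT.A5

set_option autoImplicit false

namespace Pool.Agent.U640.CT

open Cone

theorem om_T {S : Finset ℕ} (h2 : 2 ∈ S) {p : ℕ} (hp : p.Prime) (hpS : p ∈ S) (O : Om p) :
    O.om ∈ T S :=
  T_of_cover (uni p) O.b (fun i => Sm.prime hp hpS) (fun i => O.sm S h2 i)
    (fun n => (uni_part p hp.pos n).exists) O.mp

section gen

variable {S : Finset ℕ} (h2 : 2 ∈ S) {p : ℕ} (hp : p.Prime) (hpS : p ∉ S) (O : Om p)

/-- the subgroup generated by `T S` and `w` -/
noncomputable def GG (S : Finset ℕ) {p : ℕ} (O : Om p) : Subgroup (Equiv.Perm ℤ) :=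
  Subgroup.closure ((T S : Set (Equiv.Perm ℤ)) ∪ {emb u0 O.om})

theorem T_le_GG : T S ≤ GG S O := fun _ hx => Subgroup.subset_closure (Or.inl hx)

include h2 in
theorem emb_GG (u : Cone) (hu : Sm S u.m) (h1 : 1 < u.m) : emb u O.om ∈ GG S O := by
  obtain ⟨b, hb⟩ := trans_one h2 u hu h1
  rw [← emb_conj hb]
  exact mul_mem (mul_mem (T_le_GG O b.2) (Subgroup.subset_closure (Or.inr rfl)))
    (inv_mem (T_le_GG O b.2))

include h2 hp in
theorem om_GG : O.om ∈ GG S O := by
  have h := nu_T h2 hp.pos O (Sm.prime (S := S) Nat.prime_two h2)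
  have h3 : ((List.finRange 2).map (fun j => emb (uni 2 j) O.om)).prod ∈ GG S O := by
    apply Subgroup.list_prod_mem
    intro x hx
    rw [List.mem_map] at hx
    obtain ⟨j, _, rfl⟩ := hx
    exact emb_GG h2 O _ (Sm.prime (S := S) Nat.prime_two h2) (by show 1 < 2; norm_num)
  have h4 := mul_mem (T_le_GG O h) h3
  rwa [inv_mul_cancel_right] at h4

/-- a common multiple of the moduli of the `b i` -/
def Om.K {p : ℕ} (O : Om p) : ℕ := ∏ i, (O.b i).m

theorem Om.K_dvd {p : ℕ} (O : Om p) (i : Fin p) : (O.b i).m ∣ O.K :=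
  Finset.dvd_prod_of_mem (fun r => (O.b r).m) (Finset.mem_univ _)

include h2 in
theorem K_sm : Sm S O.K := Sm.prod _ _ fun i _ => O.sm S h2 i

/-- a cone with modulus divisible by `K` factors through some `b i` -/
theorem Om.fac {p : ℕ} (O : Om p) (c : Cone) {M : ℕ} (h : O.K * M ∣ c.m) (hM : 0 < O.K) :
    ∃ i e, c = (O.b i).comp e ∧ (O.b i).m * e.m = c.m ∧ M ∣ e.m := by
  obtain ⟨i, hi, _⟩ := O.part c.r
  obtain ⟨e, he, hem⟩ := factor (((O.K_dvd i).trans (dvd_mul_right _ M)).trans h) hi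
  refine ⟨i, e, he, hem, ?_⟩
  obtain ⟨k, hk⟩ := O.K_dvd i
  rw [← hem, hk, mul_assoc] at h
  have := Nat.dvd_of_mul_dvd_mul_left (O.b i).mpos h
  exact (dvd_mul_left _ _).trans this

theorem K_pos : 0 < O.K := Finset.prod_pos fun i _ => (O.b i).mpos

/-- a cone with modulus divisible by `p` factors through some class mod `p`, and is moved by `om` -/
theorem Om.fac' {p : ℕ} (hp : 0 < p) (O : Om p) (c : Cone) (h : p ∣ c.m) :
    ∃ i e, c = (uni p i).comp e ∧ p * e.m = c.m ∧ Mp O.om c ((O.b i).comp e) := by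
  obtain ⟨c', e, hc', he, hem⟩ := coarsen hp h
  obtain ⟨cr, cm, ch⟩ := c'
  simp only at hc' hem
  subst hc'
  refine ⟨⟨cr, ch⟩, e, he, hem, ?_⟩
  rw [he]
  exact (O.mp ⟨cr, ch⟩).sub e

theorem Sm_of_insert {m : ℕ} (h : Sm (insert p S) m) (h0 : padicValNat p m = 0) (hp : p.Prime) :
    Sm S m := by
  have : Fact p.Prime := ⟨hp⟩
  refine ⟨h.1, fun q hq hqm => ?_⟩
  rcases Finset.mem_insert.mp (h.2 q hq hqm) with rfl | h'
  · exact absurd (one_le_padicValNat_of_dvd h.1 hqm) (by omega)
  · exact h'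

include h2 hp hpS in
theorem claimB : ∀ (b : ℕ) (g : Equiv.Perm ℤ), (∃ N, Sm S N ∧ ∀ c : Cone, Sm S c.m → N ∣ c.m →
    ∃ d : Cone, Sm (insert p S) d.m ∧ padicValNat p d.m ≤ b ∧ Mp g c d) → g ∈ GG S O := by
  have : Fact p.Prime := ⟨hp⟩
  intro b
  induction b with
  | zero =>
    rintro g ⟨N, hN, hg⟩
    apply T_le_GG O
    refine ⟨N, hN, fun c hc hd => ?_⟩
    obtain ⟨d, hd1, hd2, hM⟩ := hg c hc hd
    exact ⟨d, Sm_of_insert hd1 (by omega) hp, hM⟩
  | succ b ih =>
    rintro g ⟨N0, hN0, hg⟩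
    -- make the modulus even
    obtain ⟨N, hN, hN2, hg⟩ : ∃ N, Sm S N ∧ 1 < N ∧ ∀ c : Cone, Sm S c.m → N ∣ c.m →
        ∃ d : Cone, Sm (insert p S) d.m ∧ padicValNat p d.m ≤ b + 1 ∧ Mp g c d :=
      ⟨2 * N0, (Sm.prime Nat.prime_two h2).mul hN0, by have := hN0.pos; omega,
        fun c hc hd => hg c hc ((dvd_mul_left _ _).trans hd)⟩
    have hg' : ∀ r : Fin N, ∃ d : Cone, Sm (insert p S) d.m ∧ padicValNat p d.m ≤ b + 1 ∧
        Mp g (uni N r) d := fun r => hg _ hN dvd_rfl
    choose D hD1 hD2 hD3 using hg'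
    classical
    set l := (List.finRange N).filter (fun r => decide (padicValNat p (D r).m = 0)) with hl
    set W := (l.map (fun r => emb (uni N r) O.om)).prod with hW
    have hWG : W ∈ GG S O := by
      apply Subgroup.list_prod_mem
      intro x hx
      rw [List.mem_map] at hx
      obtain ⟨j, _, rfl⟩ := hx
      exact emb_GG h2 O _ hN hN2
    have hlmem : ∀ r, r ∈ l ↔ padicValNat p (D r).m = 0 := by
      intro r
      rw [hl, List.mem_filter]
      simp [List.mem_finRange]
    have hdisj := prod_disj l ((List.nodup_finRange N).filter _) (uni N) (fun _ => O.om)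
      (fun a _ b _ n ha hb => (uni_part N hN.pos n).unique ha hb)
    have key : O.om * g * W⁻¹ ∈ GG S O := by
      apply ih
      refine ⟨N * O.K, hN.mul (K_sm h2 O), fun c hc hd => ?_⟩
      obtain ⟨c', e, hc', hce, hme⟩ := coarsen hN.pos ((dvd_mul_right _ _).trans hd)
      obtain ⟨cr, cm, ch⟩ := c'
      simp only at hc' hme
      subst hc'
      have hes : Sm S e.m := hc.dvd ⟨_, (by rw [mul_comm]; exact hme.symm)⟩
      have hKe : O.K ∣ e.m := by
        rw [← hme] at hd
        exact Nat.dvd_of_mul_dvd_mul_left hN.pos hd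
      by_cases h0 : padicValNat p (D ⟨cr, ch⟩).m = 0
      · -- inside
        obtain ⟨i, e', he', hem', _⟩ := O.fac (M := 1) e (by rw [mul_one]; exact hKe) (K_pos O)
        have hes' : Sm S e'.m := hes.dvd ⟨_, (by rw [mul_comm]; exact hem'.symm)⟩
        have hW1 : Mp W ((uni cm ⟨cr, ch⟩).comp (uni p i)) ((uni cm ⟨cr, ch⟩).comp (O.b i)) := by
          intro z
          rw [hW, (hdisj _).1 ⟨cr, ch⟩ ((hlmem _).mpr h0) (by rw [comp_ev]; exact ev_in _ _)]
          exact emb_Mp (O.mp i) z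
        have hW2 : Mp W⁻¹ c ((uni cm ⟨cr, ch⟩).comp ((uni p i).comp e')) := by
          have := hW1.inv.sub e'
          rw [comp_assoc, comp_assoc] at this
          rw [hce, he']
          exact this
        have hG : Mp g ((uni cm ⟨cr, ch⟩).comp ((uni p i).comp e'))
            ((D ⟨cr, ch⟩).comp ((uni p i).comp e')) := (hD3 ⟨cr, ch⟩).sub _
        obtain ⟨i2, e2, he2, hem2, hM2⟩ := Om.fac' hp.pos O
          ((D ⟨cr, ch⟩).comp ((uni p i).comp e')) (by
            rw [comp_m, comp_m]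
            exact ((dvd_mul_right p e'.m).mul_left _))
        have he2m : e2.m = (D ⟨cr, ch⟩).m * e'.m := by
          rw [comp_m, comp_m] at hem2
          have h4 : (D ⟨cr, ch⟩).m * ((uni p i).m * e'.m) = p * ((D ⟨cr, ch⟩).m * e'.m) := by
            simp only [uni]; ring
          rw [h4] at hem2
          exact Nat.eq_of_mul_eq_mul_left hp.pos hem2
        have he2s : Sm (insert p S) e2.m := by
          rw [he2m]
          exact (hD1 _).mul (hes'.mono (Finset.subset_insert _ _))
        refine ⟨(O.b i2).comp e2, ?_, ?_, ?_⟩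
        · rw [comp_m]
          exact (O.sm _ (Finset.mem_insert_of_mem h2) _).mul he2s
        · rw [comp_m, padicValNat.mul (O.b i2).mpos.ne' e2.mpos.ne', he2m,
            padicValNat.mul (D ⟨cr, ch⟩).mpos.ne' e'.mpos.ne', h0, padic_Sm hpS hes',
            padic_Sm hpS (O.sm S h2 i2)]
          omega
        · exact (hW2.mul hG).mul hM2
      · -- outside
        have hW1 : Mp W c c := by
          intro z
          rw [hW]
          apply (hdisj _).2
          intro a ha hin
          have h5 : (uni cm ⟨cr, ch⟩).In (c.ev z) := by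
            rw [hce, comp_ev]; exact ev_in _ _
          have := (uni_part cm hN.pos _).unique hin h5
          rw [this, hlmem] at ha
          exact h0 ha
        have hG : Mp g c ((D ⟨cr, ch⟩).comp e) := by
          rw [hce]
          exact (hD3 ⟨cr, ch⟩).sub _
        have hpd : p ∣ (D ⟨cr, ch⟩).m := dvd_of_one_le_padicValNat (by omega)
        obtain ⟨i2, e2, he2, hem2, hM2⟩ := Om.fac' hp.pos O
          ((D ⟨cr, ch⟩).comp e) (by
            rw [comp_m]
            exact hpd.mul_right _)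
        have hs : Sm (insert p S) ((D ⟨cr, ch⟩).comp e).m := by
          rw [comp_m]
          exact (hD1 _).mul (hes.mono (Finset.subset_insert _ _))
        refine ⟨(O.b i2).comp e2, ?_, ?_, ?_⟩
        · rw [comp_m]
          exact (O.sm _ (Finset.mem_insert_of_mem h2) _).mul
            (hs.dvd ⟨_, (by rw [mul_comm]; exact hem2.symm)⟩)
        · have h6 := congrArg (padicValNat p) hem2
          rw [comp_m, padicValNat.mul hp.ne_zero e2.mpos.ne', padicValNat_self,
            padicValNat.mul (D ⟨cr, ch⟩).mpos.ne' e.mpos.ne', padic_Sm hpS hes] at h6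
          rw [comp_m, padicValNat.mul (O.b i2).mpos.ne' e2.mpos.ne', padic_Sm hpS (O.sm S h2 i2)]
          have := hD2 ⟨cr, ch⟩
          omega
        · exact (hW1.inv.mul hG).mul hM2
    have hom := om_GG h2 hp O
    have h7 : g = O.om⁻¹ * (O.om * g * W⁻¹) * W := by group
    rw [h7]
    exact mul_mem (mul_mem (inv_mem hom) key) hWG

include h2 hp hpS in
theorem claimA : ∀ (a : ℕ) (g : Equiv.Perm ℤ), (∃ N, Sm S N ∧ ∀ c : Cone, Sm (insert p S) c.m →
    N * p ^ a ∣ c.m → ∃ d : Cone, Sm (insert p S) d.m ∧ Mp g c d) → g ∈ GG S O := by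
  have : Fact p.Prime := ⟨hp⟩
  intro a
  induction a with
  | zero =>
    rintro g ⟨N, hN, hg⟩
    have hg' : ∀ r : Fin N, ∃ d : Cone, Sm (insert p S) d.m ∧ Mp g (uni N r) d := fun r =>
      hg _ (hN.mono (Finset.subset_insert _ _)) (by simp [uni])
    choose D hD1 hD2 using hg'
    apply claimB h2 hp hpS O (∑ r, padicValNat p (D r).m)
    refine ⟨N, hN, fun c hc hd => ?_⟩
    obtain ⟨c', e, hc', hce, hme⟩ := coarsen hN.pos hd
    obtain ⟨cr, cm, ch⟩ := c'
    simp only at hc' hme
    subst hc'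
    have hes : Sm S e.m := hc.dvd ⟨_, (by rw [mul_comm]; exact hme.symm)⟩
    refine ⟨(D ⟨cr, ch⟩).comp e, ?_, ?_, ?_⟩
    · rw [comp_m]
      exact (hD1 _).mul (hes.mono (Finset.subset_insert _ _))
    · rw [comp_m, padicValNat.mul (D ⟨cr, ch⟩).mpos.ne' e.mpos.ne', padic_Sm hpS hes, add_zero]
      exact Finset.single_le_sum (f := fun r => padicValNat p (D r).m) (fun _ _ => Nat.zero_le _)
        (Finset.mem_univ _)
    · rw [hce]
      exact (hD2 ⟨cr, ch⟩).sub e
  | succ a ih =>
    rintro g ⟨N, hN, hg⟩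
    have key : g * O.om⁻¹ ∈ GG S O := by
      apply ih
      refine ⟨O.K * N, (K_sm h2 O).mul hN, fun c hc hd => ?_⟩
      obtain ⟨i, e, hce, hem, hMe⟩ := O.fac (M := N * p ^ a) c (by rw [← mul_assoc]; exact hd)
        (K_pos O)
      have hes : Sm (insert p S) e.m := hc.dvd ⟨_, (by rw [mul_comm]; exact hem.symm)⟩
      obtain ⟨d, hd1, hd2⟩ := hg ((uni p i).comp e) (by
        rw [comp_m]
        exact (Sm.prime hp (Finset.mem_insert_self _ _)).mul hes) (by
        rw [comp_m]
        have : N * p ^ (a + 1) = p * (N * p ^ a) := by ring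
        rw [this]
        exact mul_dvd_mul_left p hMe)
      refine ⟨d, hd1, ?_⟩
      rw [hce]
      exact Mp.mul ((O.mp i).inv.sub e) hd2
    have hom := om_GG h2 hp O
    have h7 : g = (g * O.om⁻¹) * O.om := by group
    rw [h7]
    exact mul_mem key hom

include h2 hp hpS in
/-- `T (insert p S)` is generated by `T S` and `w` -/
theorem T_insert : T (insert p S) = GG S O := by
  apply le_antisymm
  · rintro g ⟨N, hN, hg⟩
    have : Fact p.Prime := ⟨hp⟩
    obtain ⟨a, N', hN', hNN⟩ := Nat.exists_eq_pow_mul_and_not_dvd hN.1 p hp.ne_one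
    apply claimA h2 hp hpS O a
    refine ⟨N', ⟨fun h => hN' (by rw [h]; exact dvd_zero _), fun q hq hqN => ?_⟩, fun c hc hd => hg c hc ?_⟩
    · rcases Finset.mem_insert.mp (hN.2 q hq (by rw [hNN]; exact hqN.mul_left _)) with rfl | h'
      · exact absurd hqN hN'
      · exact h'
    · rw [hNN, mul_comm]
      exact hd
  · unfold GG
    rw [Subgroup.closure_le]
    rintro x (hx | hx)
    · exact T_mono (Finset.subset_insert _ _) hx
    · rw [Set.mem_singleton_iff] at hx
      subst hx
      have h2' : 2 ∈ insert p S := Finset.mem_insert_of_mem h2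
      exact emb_T (u0_sm h2') (om_T h2' hp (Finset.mem_insert_self _ _) O)

include h2 hp hpS in
theorem T_insert_fp (hS : ∀ q ∈ S, q.Prime) (hfp : Group.IsFinitelyPresented (T S)) :
    Group.IsFinitelyPresented (T (insert p S)) := by
  obtain ⟨O⟩ := Om.exists p hp.pos
  rw [T_insert h2 hp hpS O]
  exact ext_fp h2 hS hp hpS O hfp

end gen

end Pool.Agent.U640.CT
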