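import Pool.Agent.U640.CT.A6

set_option autoImplicit false

namespace Pool.Agent.U640.CT

open Cone

/-- class transpositions -/
def IsCTc (c d : Cone) (σ : Equiv.Perm ℤ) : Prop :=
  Disjoint c.S d.S ∧ Mp σ c d ∧ Mp σ d c ∧ ∀ n, ¬ c.In n → ¬ d.In n → σ n = n

def IsCT (S : Finset ℕ) (σ : Equiv.Perm ℤ) : Prop :=
  ∃ c d : Cone, Sm S c.m ∧ Sm S d.m ∧ IsCTc c d σ

def KG (S : Finset ℕ) : Subgroup (Equiv.Perm ℤ) := Subgroup.closure {σ | IsCT S σ}

theorem IsCTc.uniq {c d : Cone} {σ τ : Equiv.Perm ℤ} (h1 : IsCTc c d σ) (h2 : IsCTc c d τ) :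
    σ = τ := by
  ext n
  by_cases hc : c.In n
  · obtain ⟨z, rfl⟩ := Cone.in_iff.mp hc
    rw [h1.2.1, h2.2.1]
  · by_cases hd : d.In n
    · obtain ⟨z, rfl⟩ := Cone.in_iff.mp hd
      rw [h1.2.2.1, h2.2.2.1]
    · rw [h1.2.2.2 n hc hd, h2.2.2.2 n hc hd]

theorem ev_div (c : Cone) (z : ℤ) : (c.ev z - c.r) / c.m = z := by
  simp only [Cone.ev, add_sub_cancel_left]
  exact Int.mul_ediv_cancel_left _ c.mposZ.ne'

/-- the function of a class transposition -/
noncomputable def ctf (c d : Cone) (n : ℤ) : ℤ :=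
  if c.In n then d.ev ((n - c.r) / c.m) else if d.In n then c.ev ((n - d.r) / d.m) else n

theorem ctf_c {c d : Cone} (z : ℤ) : ctf c d (c.ev z) = d.ev z := by
  unfold ctf
  rw [if_pos (ev_in _ _), ev_div]

theorem ctf_d {c d : Cone} (h : Disjoint c.S d.S) (z : ℤ) : ctf c d (d.ev z) = c.ev z := by
  have hn : ¬ c.In (d.ev z) := fun hc => Set.disjoint_left.mp h hc (ev_in d z)
  unfold ctf
  rw [if_neg hn, if_pos (ev_in _ _), ev_div]

theorem ctf_o {c d : Cone} {n : ℤ} (hc : ¬ c.In n) (hd : ¬ d.In n) : ctf c d n = n := by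
  unfold ctf
  rw [if_neg hc, if_neg hd]

theorem exists_ct {c d : Cone} (h : Disjoint c.S d.S) : ∃ σ, IsCTc c d σ := by
  have hinv : Function.Involutive (ctf c d) := by
    intro n
    by_cases hc : c.In n
    · obtain ⟨z, rfl⟩ := Cone.in_iff.mp hc
      rw [ctf_c, ctf_d h]
    · by_cases hd : d.In n
      · obtain ⟨z, rfl⟩ := Cone.in_iff.mp hd
        rw [ctf_d h, ctf_c]
      · rw [ctf_o hc hd, ctf_o hc hd]
  exact ⟨hinv.toPerm _, h, fun z => ctf_c z, fun z => ctf_d h z, fun n hc hd => ctf_o hc hd⟩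

theorem prod_disj' {α : Type*} (l : List α) (hl : l.Nodup) (E : α → Set ℤ)
    (g : α → Equiv.Perm ℤ) (hp : ∀ a ∈ l, ∀ n, n ∈ E a → g a n ∈ E a)
    (hf : ∀ a ∈ l, ∀ n, n ∉ E a → g a n = n)
    (hc : ∀ a ∈ l, ∀ b ∈ l, ∀ n, n ∈ E a → n ∈ E b → a = b) (n : ℤ) :
    (∀ a ∈ l, n ∈ E a → (l.map g).prod n = g a n) ∧
    ((∀ a ∈ l, n ∉ E a) → (l.map g).prod n = n) := by
  induction l with
  | nil => simp
  | cons x l ih =>
    rw [List.nodup_cons] at hl
    obtain ⟨ih1, ih2⟩ := ih hl.2 (fun a ha => hp a (by simp [ha])) (fun a ha => hf a (by simp [ha]))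
      (fun a ha b hb => hc a (by simp [ha]) b (by simp [hb]))
    constructor
    · intro a ha hn
      rw [List.map_cons, List.prod_cons, Equiv.Perm.mul_apply]
      by_cases hax : a = x
      · subst hax
        rw [ih2]
        intro b hb hbn
        have := hc a (by simp) b (by simp [hb]) n hn hbn
        subst this
        exact hl.1 hb
      · have hal : a ∈ l := by
          rcases List.mem_cons.mp ha with h | h
          · exact absurd h hax
          · exact h
        rw [ih1 a hal hn]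
        apply hf x (by simp)
        intro hx
        have h2 : g a n ∈ E a := hp a (by simp [hal]) n hn
        exact hax (hc a (by simp [hal]) x (by simp) _ h2 hx)
    · intro h
      rw [List.map_cons, List.prod_cons, Equiv.Perm.mul_apply, ih2 (fun a ha => h a (by simp [ha]))]
      exact hf x (by simp) _ (h x (by simp))

theorem disj_comp {c d e e' : Cone} (h : Disjoint c.S d.S) :
    Disjoint (c.comp e).S (d.comp e').S := by
  rw [Set.disjoint_left]
  intro n hn hn'
  exact Set.disjoint_left.mp h (in_of_comp hn) (in_of_comp hn')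

theorem KG_conj {S : Finset ℕ} {g : Equiv.Perm ℤ} (hg : g ∈ T S) {σ : Equiv.Perm ℤ}
    (hσ : IsCT S σ) : g * σ * g⁻¹ ∈ KG S := by
  obtain ⟨c, d, hc, hd, hdis, h1, h2, h3⟩ := hσ
  obtain ⟨N, hN, hg⟩ := hg
  have hc' : ∀ j : Fin N, ∃ e : Cone, Sm S e.m ∧ Mp g (c.comp (uni N j)) e := fun j =>
    hg _ (by rw [comp_m]; exact hc.mul hN) (by rw [comp_m]; exact dvd_mul_left _ _)
  have hd' : ∀ j : Fin N, ∃ e : Cone, Sm S e.m ∧ Mp g (d.comp (uni N j)) e := fun j =>
    hg _ (by rw [comp_m]; exact hd.mul hN) (by rw [comp_m]; exact dvd_mul_left _ _)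
  choose C hC1 hC2 using hc'
  choose D hD1 hD2 using hd'
  have hσj : ∀ j : Fin N, ∃ σ, IsCTc (c.comp (uni N j)) (d.comp (uni N j)) σ := fun j =>
    exists_ct (disj_comp hdis)
  choose τ hτ using hσj
  have hprod : σ = ((List.finRange N).map τ).prod := by
    ext n
    obtain ⟨q1, q2⟩ := prod_disj' (List.finRange N) (List.nodup_finRange N)
      (fun j => (c.comp (uni N j)).S ∪ (d.comp (uni N j)).S) τ
      (fun j _ n hn => by
        rcases hn with hn | hn
        · right
          exact (hτ j).2.1.in_iff.mpr hn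
        · left
          exact (hτ j).2.2.1.in_iff.mpr hn)
      (fun j _ n hn => by
        rw [Set.mem_union, not_or] at hn
        exact (hτ j).2.2.2 n hn.1 hn.2)
      (fun a _ b _ n ha hb => by
        rcases ha with ha | ha <;> rcases hb with hb | hb
        · obtain ⟨z, rfl⟩ := Cone.in_iff.mp (in_of_comp ha)
          rw [mem_S, in_comp_iff] at ha hb
          exact (uni_part N hN.pos z).unique ha hb
        · exact absurd (in_of_comp hb) (fun h => Set.disjoint_left.mp hdis (in_of_comp ha) h)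
        · exact absurd (in_of_comp ha) (fun h => Set.disjoint_left.mp hdis (in_of_comp hb) h)
        · obtain ⟨z, rfl⟩ := Cone.in_iff.mp (in_of_comp ha)
          rw [mem_S, in_comp_iff] at ha hb
          exact (uni_part N hN.pos z).unique ha hb) n
    by_cases hcn : c.In n
    · obtain ⟨z, rfl⟩ := Cone.in_iff.mp hcn
      obtain ⟨j, hj, _⟩ := uni_part N hN.pos z
      rw [q1 j (List.mem_finRange _) (Or.inl (in_comp_iff.mpr hj)), h1]
      obtain ⟨w, rfl⟩ := Cone.in_iff.mp hj
      have := (hτ j).2.1 w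
      rw [comp_ev, comp_ev] at this
      exact this.symm
    · by_cases hdn : d.In n
      · obtain ⟨z, rfl⟩ := Cone.in_iff.mp hdn
        obtain ⟨j, hj, _⟩ := uni_part N hN.pos z
        rw [q1 j (List.mem_finRange _) (Or.inr (in_comp_iff.mpr hj)), h2]
        obtain ⟨w, rfl⟩ := Cone.in_iff.mp hj
        have := (hτ j).2.2.1 w
        rw [comp_ev, comp_ev] at this
        exact this.symm
      · rw [h3 n hcn hdn, q2]
        intro j _ hj
        rcases hj with hj | hj
        · exact hcn (in_of_comp hj)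
        · exact hdn (in_of_comp hj)
  rw [hprod]
  have : g * ((List.finRange N).map τ).prod * g⁻¹ = (((List.finRange N).map τ).map (MulAut.conj g)).prod := by
    rw [← map_list_prod, MulAut.conj_apply]
  rw [this]
  apply Subgroup.list_prod_mem
  intro x hx
  rw [List.map_map, List.mem_map] at hx
  obtain ⟨j, _, rfl⟩ := hx
  simp only [Function.comp_apply, MulAut.conj_apply]
  apply Subgroup.subset_closure
  refine ⟨C j, D j, hC1 j, hD1 j, ?_, ?_, ?_, ?_⟩
  · rw [Set.disjoint_left]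
    intro n hn hn'
    have e1 : (c.comp (uni N j)).In (g⁻¹ n) := by rw [← (hC2 j).in_iff, pai]; exact hn
    have e2 : (d.comp (uni N j)).In (g⁻¹ n) := by rw [← (hD2 j).in_iff, pai]; exact hn'
    exact Set.disjoint_left.mp (hτ j).1 e1 e2
  · rw [mul_assoc]
    exact ((hC2 j).inv.mul (hτ j).2.1).mul (hD2 j)
  · rw [mul_assoc]
    exact ((hD2 j).inv.mul (hτ j).2.2.1).mul (hC2 j)
  · intro n hn hn'
    rw [Equiv.Perm.mul_apply, Equiv.Perm.mul_apply, (hτ j).2.2.2, pai]
    · rw [(hC2 j).inv.in_iff]; exact hn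
    · rw [(hD2 j).inv.in_iff]; exact hn'

theorem KG_normal {S : Finset ℕ} {g : Equiv.Perm ℤ} (hg : g ∈ T S) {k : Equiv.Perm ℤ}
    (hk : k ∈ KG S) : g * k * g⁻¹ ∈ KG S := by
  have h1 : KG S ≤ (KG S).comap (MulAut.conj g).toMonoidHom := by
    unfold KG
    rw [Subgroup.closure_le]
    intro σ hσ
    rw [SetLike.mem_coe, Subgroup.mem_comap]
    exact KG_conj hg hσ
  exact h1 hk

theorem IsCT_T {S : Finset ℕ} {σ : Equiv.Perm ℤ} (hσ : IsCT S σ) : σ ∈ T S := by
  obtain ⟨c, d, hc, hd, hdis, h1, h2, h3⟩ := hσ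
  refine ⟨c.m * d.m, hc.mul hd, fun x hx hdv => ?_⟩
  by_cases hcx : c.In x.r
  · obtain ⟨e, rfl, hem⟩ := factor ((dvd_mul_right _ _).trans hdv) hcx
    refine ⟨d.comp e, ?_, h1.sub e⟩
    rw [comp_m]
    exact hd.mul (hx.dvd (by rw [comp_m]; exact dvd_mul_left _ _))
  · by_cases hdx : d.In x.r
    · obtain ⟨e, rfl, hem⟩ := factor ((dvd_mul_left _ _).trans hdv) hdx
      refine ⟨c.comp e, ?_, h2.sub e⟩
      rw [comp_m]
      exact hc.mul (hx.dvd (by rw [comp_m]; exact dvd_mul_left _ _))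
    · refine ⟨x, hx, fun z => h3 _ ?_ ?_⟩
      · have := per_in (per_cone c dvd_rfl) (c := x) ((dvd_mul_right _ _).trans hdv) (x.ev_in z)
        rw [mem_S, mem_S] at this
        rw [this]; exact hcx
      · have := per_in (per_cone d dvd_rfl) (c := x) ((dvd_mul_left _ _).trans hdv) (x.ev_in z)
        rw [mem_S, mem_S] at this
        rw [this]; exact hdx

theorem KG_le_T (S : Finset ℕ) : KG S ≤ T S := by
  unfold KG
  rw [Subgroup.closure_le]
  exact fun σ hσ => IsCT_T hσ

theorem KG_mono {S S' : Finset ℕ} (h : S ⊆ S') : KG S ≤ KG S' := by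
  unfold KG
  apply Subgroup.closure_mono
  rintro σ ⟨c, d, hc, hd, h'⟩
  exact ⟨c, d, hc.mono h, hd.mono h, h'⟩

theorem T_le_KG_step {S : Finset ℕ} (h2 : 2 ∈ S) {p : ℕ} (hp : p.Prime) (hpS : p ∉ S)
    (h : T S ≤ KG S) : T (insert p S) ≤ KG (insert p S) := by
  obtain ⟨O⟩ := Om.exists p hp.pos
  have hTK : T S ≤ KG (insert p S) := h.trans (KG_mono (Finset.subset_insert _ _))
  have h2' : 2 ∈ insert p S := Finset.mem_insert_of_mem h2
  have hwT : emb u0 O.om ∈ T (insert p S) :=
    emb_T (u0_sm h2') (om_T h2' hp (Finset.mem_insert_self _ _) O)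
  rw [T_insert h2 hp hpS O]
  unfold GG
  rw [Subgroup.closure_le]
  rintro x (hx | hx)
  · exact hTK hx
  · rw [Set.mem_singleton_iff] at hx
    subst hx
    set w := emb u0 O.om with hw
    have h2s : Sm S 2 := Sm.prime Nat.prime_two h2
    have hk : ∀ j : Fin 2, ∃ k ∈ KG (insert p S), emb (u0.comp (uni 2 j)) O.om = k * w := by
      intro j
      obtain ⟨b, hb⟩ := trans_one h2 (u0.comp (uni 2 j)) (u0_comp_sm h2 h2s j)
        (comp_one_lt u0_one)
      refine ⟨b * (w * (b : Equiv.Perm ℤ)⁻¹ * w⁻¹), mul_mem (hTK b.2) ?_, ?_⟩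
      · exact KG_normal hwT (inv_mem (hTK b.2))
      · rw [← emb_conj hb, ← hw]
        group
    obtain ⟨k0, hk0, e0⟩ := hk 0
    obtain ⟨k1, hk1, e1⟩ := hk 1
    have hs := vK_spec h2 hp.pos O h2s
    have e2 : ((List.finRange 2).map (fun j => emb (u0.comp (uni 2 j)) O.om)).prod =
        k0 * w * (k1 * w) := by
      have : List.finRange 2 = [0, 1] := by decide
      rw [this]
      simp only [List.map_cons, List.map_nil, List.prod_cons, List.prod_nil, mul_one]
      rw [e0, e1]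
    rw [e2] at hs
    set v := (vK h2 hp.pos O h2s : Equiv.Perm ℤ) with hv
    have hvK : v ∈ KG (insert p S) := hTK (vK h2 hp.pos O h2s).2
    have h5 : w = (v * k0 * (w * k1 * w⁻¹))⁻¹ := by
      have : w = v * k0 * (w * k1 * w⁻¹) * w * w := by
        calc w = v * (k0 * w * (k1 * w)) := hs
          _ = _ := by group
      have h6 : v * k0 * (w * k1 * w⁻¹) * w = 1 := by
        have h7 : v * k0 * (w * k1 * w⁻¹) * w * w = 1 * w := by rw [one_mul]; exact this.symm
        exact mul_right_cancel h7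
      exact (inv_eq_of_mul_eq_one_right h6).symm
    show w ∈ KG (insert p S)
    rw [h5]
    exact inv_mem (mul_mem (mul_mem hvK hk0) (KG_normal hwT hk1))

end Pool.Agent.U640.CT
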