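import Mathlib

set_option autoImplicit false

namespace Pool.Agent.U640.CT

/-- the infinite families of relations -/
structure Fam {Q : Type*} [Group Q] (x p t : ℕ → Q) : Prop where
  A : ∀ i j, i < j → x j * x i = x i * x (j + 1)
  B1 : ∀ i k, i < k → p k * x i = x i * p (k + 1)
  B2 : ∀ k i, k + 1 < i → p k * x i = x i * p k
  B3 : ∀ i, p i * x i = x (i + 1) * p i * p (i + 1)
  C1 : ∀ i, p i * p i = 1
  C2 : ∀ i j, i + 1 < j → p i * p j = p j * p i
  C3 : ∀ i, p i * p (i + 1) * p i = p (i + 1) * p i * p (i + 1)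
  T1 : ∀ M i, i < M + 2 → t M * x i = x i * t (M + 1)
  T2 : ∀ M, t M * x (M + 2) = p (M + 2) * t (M + 1)
  T3 : ∀ M, t M * t M = 1
  T4 : ∀ M k, k < M + 1 → p k * t M = t M * p k
  T5 : ∀ M, p (M + 1) * t M * p (M + 1) = t M * p (M + 1) * t M

/-- the finite list of base relations -/
def baseRel {Q : Type*} [Group Q] (x p t : ℕ → Q) : List (Q × Q) :=
  [(x 2 * x 1, x 1 * x 3), (x 3 * x 1, x 1 * x 4),
   (p 2 * x 1, x 1 * p 3), (p 3 * x 1, x 1 * p 4),
   (p 0 * x 2, x 2 * p 0), (p 0 * x 3, x 3 * p 0), (p 1 * x 3, x 3 * p 1), (p 1 * x 4, x 4 * p 1),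
   (p 0 * x 0, x 1 * p 0 * p 1), (p 1 * x 1, x 2 * p 1 * p 2),
   (p 0 * p 0, 1), (p 1 * p 1, 1),
   (p 0 * p 2, p 2 * p 0), (p 0 * p 3, p 3 * p 0), (p 1 * p 3, p 3 * p 1), (p 1 * p 4, p 4 * p 1),
   (p 0 * p 1 * p 0, p 1 * p 0 * p 1), (p 1 * p 2 * p 1, p 2 * p 1 * p 2),
   (t 0 * x 1, x 1 * t 1), (t 1 * x 1, x 1 * t 2),
   (t 0 * x 2, p 2 * t 1), (t 0 * t 0, 1),
   (p 0 * t 0, t 0 * p 0), (p 0 * t 1, t 1 * p 0), (p 1 * t 1, t 1 * p 1), (p 1 * t 2, t 2 * p 1),
   (p 1 * t 0 * p 1, t 0 * p 1 * t 0)]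

/-- shift structure -/
structure Shf {Q : Type*} [Group Q] (x p t : ℕ → Q) : Prop where
  sx : ∀ i, 1 ≤ i → x (i + 1) = (x 0)⁻¹ * x i * x 0
  sp : ∀ i, 1 ≤ i → p (i + 1) = (x 0)⁻¹ * p i * x 0
  st : ∀ M, t (M + 1) = (x 0)⁻¹ * t M * x 0

section

variable {Q : Type*} [Group Q] {x p t : ℕ → Q} (h : Shf x p t)
  (hb : ∀ r ∈ baseRel x p t, r.1 = r.2)

include h in
theorem shx (n i : ℕ) (hi : 1 ≤ i) : x (i + n) = (x 0 ^ n)⁻¹ * x i * x 0 ^ n := by
  induction n with
  | zero => simp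
  | succ n ih => rw [← add_assoc, h.sx (i + n) (by omega), ih, pow_succ]; group

include h in
theorem shp (n i : ℕ) (hi : 1 ≤ i) : p (i + n) = (x 0 ^ n)⁻¹ * p i * x 0 ^ n := by
  induction n with
  | zero => simp
  | succ n ih => rw [← add_assoc, h.sp (i + n) (by omega), ih, pow_succ]; group

include h in
theorem sht (n M : ℕ) : t (M + n) = (x 0 ^ n)⁻¹ * t M * x 0 ^ n := by
  induction n with
  | zero => simp
  | succ n ih => rw [← add_assoc, h.st (M + n), ih, pow_succ]; group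

theorem cj {a b c : Q} (g : Q) (h : a * b = c) : (g⁻¹ * a * g) * (g⁻¹ * b * g) = g⁻¹ * c * g := by
  rw [← h]; group

include h hb

theorem rel (a b : Q) (hab : (a, b) ∈ baseRel x p t) : a = b := hb (a, b) hab

theorem A1 : ∀ j, 1 < j → x j * x 1 = x 1 * x (j + 1) := by
  have b12 : x 2 * x 1 = x 1 * x 3 := rel h hb _ _ (by simp [baseRel])
  have b13 : x 3 * x 1 = x 1 * x 4 := rel h hb _ _ (by simp [baseRel])
  intro j
  induction j using Nat.strong_induction_on with
  | _ j ih =>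
    intro hj
    rcases Nat.lt_or_ge j 4 with h4 | h4
    · interval_cases j
      · exact b12
      · exact b13
    · obtain ⟨k, rfl⟩ : ∃ k, j = k + 4 := ⟨j - 4, by omega⟩
      -- x_{k+4} = x_2⁻¹ x_{k+3} x_2
      have e1 : x (k + 3) * x 2 = x 2 * x (k + 4) := by
        have := ih (k + 2) (by omega) (by omega)
        have h1 := congrArg (fun q => (x 0)⁻¹ * q * x 0) this
        have s1 := h.sx (k + 2) (by omega)
        have s2 := h.sx 1 (by omega)
        have s3 := h.sx (k + 2 + 1) (by omega)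
        calc x (k + 3) * x 2 = (x 0)⁻¹ * (x (k + 2) * x 1) * x 0 := by
              rw [show k + 3 = k + 2 + 1 from rfl, s1, show (2 : ℕ) = 1 + 1 from rfl, s2]; group
          _ = (x 0)⁻¹ * (x 1 * x (k + 2 + 1)) * x 0 := by rw [this]
          _ = x 2 * x (k + 4) := by
              rw [show k + 4 = k + 2 + 1 + 1 from rfl, s3, show (2 : ℕ) = 1 + 1 from rfl, s2]; group
      -- x_{k+4} x_3 = x_3 x_{k+5}
      have e2 : x (k + 4) * x 3 = x 3 * x (k + 5) := by
        have s1 := h.sx (k + 3) (by omega)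
        have s2 := h.sx 2 (by omega)
        have s3 := h.sx (k + 4) (by omega)
        calc x (k + 4) * x 3 = (x 0)⁻¹ * (x (k + 3) * x 2) * x 0 := by
              rw [show k + 4 = k + 3 + 1 from rfl, s1, show (3 : ℕ) = 2 + 1 from rfl, s2]; group
          _ = (x 0)⁻¹ * (x 2 * x (k + 4)) * x 0 := by rw [e1]
          _ = x 3 * x (k + 5) := by
              rw [show k + 5 = k + 4 + 1 from rfl, s3, show (3 : ℕ) = 2 + 1 from rfl, s2]; group
      have e3 := ih (k + 3) (by omega) (by omega)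
      -- conclude
      have e4 : x (k + 4) = (x 2)⁻¹ * x (k + 3) * x 2 := by rw [mul_assoc, e1]; group
      have e5 : x (k + 4 + 1) = (x 3)⁻¹ * x (k + 4) * x 3 := by rw [mul_assoc, e2]; group
      calc x (k + 4) * x 1 = (x 2)⁻¹ * x (k + 3) * (x 2 * x 1) := by rw [e4]; group
        _ = (x 2)⁻¹ * (x (k + 3) * x 1) * x 3 := by rw [b12]; group
        _ = (x 2)⁻¹ * x 1 * (x (k + 3 + 1) * x 3) := by rw [e3]; group
        _ = (x 2)⁻¹ * x 1 * (x 3 * x (k + 5)) := by rw [show k + 3 + 1 = k + 4 from rfl, e2]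
        _ = (x 2)⁻¹ * (x 2 * x 1) * x (k + 5) := by rw [b12]; group
        _ = x 1 * x (k + 4 + 1) := by group

theorem famA : ∀ i j, i < j → x j * x i = x i * x (j + 1) := by
  intro i j hij
  rcases Nat.eq_zero_or_pos i with rfl | hi
  · rw [h.sx j hij]; group
  · obtain ⟨n, rfl⟩ : ∃ n, i = 1 + n := ⟨i - 1, by omega⟩
    obtain ⟨k, rfl⟩ : ∃ k, j = k + n := ⟨j - n, by omega⟩
    have := A1 h hb k (by omega)
    rw [shx h n 1 (by omega), shx h n k (by omega), show k + n + 1 = (k + 1) + n by omega,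
      shx h n (k + 1) (by omega), cj _ this]
    group

theorem B11 : ∀ k, 1 < k → p k * x 1 = x 1 * p (k + 1) := by
  have b12 : p 2 * x 1 = x 1 * p 3 := rel h hb _ _ (by simp [baseRel])
  have b13 : p 3 * x 1 = x 1 * p 4 := rel h hb _ _ (by simp [baseRel])
  have a12 : x 2 * x 1 = x 1 * x 3 := rel h hb _ _ (by simp [baseRel])
  intro j
  induction j using Nat.strong_induction_on with
  | _ j ih =>
    intro hj
    rcases Nat.lt_or_ge j 4 with h4 | h4
    · interval_cases j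
      · exact b12
      · exact b13
    · obtain ⟨k, rfl⟩ : ∃ k, j = k + 4 := ⟨j - 4, by omega⟩
      have e1 : p (k + 3) * x 2 = x 2 * p (k + 4) := by
        have := ih (k + 2) (by omega) (by omega)
        have s1 := h.sp (k + 2) (by omega)
        have s2 := h.sx 1 (by omega)
        have s3 := h.sp (k + 2 + 1) (by omega)
        calc p (k + 3) * x 2 = (x 0)⁻¹ * (p (k + 2) * x 1) * x 0 := by
              rw [show k + 3 = k + 2 + 1 from rfl, s1, show (2 : ℕ) = 1 + 1 from rfl, s2]; group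
          _ = (x 0)⁻¹ * (x 1 * p (k + 2 + 1)) * x 0 := by rw [this]
          _ = x 2 * p (k + 4) := by
              rw [show k + 4 = k + 2 + 1 + 1 from rfl, s3, show (2 : ℕ) = 1 + 1 from rfl, s2]; group
      have e2 : p (k + 4) * x 3 = x 3 * p (k + 5) := by
        have s1 := h.sp (k + 3) (by omega)
        have s2 := h.sx 2 (by omega)
        have s3 := h.sp (k + 4) (by omega)
        calc p (k + 4) * x 3 = (x 0)⁻¹ * (p (k + 3) * x 2) * x 0 := by
              rw [show k + 4 = k + 3 + 1 from rfl, s1, show (3 : ℕ) = 2 + 1 from rfl, s2]; group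
          _ = (x 0)⁻¹ * (x 2 * p (k + 4)) * x 0 := by rw [e1]
          _ = x 3 * p (k + 5) := by
              rw [show k + 5 = k + 4 + 1 from rfl, s3, show (3 : ℕ) = 2 + 1 from rfl, s2]; group
      have e3 := ih (k + 3) (by omega) (by omega)
      have e4 : p (k + 4) = (x 2)⁻¹ * p (k + 3) * x 2 := by rw [mul_assoc, e1]; group
      calc p (k + 4) * x 1 = (x 2)⁻¹ * p (k + 3) * (x 2 * x 1) := by rw [e4]; group
        _ = (x 2)⁻¹ * (p (k + 3) * x 1) * x 3 := by rw [a12]; group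
        _ = (x 2)⁻¹ * x 1 * (p (k + 3 + 1) * x 3) := by rw [e3]; group
        _ = (x 2)⁻¹ * x 1 * (x 3 * p (k + 5)) := by rw [show k + 3 + 1 = k + 4 from rfl, e2]
        _ = (x 2)⁻¹ * (x 2 * x 1) * p (k + 5) := by rw [a12]; group
        _ = x 1 * p (k + 4 + 1) := by group

theorem famB1 : ∀ i k, i < k → p k * x i = x i * p (k + 1) := by
  intro i j hij
  rcases Nat.eq_zero_or_pos i with rfl | hi
  · rw [h.sp j hij]; group
  · obtain ⟨n, rfl⟩ : ∃ n, i = 1 + n := ⟨i - 1, by omega⟩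
    obtain ⟨k, rfl⟩ : ∃ k, j = k + n := ⟨j - n, by omega⟩
    have := B11 h hb k (by omega)
    rw [shx h n 1 (by omega), shp h n k (by omega), show k + n + 1 = (k + 1) + n by omega,
      shp h n (k + 1) (by omega), cj _ this]
    group

/-- if `q` commutes with `x m` and `x j` (`m < j`) then it commutes with `x (j+1)` -/
theorem comm_step (q : Q) (m j : ℕ) (hmj : m < j) (h1 : q * x m = x m * q)
    (h2 : q * x j = x j * q) : q * x (j + 1) = x (j + 1) * q := by
  have e := famA h hb m j hmj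
  have e1 : x (j + 1) = (x m)⁻¹ * x j * x m := by rw [mul_assoc, e]; group
  have h1' : q * (x m)⁻¹ = (x m)⁻¹ * q := by
    rw [eq_inv_mul_iff_mul_eq, ← mul_assoc, ← h1]; group
  calc q * x (j + 1) = (q * (x m)⁻¹) * x j * x m := by rw [e1]; group
    _ = (x m)⁻¹ * (q * x j) * x m := by rw [h1']; group
    _ = (x m)⁻¹ * x j * (q * x m) := by rw [h2]; group
    _ = _ := by rw [h1, e1]; group

theorem comm_step_p (q : Q) (m j : ℕ) (hmj : m < j) (h1 : q * x m = x m * q)
    (h2 : q * p j = p j * q) : q * p (j + 1) = p (j + 1) * q := by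
  have e := famB1 h hb m j hmj
  have e1 : p (j + 1) = (x m)⁻¹ * p j * x m := by rw [mul_assoc, e]; group
  have h1' : q * (x m)⁻¹ = (x m)⁻¹ * q := by
    rw [eq_inv_mul_iff_mul_eq, ← mul_assoc, ← h1]; group
  calc q * p (j + 1) = (q * (x m)⁻¹) * p j * x m := by rw [e1]; group
    _ = (x m)⁻¹ * (q * p j) * x m := by rw [h1']; group
    _ = (x m)⁻¹ * p j * (q * x m) := by rw [h2]; group
    _ = _ := by rw [h1, e1]; group

theorem B20 : ∀ i, 1 < i → p 0 * x i = x i * p 0 := by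
  have b02 : p 0 * x 2 = x 2 * p 0 := rel h hb _ _ (by simp [baseRel])
  have b03 : p 0 * x 3 = x 3 * p 0 := rel h hb _ _ (by simp [baseRel])
  intro i hi
  obtain ⟨k, rfl⟩ : ∃ k, i = k + 2 := ⟨i - 2, by omega⟩
  induction k with
  | zero => exact b02
  | succ k ih =>
    rcases Nat.eq_zero_or_pos k with rfl | hk
    · exact b03
    · exact comm_step h hb _ 2 (k + 2) (by omega) b02 (ih (by omega))

theorem B21 : ∀ i, 2 < i → p 1 * x i = x i * p 1 := by
  have b13 : p 1 * x 3 = x 3 * p 1 := rel h hb _ _ (by simp [baseRel])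
  have b14 : p 1 * x 4 = x 4 * p 1 := rel h hb _ _ (by simp [baseRel])
  intro i hi
  obtain ⟨k, rfl⟩ : ∃ k, i = k + 3 := ⟨i - 3, by omega⟩
  induction k with
  | zero => exact b13
  | succ k ih =>
    rcases Nat.eq_zero_or_pos k with rfl | hk
    · exact b14
    · exact comm_step h hb _ 3 (k + 3) (by omega) b13 (ih (by omega))

theorem famB2 : ∀ k i, k + 1 < i → p k * x i = x i * p k := by
  intro k i hki
  rcases Nat.eq_zero_or_pos k with rfl | hk
  · exact B20 h hb i (by omega)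
  · obtain ⟨n, rfl⟩ : ∃ n, k = 1 + n := ⟨k - 1, by omega⟩
    obtain ⟨m, rfl⟩ : ∃ m, i = m + n := ⟨i - n, by omega⟩
    have := B21 h hb m (by omega)
    rw [shp h n 1 (by omega), shx h n m (by omega), cj _ this]
    group

theorem famB3 : ∀ i, p i * x i = x (i + 1) * p i * p (i + 1) := by
  have b0 : p 0 * x 0 = x 1 * p 0 * p 1 := rel h hb _ _ (by simp [baseRel])
  have b1 : p 1 * x 1 = x 2 * p 1 * p 2 := rel h hb _ _ (by simp [baseRel])
  intro i
  rcases Nat.eq_zero_or_pos i with rfl | hi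
  · exact b0
  · obtain ⟨n, rfl⟩ : ∃ n, i = 1 + n := ⟨i - 1, by omega⟩
    rw [shp h n 1 (by omega), shx h n 1 (by omega), show 1 + n + 1 = 2 + n by omega,
      shx h n 2 (by omega), shp h n 2 (by omega), cj _ b1]
    group

theorem famC1 : ∀ i, p i * p i = 1 := by
  have b0 : p 0 * p 0 = 1 := rel h hb _ _ (by simp [baseRel])
  have b1 : p 1 * p 1 = 1 := rel h hb _ _ (by simp [baseRel])
  intro i
  rcases Nat.eq_zero_or_pos i with rfl | hi
  · exact b0
  · obtain ⟨n, rfl⟩ : ∃ n, i = 1 + n := ⟨i - 1, by omega⟩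
    rw [shp h n 1 (by omega), cj _ b1]
    group

theorem famC2 : ∀ i j, i + 1 < j → p i * p j = p j * p i := by
  have b02 : p 0 * p 2 = p 2 * p 0 := rel h hb _ _ (by simp [baseRel])
  have b03 : p 0 * p 3 = p 3 * p 0 := rel h hb _ _ (by simp [baseRel])
  have b13 : p 1 * p 3 = p 3 * p 1 := rel h hb _ _ (by simp [baseRel])
  have b14 : p 1 * p 4 = p 4 * p 1 := rel h hb _ _ (by simp [baseRel])
  have c0 : ∀ k, p 0 * p (k + 2) = p (k + 2) * p 0 := by
    intro k
    induction k with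
    | zero => exact b02
    | succ k ih =>
      rcases Nat.eq_zero_or_pos k with rfl | hk
      · exact b03
      · exact comm_step_p h hb _ 2 (k + 2) (by omega) (B20 h hb 2 (by omega)) ih
  have c1 : ∀ k, p 1 * p (k + 3) = p (k + 3) * p 1 := by
    intro k
    induction k with
    | zero => exact b13
    | succ k ih =>
      rcases Nat.eq_zero_or_pos k with rfl | hk
      · exact b14
      · exact comm_step_p h hb _ 3 (k + 3) (by omega) (B21 h hb 3 (by omega)) ih
  intro i j hij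
  rcases Nat.eq_zero_or_pos i with rfl | hi
  · obtain ⟨k, rfl⟩ : ∃ k, j = k + 2 := ⟨j - 2, by omega⟩
    exact c0 k
  · obtain ⟨n, rfl⟩ : ∃ n, i = 1 + n := ⟨i - 1, by omega⟩
    obtain ⟨k, rfl⟩ : ∃ k, j = (k + 3) + n := ⟨j - n - 3, by omega⟩
    rw [shp h n 1 (by omega), shp h n (k + 3) (by omega), cj _ (c1 k)]
    group

theorem famC3 : ∀ i, p i * p (i + 1) * p i = p (i + 1) * p i * p (i + 1) := by
  have b0 : p 0 * p 1 * p 0 = p 1 * p 0 * p 1 := rel h hb _ _ (by simp [baseRel])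
  have b1 : p 1 * p 2 * p 1 = p 2 * p 1 * p 2 := rel h hb _ _ (by simp [baseRel])
  intro i
  rcases Nat.eq_zero_or_pos i with rfl | hi
  · exact b0
  · obtain ⟨n, rfl⟩ : ∃ n, i = 1 + n := ⟨i - 1, by omega⟩
    rw [show 1 + n + 1 = 2 + n by omega, shp h n 1 (by omega), shp h n 2 (by omega)]
    have e1 : (x 0 ^ n)⁻¹ * p 1 * x 0 ^ n * ((x 0 ^ n)⁻¹ * p 2 * x 0 ^ n) *
        ((x 0 ^ n)⁻¹ * p 1 * x 0 ^ n) = (x 0 ^ n)⁻¹ * (p 1 * p 2 * p 1) * x 0 ^ n := by group
    rw [e1, b1]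
    group

theorem T11 : ∀ M, t M * x 1 = x 1 * t (M + 1) := by
  have b0 : t 0 * x 1 = x 1 * t 1 := rel h hb _ _ (by simp [baseRel])
  have b1 : t 1 * x 1 = x 1 * t 2 := rel h hb _ _ (by simp [baseRel])
  have a12 : x 2 * x 1 = x 1 * x 3 := rel h hb _ _ (by simp [baseRel])
  intro j
  induction j using Nat.strong_induction_on with
  | _ j ih =>
    rcases Nat.lt_or_ge j 2 with h4 | h4
    · interval_cases j
      · exact b0
      · exact b1
    · obtain ⟨k, rfl⟩ : ∃ k, j = k + 2 := ⟨j - 2, by omega⟩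
      have e1 : t (k + 1) * x 2 = x 2 * t (k + 2) := by
        have := ih k (by omega)
        have s1 := h.st k
        have s2 := h.sx 1 (by omega)
        have s3 := h.st (k + 1)
        calc t (k + 1) * x 2 = (x 0)⁻¹ * (t k * x 1) * x 0 := by
              rw [s1, show (2 : ℕ) = 1 + 1 from rfl, s2]; group
          _ = (x 0)⁻¹ * (x 1 * t (k + 1)) * x 0 := by rw [this]
          _ = x 2 * t (k + 2) := by
              rw [show k + 2 = k + 1 + 1 from rfl, s3, show (2 : ℕ) = 1 + 1 from rfl, s2]; group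
      have e2 : t (k + 2) * x 3 = x 3 * t (k + 3) := by
        have s1 := h.st (k + 1)
        have s2 := h.sx 2 (by omega)
        have s3 := h.st (k + 2)
        calc t (k + 2) * x 3 = (x 0)⁻¹ * (t (k + 1) * x 2) * x 0 := by
              rw [show k + 2 = k + 1 + 1 from rfl, s1, show (3 : ℕ) = 2 + 1 from rfl, s2]; group
          _ = (x 0)⁻¹ * (x 2 * t (k + 2)) * x 0 := by rw [e1]
          _ = x 3 * t (k + 3) := by
              rw [show k + 3 = k + 2 + 1 from rfl, s3, show (3 : ℕ) = 2 + 1 from rfl, s2]; group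
      have e3 := ih (k + 1) (by omega)
      have e4 : t (k + 2) = (x 2)⁻¹ * t (k + 1) * x 2 := by rw [mul_assoc, e1]; group
      calc t (k + 2) * x 1 = (x 2)⁻¹ * t (k + 1) * (x 2 * x 1) := by rw [e4]; group
        _ = (x 2)⁻¹ * (t (k + 1) * x 1) * x 3 := by rw [a12]; group
        _ = (x 2)⁻¹ * x 1 * (t (k + 1 + 1) * x 3) := by rw [e3]; group
        _ = (x 2)⁻¹ * x 1 * (x 3 * t (k + 3)) := by rw [show k + 1 + 1 = k + 2 from rfl, e2]
        _ = (x 2)⁻¹ * (x 2 * x 1) * t (k + 3) := by rw [a12]; group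
        _ = x 1 * t (k + 2 + 1) := by group

theorem famT1 : ∀ M i, i < M + 2 → t M * x i = x i * t (M + 1) := by
  intro M i hi
  rcases Nat.eq_zero_or_pos i with rfl | hi0
  · rw [h.st M]; group
  · obtain ⟨n, rfl⟩ : ∃ n, i = 1 + n := ⟨i - 1, by omega⟩
    obtain ⟨k, rfl⟩ : ∃ k, M = k + n := ⟨M - n, by omega⟩
    have := T11 h hb k
    rw [shx h n 1 (by omega), sht h n k, show k + n + 1 = (k + 1) + n by omega,
      sht h n (k + 1), cj _ this]
    group

theorem famT2 : ∀ M, t M * x (M + 2) = p (M + 2) * t (M + 1) := by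
  have b0 : t 0 * x 2 = p 2 * t 1 := rel h hb _ _ (by simp [baseRel])
  intro M
  have e0 := sht h M 0
  rw [zero_add] at e0
  rw [e0, show M + 2 = 2 + M by omega, shx h M 2 (by omega), shp h M 2 (by omega),
    show M + 1 = 1 + M by omega, sht h M 1, cj _ b0]
  group

theorem famT3 : ∀ M, t M * t M = 1 := by
  have b0 : t 0 * t 0 = 1 := rel h hb _ _ (by simp [baseRel])
  intro M
  have e0 := sht h M 0
  rw [zero_add] at e0
  rw [e0, cj _ b0]
  group

theorem comm_step_t (q : Q) (m j : ℕ) (hmj : m < j + 2) (h1 : q * x m = x m * q)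
    (h2 : q * t j = t j * q) : q * t (j + 1) = t (j + 1) * q := by
  have e := famT1 h hb j m hmj
  have e1 : t (j + 1) = (x m)⁻¹ * t j * x m := by rw [mul_assoc, e]; group
  have h1' : q * (x m)⁻¹ = (x m)⁻¹ * q := by
    rw [eq_inv_mul_iff_mul_eq, ← mul_assoc, ← h1]; group
  calc q * t (j + 1) = (q * (x m)⁻¹) * t j * x m := by rw [e1]; group
    _ = (x m)⁻¹ * (q * t j) * x m := by rw [h1']; group
    _ = (x m)⁻¹ * t j * (q * x m) := by rw [h2]; group
    _ = _ := by rw [h1, e1]; group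

theorem famT4 : ∀ M k, k < M + 1 → p k * t M = t M * p k := by
  have b00 : p 0 * t 0 = t 0 * p 0 := rel h hb _ _ (by simp [baseRel])
  have b01 : p 0 * t 1 = t 1 * p 0 := rel h hb _ _ (by simp [baseRel])
  have b11 : p 1 * t 1 = t 1 * p 1 := rel h hb _ _ (by simp [baseRel])
  have b12 : p 1 * t 2 = t 2 * p 1 := rel h hb _ _ (by simp [baseRel])
  have c0 : ∀ M, p 0 * t M = t M * p 0 := by
    intro M
    induction M with
    | zero => exact b00
    | succ M ih =>
      rcases Nat.eq_zero_or_pos M with rfl | hM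
      · exact b01
      · exact comm_step_t h hb _ 2 M (by omega) (B20 h hb 2 (by omega)) ih
  have c1 : ∀ M, p 1 * t (M + 1) = t (M + 1) * p 1 := by
    intro M
    induction M with
    | zero => exact b11
    | succ M ih =>
      rcases Nat.eq_zero_or_pos M with rfl | hM
      · exact b12
      · exact comm_step_t h hb _ 3 (M + 1) (by omega) (B21 h hb 3 (by omega)) ih
  intro M k hk
  rcases Nat.eq_zero_or_pos k with rfl | hk0
  · exact c0 M
  · obtain ⟨n, rfl⟩ : ∃ n, k = 1 + n := ⟨k - 1, by omega⟩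
    obtain ⟨m, rfl⟩ : ∃ m, M = (m + 1) + n := ⟨M - n - 1, by omega⟩
    rw [shp h n 1 (by omega), sht h n (m + 1), cj _ (c1 m)]
    group

theorem famT5 : ∀ M, p (M + 1) * t M * p (M + 1) = t M * p (M + 1) * t M := by
  have b0 : p 1 * t 0 * p 1 = t 0 * p 1 * t 0 := rel h hb _ _ (by simp [baseRel])
  intro M
  have e0 := sht h M 0
  rw [zero_add] at e0
  rw [e0, show M + 1 = 1 + M by omega, shp h M 1 (by omega)]
  have e1 : (x 0 ^ M)⁻¹ * p 1 * x 0 ^ M * ((x 0 ^ M)⁻¹ * t 0 * x 0 ^ M) *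
        ((x 0 ^ M)⁻¹ * p 1 * x 0 ^ M) = (x 0 ^ M)⁻¹ * (p 1 * t 0 * p 1) * x 0 ^ M := by group
  rw [e1, b0]
  group

theorem fam_of_base : Fam x p t where
  A := famA h hb
  B1 := famB1 h hb
  B2 := famB2 h hb
  B3 := famB3 h hb
  C1 := famC1 h hb
  C2 := famC2 h hb
  C3 := famC3 h hb
  T1 := famT1 h hb
  T2 := famT2 h hb
  T3 := famT3 h hb
  T4 := famT4 h hb
  T5 := famT5 h hb

end

theorem base_of_fam {Q : Type*} [Group Q] {x p t : ℕ → Q} (h : Fam x p t) :
    ∀ r ∈ baseRel x p t, r.1 = r.2 := by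
  intro r hr
  simp only [baseRel, List.mem_cons, List.not_mem_nil, or_false] at hr
  rcases hr with rfl | rfl | rfl | rfl | rfl | rfl | rfl | rfl | rfl | rfl | rfl | rfl | rfl | rfl |
    rfl | rfl | rfl | rfl | rfl | rfl | rfl | rfl | rfl | rfl | rfl | rfl | rfl
  · exact h.A 1 2 (by omega)
  · exact h.A 1 3 (by omega)
  · exact h.B1 1 2 (by omega)
  · exact h.B1 1 3 (by omega)
  · exact h.B2 0 2 (by omega)
  · exact h.B2 0 3 (by omega)
  · exact h.B2 1 3 (by omega)
  · exact h.B2 1 4 (by omega)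
  · exact h.B3 0
  · exact h.B3 1
  · exact h.C1 0
  · exact h.C1 1
  · exact h.C2 0 2 (by omega)
  · exact h.C2 0 3 (by omega)
  · exact h.C2 1 3 (by omega)
  · exact h.C2 1 4 (by omega)
  · exact h.C3 0
  · exact h.C3 1
  · exact h.T1 0 1 (by omega)
  · exact h.T1 1 1 (by omega)
  · exact h.T2 0
  · exact h.T3 0
  · exact h.T4 0 0 (by omega)
  · exact h.T4 1 0 (by omega)
  · exact h.T4 1 1 (by omega)
  · exact h.T4 2 1 (by omega)
  · exact h.T5 0

end Pool.Agent.U640.CT
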