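import Pool.Agent.U640.CT.A7
import Pool.Agent.U640.CT.B1

set_option autoImplicit false

namespace Pool.Agent.U640.CT

open Cone

/-- split the `i`-th member of a list of cones in two -/
def spl : ℕ → List Cone → List Cone
  | _, [] => []
  | 0, c :: l => c.comp u0 :: c.comp u1 :: l
  | i + 1, c :: l => c :: spl i l

/-- swap the members `k`, `k+1` of a list of cones -/
def swp : ℕ → List Cone → List Cone
  | _, [] => []
  | 0, [a] => [a]
  | 0, a :: b :: l => b :: a :: l
  | k + 1, a :: l => a :: swp k l

theorem length_spl : ∀ (i : ℕ) (l : List Cone), i < l.length → (spl i l).length = l.length + 1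
  | _, [], h => by simp at h
  | 0, c :: l, _ => by simp [spl]
  | i + 1, c :: l, h => by
    simp only [spl, List.length_cons]
    rw [length_spl i l (by simpa using h)]

theorem length_swp : ∀ (k : ℕ) (l : List Cone), (swp k l).length = l.length
  | k, [] => by cases k <;> rfl
  | 0, [a] => rfl
  | 0, a :: b :: l => by simp [swp]
  | k + 1, a :: l => by simp [swp, length_swp k l]

theorem swp_swp : ∀ (k : ℕ) (l : List Cone), swp k (swp k l) = l
  | k, [] => by cases k <;> rfl
  | 0, [a] => rfl
  | 0, a :: b :: l => by simp [swp]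
  | k + 1, a :: l => by simp [swp, swp_swp k l]

theorem spl_swp1 : ∀ (i k : ℕ) (l : List Cone), i < k → spl i (swp k l) = swp (k + 1) (spl i l)
  | i, k, [], _ => by cases k <;> cases i <;> rfl
  | 0, k + 1, a :: l, _ => by simp [swp, spl]
  | i + 1, k + 1, a :: l, h => by simp [swp, spl, spl_swp1 i k l (by omega)]

theorem spl_swp2 : ∀ (i k : ℕ) (l : List Cone), k + 1 < i → spl i (swp k l) = swp k (spl i l)
  | i, k, [], _ => by cases k <;> cases i <;> rfl
  | i + 2, 0, [a], _ => by simp [swp, spl]
  | i + 2, 0, a :: b :: l, _ => by simp [swp, spl]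
  | i + 1, k + 1, a :: l, h => by simp [swp, spl, spl_swp2 i k l (by omega)]

theorem spl_swp3 : ∀ (k : ℕ) (l : List Cone), k + 1 < l.length →
    spl k (swp k l) = swp (k + 1) (swp k (spl (k + 1) l))
  | k, [], h => by simp at h
  | 0, [a], h => by simp at h
  | 0, a :: b :: l, _ => by simp [swp, spl]
  | k + 1, a :: l, h => by
    simp only [swp, spl]
    rw [spl_swp3 k l (by simpa using h)]

theorem spl_swp4 : ∀ (k : ℕ) (l : List Cone), k + 1 < l.length →
    spl (k + 1) (swp k l) = swp k (swp (k + 1) (spl k l))
  | k, [], h => by simp at h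
  | 0, [a], h => by simp at h
  | 0, a :: b :: l, _ => by simp [swp, spl]
  | k + 1, a :: l, h => by
    simp only [swp, spl]
    rw [spl_swp4 k l (by simpa using h)]

theorem spl_spl : ∀ (i j : ℕ) (l : List Cone), i < j → spl i (spl j l) = spl (j + 1) (spl i l)
  | i, j, [], _ => by cases j <;> cases i <;> rfl
  | 0, j + 1, a :: l, _ => by simp [spl]
  | i + 1, j + 1, a :: l, h => by simp [spl, spl_spl i j l (by omega)]

theorem swp_comm : ∀ (i j : ℕ) (l : List Cone), i + 1 < j → swp i (swp j l) = swp j (swp i l)
  | i, j, [], _ => by cases j <;> cases i <;> rfl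
  | 0, j + 2, [a], _ => by cases j <;> simp [swp]
  | 0, j + 2, a :: b :: l, _ => by simp [swp]
  | i + 1, j + 1, a :: l, h => by simp [swp, swp_comm i j l (by omega)]

theorem swp_braid : ∀ (k : ℕ) (l : List Cone), k + 2 < l.length →
    swp k (swp (k + 1) (swp k l)) = swp (k + 1) (swp k (swp (k + 1) l))
  | k, [], h => by simp at h
  | 0, [a], h => by simp at h
  | 0, [a, b], h => by simp at h
  | 0, a :: b :: c :: l, _ => by simp [swp]
  | k + 1, a :: l, h => by
    simp only [swp]
    rw [swp_braid k l (by simp only [List.length_cons] at h; omega)]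

theorem spl_append_left : ∀ (i : ℕ) (l l' : List Cone), i < l.length →
    spl i (l ++ l') = spl i l ++ l'
  | i, [], l', h => by simp at h
  | 0, a :: l, l', _ => by simp [spl]
  | i + 1, a :: l, l', h => by
    simp only [spl, List.cons_append]
    rw [spl_append_left i l l' (by simpa using h)]

theorem spl_append_right : ∀ (l : List Cone) (i : ℕ) (l' : List Cone),
    spl (l.length + i) (l ++ l') = l ++ spl i l'
  | [], i, l' => by simp
  | a :: l, i, l' => by
    simp only [List.length_cons, List.cons_append]
    rw [show l.length + 1 + i = (l.length + i) + 1 by omega]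
    simp only [spl]
    rw [spl_append_right l i l']

theorem swp_append_right : ∀ (l : List Cone) (i : ℕ) (l' : List Cone),
    swp (l.length + i) (l ++ l') = l ++ swp i l'
  | [], i, l' => by simp
  | a :: l, i, l' => by
    simp only [List.length_cons, List.cons_append]
    rw [show l.length + 1 + i = (l.length + i) + 1 by omega]
    simp only [swp]
    rw [swp_append_right l i l']

/-- a property closed under adjacent swaps is closed under permutations -/
theorem perm_closed {P : List Cone → Prop} (hP : ∀ l k, k + 1 < l.length → P l → P (swp k l))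
    {l l' : List Cone} (hl : l.Perm l') : ∀ m, P (m ++ l) → P (m ++ l') := by
  induction hl with
  | nil => intro m h; exact h
  | cons a _ ih =>
    intro m h
    rename_i l1 l2 _
    have := ih (m ++ [a]) (by simpa using h)
    simpa using this
  | swap a b l =>
    intro m h
    have := hP (m ++ b :: a :: l) m.length (by simp) h
    have h2 := swp_append_right m 0 (b :: a :: l)
    rw [add_zero] at h2
    rw [h2] at this
    exact this
  | trans _ _ ih1 ih2 => intro m h; exact ih2 m (ih1 m h)

theorem perm_closed' {P : List Cone → Prop} (hP : ∀ l k, k + 1 < l.length → P l → P (swp k l))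
    {l l' : List Cone} (hl : l.Perm l') (h : P l) : P l' := perm_closed hP hl [] h

/-- binary trees -/
inductive Tr : Type
  | lf : Tr
  | nd : Tr → Tr → Tr

namespace Tr

def sz : Tr → ℕ
  | lf => 1
  | nd l r => l.sz + r.sz

theorem sz_pos : ∀ T : Tr, 0 < T.sz
  | lf => by simp [sz]
  | nd l r => by have := sz_pos l; simp only [sz]; omega

/-- leaves -/
def lv (c : Cone) : Tr → List Cone
  | lf => [c]
  | nd l r => lv (c.comp u0) l ++ lv (c.comp u1) r

theorem length_lv : ∀ (T : Tr) (c : Cone), (T.lv c).length = T.sz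
  | lf, c => rfl
  | nd l r, c => by simp [lv, sz, length_lv l, length_lv r]

/-- split the `j`-th leaf -/
def sp : ℕ → Tr → Tr
  | _, lf => nd lf lf
  | j, nd l r => if j < l.sz then nd (sp j l) r else nd l (sp (j - l.sz) r)

theorem sz_sp : ∀ (T : Tr) (j : ℕ), (sp j T).sz = T.sz + 1
  | lf, j => by simp [sp, sz]
  | nd l r, j => by
    unfold sp
    split_ifs
    · simp only [sz, sz_sp l j]; omega
    · simp only [sz, sz_sp r _]; omega

theorem lv_sp : ∀ (T : Tr) (j : ℕ) (c : Cone), j < T.sz → (sp j T).lv c = spl j (T.lv c)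
  | lf, j, c, h => by
    have : j = 0 := by simp only [sz] at h; omega
    subst this
    simp [sp, lv, spl]
  | nd l r, j, c, h => by
    unfold sp
    split_ifs with hj
    · simp only [lv]
      rw [lv_sp l j _ hj, spl_append_left _ _ _ (by rw [length_lv]; exact hj)]
    · simp only [lv]
      rw [lv_sp r _ _ (by simp only [sz] at h; omega)]
      have := spl_append_right (l.lv (c.comp u0)) (j - l.sz) (r.lv (c.comp u1))
      rw [length_lv, show l.sz + (j - l.sz) = j by omega] at this
      rw [this]

theorem lv_sub : ∀ (T : Tr) (c d : Cone), d ∈ T.lv c → ∃ e, d = c.comp e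
  | lf, c, d, h => by
    simp only [lv, List.mem_singleton] at h
    exact ⟨one, by rw [h]; simp⟩
  | nd l r, c, d, h => by
    simp only [lv, List.mem_append] at h
    rcases h with h | h
    · obtain ⟨e, rfl⟩ := lv_sub l _ _ h
      exact ⟨_, comp_assoc _ _ _⟩
    · obtain ⟨e, rfl⟩ := lv_sub r _ _ h
      exact ⟨_, comp_assoc _ _ _⟩

theorem u0u1_ne {c e f : Cone} : (c.comp u0).comp e ≠ (c.comp u1).comp f := by
  intro h
  rw [comp_assoc, comp_assoc] at h
  have h1 := comp_inj h
  have h2 : (u0.comp e).In ((u0.comp e).r : ℤ) := in_r _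
  have h3 : (u1.comp f).In ((u1.comp f).r : ℤ) := in_r _
  rw [← h1] at h3
  have h4 := in_of_comp h2
  rw [h1] at h3
  have h5 := in_of_comp h3
  rw [← h1] at h5
  exact Set.disjoint_left.mp u01_disj h4 h5

theorem lv_left {T : Tr} {l r : Tr} {c d : Cone} (hT : T = nd l r) :
    d ∈ l.lv (c.comp u0) ↔ d ∈ T.lv c ∧ ∃ e, d = (c.comp u0).comp e := by
  subst hT
  simp only [lv, List.mem_append]
  constructor
  · intro h
    exact ⟨Or.inl h, lv_sub _ _ _ h⟩
  · rintro ⟨h | h, e, he⟩
    · exact h
    · obtain ⟨f, hf⟩ := lv_sub _ _ _ h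
      exact absurd (he.symm.trans hf) u0u1_ne

theorem lv_right {T : Tr} {l r : Tr} {c d : Cone} (hT : T = nd l r) :
    d ∈ r.lv (c.comp u1) ↔ d ∈ T.lv c ∧ ∃ e, d = (c.comp u1).comp e := by
  subst hT
  simp only [lv, List.mem_append]
  constructor
  · intro h
    exact ⟨Or.inr h, lv_sub _ _ _ h⟩
  · rintro ⟨h | h, e, he⟩
    · obtain ⟨f, hf⟩ := lv_sub _ _ _ h
      exact absurd (hf.symm.trans he) u0u1_ne
    · exact h

theorem c_notin {l r : Tr} {c : Cone} : c ∉ (nd l r).lv c := by
  intro h
  simp only [lv, List.mem_append] at h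
  rcases h with h | h
  · obtain ⟨e, he⟩ := lv_sub _ _ _ h
    have := congrArg Cone.m he
    simp only [comp_m] at this
    have h2 : u0.m = 2 := rfl
    rw [h2] at this
    have := c.mpos
    have := e.mpos
    nlinarith
  · obtain ⟨e, he⟩ := lv_sub _ _ _ h
    have := congrArg Cone.m he
    simp only [comp_m] at this
    have h2 : u1.m = 2 := rfl
    rw [h2] at this
    have := c.mpos
    have := e.mpos
    nlinarith

theorem tree_unique : ∀ (T T' : Tr) (c : Cone), (∀ d, d ∈ T.lv c ↔ d ∈ T'.lv c) → T = T'
  | lf, lf, _, _ => rfl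
  | lf, nd l r, c, h => by
    exfalso
    exact c_notin ((h c).mp (by simp [lv]))
  | nd l r, lf, c, h => by
    exfalso
    exact c_notin ((h c).mpr (by simp [lv]))
  | nd l r, nd l' r', c, h => by
    have h1 : l = l' := tree_unique l l' (c.comp u0) (fun d => by
      rw [lv_left (T := nd l r) rfl, lv_left (T := nd l' r') rfl, h])
    have h2 : r = r' := tree_unique r r' (c.comp u1) (fun d => by
      rw [lv_right (T := nd l r) rfl, lv_right (T := nd l' r') rfl, h])
    rw [h1, h2]

theorem comp_disj {c d e : Cone} (h : Disjoint d.S e.S) : Disjoint (c.comp d).S (c.comp e).S := by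
  rw [Set.disjoint_left]
  intro n hn hn'
  obtain ⟨z, rfl⟩ := Cone.in_iff.mp (in_of_comp hn)
  rw [mem_S, in_comp_iff] at hn hn'
  exact Set.disjoint_left.mp h hn hn'

theorem lv_pair : ∀ (T : Tr) (c : Cone), (T.lv c).Pairwise (fun a b => Disjoint a.S b.S)
  | lf, c => by simp [lv]
  | nd l r, c => by
    simp only [lv]
    rw [List.pairwise_append]
    refine ⟨lv_pair l _, lv_pair r _, ?_⟩
    intro a ha b hb
    obtain ⟨e, rfl⟩ := lv_sub _ _ _ ha
    obtain ⟨f, rfl⟩ := lv_sub _ _ _ hb
    exact disj_comp (comp_disj u01_disj)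

theorem u01_cover (n : ℤ) : u0.In n ∨ u1.In n := by
  rw [Sys.u0_in, u1_in]
  omega

theorem lv_cover : ∀ (T : Tr) (c : Cone) (n : ℤ), c.In n → ∃ d ∈ T.lv c, d.In n
  | lf, c, n, h => ⟨c, by simp [lv], h⟩
  | nd l r, c, n, h => by
    obtain ⟨z, rfl⟩ := Cone.in_iff.mp h
    simp only [lv, List.mem_append]
    rcases u01_cover z with h1 | h1
    · obtain ⟨d, hd, hn⟩ := lv_cover l (c.comp u0) _ (in_comp_iff.mpr h1)
      exact ⟨d, Or.inl hd, hn⟩
    · obtain ⟨d, hd, hn⟩ := lv_cover r (c.comp u1) _ (in_comp_iff.mpr h1)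
      exact ⟨d, Or.inr hd, hn⟩

theorem lv_nodup (T : Tr) (c : Cone) : (T.lv c).Nodup := by
  refine (lv_pair T c).imp ?_
  intro a b hab h
  subst h
  exact Set.disjoint_left.mp hab (in_r a) (in_r a)

/-- extension of trees -/
inductive Ext : Tr → Tr → Prop
  | lf (T : Tr) : Ext lf T
  | nd {a b c d : Tr} : Ext a c → Ext b d → Ext (nd a b) (nd c d)

/-- a property closed under splitting is inherited by extensions -/
theorem ext_closed {T T' : Tr} (h : Ext T T') : ∀ (P : Tr → Prop),
    (∀ S j, j < S.sz → P S → P (sp j S)) → P T → P T' := by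
  induction h with
  | lf T =>
    intro P hP h0
    induction T generalizing P with
    | lf => exact h0
    | nd l r ihl ihr =>
      have h1 : P (nd lf lf) := by
        have := hP lf 0 (by simp [sz]) h0
        simpa [sp] using this
      have h2 : P (nd l lf) := ihl (fun l => P (nd l lf)) (fun S j hj hS => by
        have := hP (nd S lf) j (by simp only [sz]; omega) hS
        simp only [sp, if_pos hj] at this
        exact this) h1
      exact ihr (fun r => P (nd l r)) (fun S j hj hS => by
        have := hP (nd l S) (l.sz + j) (by simp only [sz]; omega) hS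
        simp only [sp, if_neg (by omega : ¬ l.sz + j < l.sz), Nat.add_sub_cancel_left] at this
        exact this) h2
  | nd _ _ ih1 ih2 =>
    rename_i a b c d _ _
    intro P hP h0
    have h2 : P (nd c b) := ih1 (fun l => P (nd l b)) (fun S j hj hS => by
        have := hP (nd S b) j (by simp only [sz]; omega) hS
        simp only [sp, if_pos hj] at this
        exact this) h0
    exact ih2 (fun r => P (nd c r)) (fun S j hj hS => by
        have := hP (nd c S) (c.sz + j) (by simp only [sz]; omega) hS
        simp only [sp, if_neg (by omega : ¬ c.sz + j < c.sz), Nat.add_sub_cancel_left] at this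
        exact this) h2

end Tr

end Pool.Agent.U640.CT
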