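import Pool.Agent.U640.CT.B2

set_option autoImplicit false

namespace Pool.Agent.U640.CT

open Cone

section
variable {Q : Type*} [Group Q] (x p t : ℕ → Q)

/-- the splitting element at level `n` -/
def yy (n i : ℕ) : Q := if i + 1 < n then x i else 1

/-- the transposition element at level `n` -/
def qq (n k : ℕ) : Q := if k + 2 < n then p k else t (n - 4)

end

section
variable {Q : Type*} [Group Q] {x p t : ℕ → Q} (F : Fam x p t)

include F

theorem U1 (n i k : ℕ) (hn : 4 ≤ n) (hk : k + 1 < n) (h : i < k) :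
    qq p t n k * yy x n i = yy x n i * qq p t (n + 1) (k + 1) := by
  unfold qq yy
  rw [if_pos (by omega : i + 1 < n)]
  by_cases h2 : k + 2 < n
  · rw [if_pos h2, if_pos (by omega)]
    exact F.B1 i k h
  · rw [if_neg h2, if_neg (by omega)]
    obtain ⟨M, rfl⟩ : ∃ M, n = M + 4 := ⟨n - 4, by omega⟩
    rw [show M + 4 + 1 - 4 = M + 1 by omega, show M + 4 - 4 = M by omega]
    exact F.T1 M i (by omega)

theorem U2 (n i k : ℕ) (hi : i < n) (h : k + 1 < i) :
    qq p t n k * yy x n i = yy x n i * qq p t (n + 1) k := by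
  unfold qq yy
  rw [if_pos (by omega : k + 2 < n), if_pos (by omega : k + 2 < n + 1)]
  by_cases h2 : i + 1 < n
  · rw [if_pos h2]
    exact F.B2 k i h
  · rw [if_neg h2]
    simp

theorem U3 (n k : ℕ) (hn : 4 ≤ n) (hk : k + 1 < n) :
    qq p t n k * yy x n k = yy x n (k + 1) * qq p t (n + 1) k * qq p t (n + 1) (k + 1) := by
  unfold qq yy
  rw [if_pos (by omega : k + 1 < n), if_pos (by omega : k + 2 < n + 1)]
  by_cases h2 : k + 2 < n
  · rw [if_pos h2, if_pos (by omega), if_pos (by omega)]
    exact F.B3 k
  · rw [if_neg h2, if_neg (by omega), if_neg (by omega)]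
    obtain ⟨M, rfl⟩ : ∃ M, n = M + 4 := ⟨n - 4, by omega⟩
    have : k = M + 2 := by omega
    subst this
    rw [show M + 4 + 1 - 4 = M + 1 by omega, show M + 4 - 4 = M by omega, one_mul]
    exact F.T2 M

theorem U4 (n k : ℕ) (hn : 4 ≤ n) (hk : k + 1 < n) :
    qq p t n k * yy x n (k + 1) = yy x n k * qq p t (n + 1) (k + 1) * qq p t (n + 1) k := by
  have h3 := U3 F n k hn hk
  have hs : ∀ m j, j + 1 < m → qq p t m j * qq p t m j = 1 := by
    intro m j _
    unfold qq
    split_ifs
    · exact F.C1 j
    · exact F.T3 _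
  have e1 := hs n k hk
  have e2 := hs (n + 1) k (by omega)
  have e3 := hs (n + 1) (k + 1) (by omega)
  set a := qq p t n k
  set b := qq p t (n + 1) k
  set c := qq p t (n + 1) (k + 1)
  set u := yy x n k
  set v := yy x n (k + 1)
  calc a * v = a * v * 1 * 1 := by group
    _ = a * v * (b * b) * 1 := by rw [e2]
    _ = a * v * b * 1 * b := by group
    _ = a * v * b * (c * c) * b := by rw [e3]
    _ = a * (v * b * c) * c * b := by group
    _ = a * (a * u) * c * b := by rw [h3]
    _ = (a * a) * u * c * b := by group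
    _ = _ := by rw [e1]; group

theorem QC1 (n k : ℕ) : qq p t n k * qq p t n k = 1 := by
  unfold qq
  split_ifs
  · exact F.C1 k
  · exact F.T3 _

theorem QC2 (n i j : ℕ) (hn : 4 ≤ n) (hj : j + 1 < n) (h : i + 1 < j) :
    qq p t n i * qq p t n j = qq p t n j * qq p t n i := by
  unfold qq
  rw [if_pos (by omega : i + 2 < n)]
  by_cases h2 : j + 2 < n
  · rw [if_pos h2]
    exact F.C2 i j h
  · rw [if_neg h2]
    exact F.T4 (n - 4) i (by omega)

theorem QC3 (n k : ℕ) (hn : 4 ≤ n) (hk : k + 2 < n) :
    qq p t n k * qq p t n (k + 1) * qq p t n k =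
      qq p t n (k + 1) * qq p t n k * qq p t n (k + 1) := by
  unfold qq
  rw [if_pos (by omega : k + 2 < n)]
  by_cases h2 : k + 1 + 2 < n
  · rw [if_pos h2]
    exact F.C3 k
  · rw [if_neg h2]
    obtain ⟨M, rfl⟩ : ∃ M, n = M + 4 := ⟨n - 4, by omega⟩
    have : k = M + 1 := by omega
    subst this
    rw [show M + 4 - 4 = M by omega]
    exact F.T5 M

end

section
variable {Q : Type*} [Group Q] (x p t : ℕ → Q)

/-- value of a tree rooted at position `k`, not the last one -/
def Tr.w : ℕ → Tr → Q
  | _, .lf => 1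
  | k, .nd l r => x k * Tr.w (k + 1) r * Tr.w k l

/-- value of a tree rooted at the last position `k` -/
def Tr.wl : ℕ → Tr → Q
  | _, .lf => 1
  | k, .nd l r => Tr.wl (k + 1) r * Tr.w x k l

end

section
variable {Q : Type*} [Group Q] {x p t : ℕ → Q} (F : Fam x p t)

include F

theorem W1 : ∀ (T : Tr) (k i : ℕ), i < k → T.w x k * x i = x i * T.w x (k + 1)
  | .lf, k, i, h => by simp [Tr.w]
  | .nd l r, k, i, h => by
    simp only [Tr.w]
    calc x k * Tr.w x (k + 1) r * Tr.w x k l * x i = x k * Tr.w x (k + 1) r * (Tr.w x k l * x i) := by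
          group
      _ = x k * (Tr.w x (k + 1) r * x i) * Tr.w x (k + 1) l := by rw [W1 l k i h]; group
      _ = (x k * x i) * Tr.w x (k + 1 + 1) r * Tr.w x (k + 1) l := by
          rw [W1 r (k + 1) i (by omega)]; group
      _ = _ := by rw [F.A i k h]; group

theorem W2 : ∀ (T : Tr) (k i : ℕ), k < i → x i * T.w x k = T.w x k * x (i + T.sz - 1)
  | .lf, k, i, h => by simp [Tr.w, Tr.sz]
  | .nd l r, k, i, h => by
    have hl := l.sz_pos
    have hr := r.sz_pos
    simp only [Tr.w, Tr.sz]
    calc x i * (x k * Tr.w x (k + 1) r * Tr.w x k l) = (x i * x k) * Tr.w x (k + 1) r * Tr.w x k l := by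
          group
      _ = x k * (x (i + 1) * Tr.w x (k + 1) r) * Tr.w x k l := by rw [F.A k i h]; group
      _ = x k * Tr.w x (k + 1) r * (x (i + 1 + r.sz - 1) * Tr.w x k l) := by
          rw [W2 r (k + 1) (i + 1) (by omega)]; group
      _ = x k * Tr.w x (k + 1) r * (Tr.w x k l * x (i + 1 + r.sz - 1 + l.sz - 1)) := by
          rw [W2 l k (i + 1 + r.sz - 1) (by omega)]
      _ = _ := by
          rw [show i + 1 + r.sz - 1 + l.sz - 1 = i + (l.sz + r.sz) - 1 by omega]; group

theorem W3 : ∀ (T : Tr) (k j : ℕ), j < T.sz → (T.sp j).w x k = T.w x k * x (k + j)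
  | .lf, k, j, h => by
    have : j = 0 := by simp only [Tr.sz] at h; omega
    subst this
    simp [Tr.sp, Tr.w]
  | .nd l r, k, j, h => by
    have hl := l.sz_pos
    unfold Tr.sp
    split_ifs with hj
    · simp only [Tr.w]
      rw [W3 l k j hj]; group
    · simp only [Tr.w]
      simp only [Tr.sz] at h
      rw [W3 r (k + 1) (j - l.sz) (by omega)]
      have := W2 F l k (k + 1 + (j - l.sz)) (by omega)
      rw [show k + 1 + (j - l.sz) + l.sz - 1 = k + j by omega] at this
      calc x k * (Tr.w x (k + 1) r * x (k + 1 + (j - l.sz))) * Tr.w x k l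
          = x k * Tr.w x (k + 1) r * (x (k + 1 + (j - l.sz)) * Tr.w x k l) := by group
        _ = _ := by rw [this]; group

theorem W4 : ∀ (T : Tr) (k j : ℕ), j < T.sz →
    (T.sp j).wl x k = T.wl x k * (if j + 1 < T.sz then x (k + j) else 1)
  | .lf, k, j, h => by
    have : j = 0 := by simp only [Tr.sz] at h; omega
    subst this
    simp [Tr.sp, Tr.w, Tr.wl, Tr.sz]
  | .nd l r, k, j, h => by
    have hl := l.sz_pos
    have hr := r.sz_pos
    unfold Tr.sp
    split_ifs with hj h2 h2
    · simp only [Tr.wl]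
      rw [W3 F l k j hj]; group
    · simp only [Tr.sz] at h2
      omega
    · simp only [Tr.wl]
      simp only [Tr.sz] at h h2
      rw [W4 r (k + 1) (j - l.sz) (by omega), if_pos (by omega)]
      have := W2 F l k (k + 1 + (j - l.sz)) (by omega)
      rw [show k + 1 + (j - l.sz) + l.sz - 1 = k + j by omega] at this
      calc Tr.wl x (k + 1) r * x (k + 1 + (j - l.sz)) * Tr.w x k l
          = Tr.wl x (k + 1) r * (x (k + 1 + (j - l.sz)) * Tr.w x k l) := by group
        _ = _ := by rw [this]; group
    · simp only [Tr.wl]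
      simp only [Tr.sz] at h h2
      rw [W4 r (k + 1) (j - l.sz) (by omega), if_neg (by omega)]
      group

theorem W4' (T : Tr) (j : ℕ) (h : j < T.sz) :
    (T.sp j).wl x 0 = T.wl x 0 * yy x T.sz j := by
  rw [W4 F T 0 j h]
  unfold yy
  rw [zero_add]

end

/-- reachable marked partitions with their values -/
inductive DD {Q : Type*} [Group Q] (x p t : ℕ → Q) : List Cone → Q → Prop
  | tree (T : Tr) (h : 4 ≤ T.sz) : DD x p t (T.lv one) (T.wl x 0)
  | swap (l : List Cone) (d : Q) (k : ℕ) (hk : k + 1 < l.length) :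
      DD x p t l d → DD x p t (swp k l) (d * qq p t l.length k)

section
variable {Q : Type*} [Group Q] {x p t : ℕ → Q}

theorem DD.len {l : List Cone} {d : Q} (h : DD x p t l d) : 4 ≤ l.length := by
  induction h with
  | tree T h => rw [Tr.length_lv]; exact h
  | swap l d k hk _ ih => rw [length_swp]; exact ih

theorem DD.tr {l : List Cone} {d : Q} (h : DD x p t l d) : ∃ T : Tr, 4 ≤ T.sz ∧
    l.Perm (T.lv one) := by
  induction h with
  | tree T h => exact ⟨T, h, List.Perm.refl _⟩
  | swap l d k hk _ ih =>
    obtain ⟨T, hT, hp⟩ := ih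
    refine ⟨T, hT, ?_⟩
    have : ∀ (k : ℕ) (l : List Cone), (swp k l).Perm l := by
      intro k
      induction k with
      | zero =>
        intro l
        match l with
        | [] => exact List.Perm.refl _
        | [a] => exact List.Perm.refl _
        | a :: b :: l => exact List.Perm.swap a b l
      | succ k ih =>
        intro l
        match l with
        | [] => exact List.Perm.refl _
        | a :: l =>
          simp only [swp]
          exact (ih l).cons a
    exact (this k l).trans hp

theorem DD.exists_of_perm {l l' : List Cone} (hp : l.Perm l') (h : ∃ d, DD x p t l d) :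
    ∃ d, DD x p t l' d := by
  refine perm_closed' (P := fun l => ∃ d, DD x p t l d) ?_ hp h
  rintro l k hk ⟨d, hd⟩
  exact ⟨_, DD.swap l d k hk hd⟩

theorem DD.spl (F : Fam x p t) {l : List Cone} {d : Q} (h : DD x p t l d) : ∀ i, i < l.length →
    DD x p t (spl i l) (d * yy x l.length i) := by
  induction h with
  | tree T h =>
    intro i hi
    rw [Tr.length_lv] at hi ⊢
    rw [← W4' F T i hi, ← Tr.lv_sp T i one hi]
    exact DD.tree _ (by rw [Tr.sz_sp]; omega)
  | swap l d k hk hd ih =>
    intro i hi
    have hlen := hd.len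
    rw [length_swp] at hi ⊢
    rcases lt_trichotomy i k with h1 | h1 | h1
    · rw [spl_swp1 i k l h1, mul_assoc, U1 F _ _ _ hlen hk h1, ← mul_assoc]
      have := DD.swap _ _ (k + 1) (by rw [length_spl i l hi]; omega) (ih i hi)
      rw [length_spl i l hi] at this
      exact this
    · subst h1
      rw [spl_swp3 i l hk, mul_assoc, U3 F _ _ hlen hk]
      have h2 := DD.swap _ _ i (by rw [length_spl (i + 1) l hk]; omega) (ih (i + 1) hk)
      have h3 := DD.swap _ _ (i + 1) (by rw [length_swp, length_spl (i + 1) l hk]; omega) h2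
      rw [length_swp, length_spl (i + 1) l hk] at h3
      simp only [← mul_assoc] at h3 ⊢
      exact h3
    · rcases Nat.lt_or_ge (k + 1) i with h1' | h1'
      · rw [spl_swp2 i k l h1', mul_assoc, U2 F _ _ _ hi h1', ← mul_assoc]
        have := DD.swap _ _ k (by rw [length_spl i l hi]; omega) (ih i hi)
        rw [length_spl i l hi] at this
        exact this
      · have : i = k + 1 := by omega
        subst this
        rw [spl_swp4 k l hk, mul_assoc, U4 F _ _ hlen hk]
        have h2 := DD.swap _ _ (k + 1) (by rw [length_spl k l (by omega)]; omega) (ih k (by omega))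
        have h3 := DD.swap _ _ k (by rw [length_swp, length_spl k l (by omega)]; omega) h2
        rw [length_swp, length_spl k l (by omega)] at h3
        simp only [← mul_assoc] at h3 ⊢
        exact h3

end

end Pool.Agent.U640.CT
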