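import Pool.Agent.U640.CT.B3
import Pool.Agent.U640.CT.B0

set_option autoImplicit false

namespace Pool.Agent.U640.CT

open Cone

theorem swp_get : ∀ (k : ℕ) (l : List Cone), k + 1 < l.length → ∀ i,
    (swp k l)[i]? = l[if i = k then k + 1 else if i = k + 1 then k else i]?
  | k, [], h, _ => by simp at h
  | 0, [a], h, _ => by simp at h
  | 0, a :: b :: l, _, i => by
    match i with
    | 0 => simp [swp]
    | 1 => simp [swp]
    | i + 2 => simp [swp]
  | k + 1, a :: l, h, i => by
    match i with
    | 0 => simp [swp]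
    | i + 1 =>
      simp only [swp, List.getElem?_cons_succ]
      rw [swp_get k l (by simpa using h) i]
      simp only [Nat.add_right_cancel_iff]
      split_ifs <;> simp

theorem swp_ofFn {m : ℕ} (G : Fin (m + 1) → Cone) (k : Fin m) :
    swp k (List.ofFn G) = List.ofFn (G ∘ Equiv.swap k.castSucc k.succ) := by
  apply List.ext_getElem?
  intro i
  rw [swp_get _ _ (by rw [List.length_ofFn]; omega)]
  simp only [List.getElem?_ofFn]
  have hk := k.2
  by_cases h1 : i = k
  · subst h1
    rw [if_pos rfl, dif_pos (by omega), dif_pos (by omega)]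
    simp only [Function.comp_apply]
    congr 2
    have : (⟨(k : ℕ), by omega⟩ : Fin (m + 1)) = k.castSucc := rfl
    rw [this, Equiv.swap_apply_left]
    rfl
  · rw [if_neg h1]
    by_cases h2 : i = k + 1
    · subst h2
      rw [if_pos rfl, dif_pos (by omega), dif_pos (by omega)]
      simp only [Function.comp_apply]
      congr 2
      have : (⟨(k : ℕ) + 1, by omega⟩ : Fin (m + 1)) = k.succ := rfl
      rw [this, Equiv.swap_apply_right]
      rfl
    · rw [if_neg h2]
      by_cases h3 : i < m + 1
      · rw [dif_pos h3, dif_pos h3]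
        simp only [Function.comp_apply]
        congr 2
        rw [Equiv.swap_apply_of_ne_of_ne]
        · intro h; apply h1; exact congrArg Fin.val h
        · intro h; apply h2; exact congrArg Fin.val h
      · rw [dif_neg h3, dif_neg h3]

theorem ofFn_getD (l : List Cone) {m : ℕ} (h : l.length = m + 1) :
    List.ofFn (fun i : Fin (m + 1) => l.getD i one) = l := by
  apply List.ext_getElem
  · simp [h]
  · intro i h1 h2
    simp only [List.getElem_ofFn]
    rw [List.getD_eq_getElem _ _ h2]

section
variable {Q : Type} [Group Q] {x p t : ℕ → Q} (F : Fam x p t)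

include F in
theorem exists_rho : ∃ ρ : (m : ℕ) → Equiv.Perm (Fin (m + 1)) →* Q, ∀ m, 3 ≤ m →
    ∀ k : Fin m, ρ m (Equiv.swap k.castSucc k.succ) = qq p t (m + 1) k := by
  have : ∀ m, ∃ f : Equiv.Perm (Fin (m + 1)) →* Q, 3 ≤ m →
      ∀ k : Fin m, f (Equiv.swap k.castSucc k.succ) = qq p t (m + 1) k := by
    intro m
    by_cases hm : 3 ≤ m
    · obtain ⟨f, hf⟩ := cox_lift (Q := Q) m (fun k => qq p t (m + 1) k)
        (fun i _ => QC1 F _ _) (fun i hi => QC3 F _ _ (by omega) (by omega))
        (fun i j hij hj => QC2 F _ _ _ (by omega) (by omega) hij)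
      exact ⟨f, fun _ => hf⟩
    · exact ⟨1, fun h => absurd h hm⟩
  choose ρ hρ using this
  exact ⟨ρ, hρ⟩

theorem DD.norm {ρ : (m : ℕ) → Equiv.Perm (Fin (m + 1)) →* Q} (hρ : ∀ m, 3 ≤ m →
    ∀ k : Fin m, ρ m (Equiv.swap k.castSucc k.succ) = qq p t (m + 1) k) {l : List Cone} {d : Q}
    (h : DD x p t l d) : ∃ (T : Tr) (m : ℕ) (σ : Equiv.Perm (Fin (m + 1))), T.sz = m + 1 ∧ 3 ≤ m ∧
      l.Perm (T.lv one) ∧ l = List.ofFn (fun i : Fin (m + 1) => (T.lv one).getD (σ i) one) ∧
      d = T.wl x 0 * ρ m σ := by
  induction h with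
  | tree T h =>
    obtain ⟨m, hm⟩ : ∃ m, T.sz = m + 1 := ⟨T.sz - 1, by omega⟩
    refine ⟨T, m, 1, hm, by omega, List.Perm.refl _, ?_, by simp⟩
    have := ofFn_getD (T.lv one) (m := m) (by rw [Tr.length_lv]; exact hm)
    exact this.symm
  | swap l d k hk hd ih =>
    obtain ⟨T, m, σ, h1, h2, h3, h4, h5⟩ := ih
    have hlen : l.length = m + 1 := by rw [h3.length_eq, Tr.length_lv, h1]
    rw [hlen] at hk ⊢
    refine ⟨T, m, σ * Equiv.swap (⟨k, by omega⟩ : Fin m).castSucc (⟨k, by omega⟩ : Fin m).succ,
      h1, h2, ?_, ?_, ?_⟩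
    · have : ∀ (k : ℕ) (l : List Cone), (swp k l).Perm l := by
        intro k
        induction k with
        | zero =>
          intro l
          match l with
          | [] => exact List.Perm.refl _
          | [a] => exact List.Perm.refl _
          | a :: b :: l => exact List.Perm.swap a b l
        | succ k ih =>
          intro l
          match l with
          | [] => exact List.Perm.refl _
          | a :: l =>
            simp only [swp]
            exact (ih l).cons a
      exact (this k l).trans h3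
    · conv_lhs => rw [h4]
      have := swp_ofFn (fun i : Fin (m + 1) => (T.lv one).getD (σ i) one) (⟨k, by omega⟩ : Fin m)
      simp only at this
      rw [this]
      rfl
    · rw [h5, map_mul, hρ m h2, mul_assoc]

include F in
/-- the value is a function of the marked partition -/
theorem DD.uniq {l : List Cone} {d d' : Q} (h : DD x p t l d) (h' : DD x p t l d') : d = d' := by
  obtain ⟨ρ, hρ⟩ := exists_rho F
  obtain ⟨T, m, σ, h1, h2, h3, h4, h5⟩ := h.norm hρ
  obtain ⟨T', m', σ', h1', h2', h3', h4', h5'⟩ := h'.norm hρ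
  have hT : T = T' := Tr.tree_unique T T' one (fun d => by
    rw [← h3.mem_iff, ← h3'.mem_iff])
  subst hT
  have hm : m = m' := by omega
  subst hm
  have hσ : σ = σ' := by
    rw [h4] at h4'
    have hf := List.ofFn_injective h4'
    ext i
    have hi : (T.lv one).getD (σ i) one = (T.lv one).getD (σ' i) one := congrFun hf i
    have hlen : (T.lv one).length = m + 1 := by rw [Tr.length_lv, h1]
    rw [List.getD_eq_getElem _ _ (by rw [hlen]; exact (σ i).2),
      List.getD_eq_getElem _ _ (by rw [hlen]; exact (σ' i).2)] at hi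
    exact (List.Nodup.getElem_inj_iff (Tr.lv_nodup T one)).mp hi
  rw [h5, h5', hσ]

end

end Pool.Agent.U640.CT
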