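import Pool.Agent.U640.CT.B4

set_option autoImplicit false

namespace Pool.Agent.U640.CT

open Cone

/-- `g` maps the list of cones `l` to the list of cones `l'` -/
def Act (g : Equiv.Perm ℤ) (l l' : List Cone) : Prop := List.Forall₂ (Mp g) l l'

theorem Act.len {g : Equiv.Perm ℤ} {l l' : List Cone} (h : Act g l l') : l.length = l'.length :=
  List.Forall₂.length_eq h

theorem Act.spl {g : Equiv.Perm ℤ} : ∀ {l l' : List Cone} (_ : Act g l l') (i : ℕ),
    Act g (spl i l) (spl i l')
  | [], [], _, i => by cases i <;> exact List.Forall₂.nil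
  | a :: l, b :: l', h, 0 => by
    rcases h with _ | ⟨h1, h2⟩
    exact List.Forall₂.cons (h1.sub _) (List.Forall₂.cons (h1.sub _) h2)
  | a :: l, b :: l', h, i + 1 => by
    rcases h with _ | ⟨h1, h2⟩
    exact List.Forall₂.cons h1 (Act.spl h2 i)

theorem Act.swp {g : Equiv.Perm ℤ} : ∀ {l l' : List Cone} (_ : Act g l l') (i : ℕ),
    Act g (swp i l) (swp i l')
  | [], [], _, i => by cases i <;> exact List.Forall₂.nil
  | [a], [b], h, 0 => h
  | a :: b :: l, c :: d :: l', h, 0 => by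
    rcases h with _ | ⟨h1, _ | ⟨h2, h3⟩⟩
    exact List.Forall₂.cons h2 (List.Forall₂.cons h1 h3)
  | [a], b :: c :: l', h, 0 => by
    have := Act.len h
    simp at this
  | a :: b :: l, [c], h, 0 => by
    have := Act.len h
    simp at this
  | a :: l, b :: l', h, i + 1 => by
    rcases h with _ | ⟨h1, h2⟩
    simp only [CT.swp]
    exact List.Forall₂.cons h1 (Act.swp h2 i)

theorem Act.mul {g h : Equiv.Perm ℤ} : ∀ {l l' l'' : List Cone}, Act h l l' → Act g l' l'' →
    Act (g * h) l l''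
  | [], [], [], _, _ => List.Forall₂.nil
  | a :: l, b :: l', c :: l'', h1, h2 => by
    rcases h1 with _ | ⟨h1, h1'⟩
    rcases h2 with _ | ⟨h2, h2'⟩
    exact List.Forall₂.cons (h1.mul h2) (Act.mul h1' h2')

theorem Act.inv {g : Equiv.Perm ℤ} : ∀ {l l' : List Cone}, Act g l l' → Act g⁻¹ l' l
  | [], [], _ => List.Forall₂.nil
  | a :: l, b :: l', h1 => by
    rcases h1 with _ | ⟨h1, h1'⟩
    exact List.Forall₂.cons h1.inv (Act.inv h1')

theorem Act.one : ∀ (l : List Cone), Act 1 l l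
  | [] => List.Forall₂.nil
  | a :: l => List.Forall₂.cons (Mp.one a) (Act.one l)

theorem Act.uniq {g : Equiv.Perm ℤ} : ∀ {l l' l'' : List Cone}, Act g l l' → Act g l l'' → l' = l''
  | [], [], [], _, _ => rfl
  | a :: l, b :: l', c :: l'', h1, h2 => by
    rcases h1 with _ | ⟨h1, h1'⟩
    rcases h2 with _ | ⟨h2, h2'⟩
    rw [h1.uniq h2, Act.uniq h1' h2']

theorem Act.mem {g : Equiv.Perm ℤ} : ∀ {l l' : List Cone}, Act g l l' → ∀ c ∈ l,
    ∃ d ∈ l', Mp g c d
  | [], [], _, c, hc => by simp at hc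
  | a :: l, b :: l', h, c, hc => by
    rcases h with _ | ⟨h1, h1'⟩
    rcases List.mem_cons.mp hc with rfl | hc
    · exact ⟨b, by simp, h1⟩
    · obtain ⟨d, hd, hM⟩ := Act.mem h1' c hc
      exact ⟨d, by simp [hd], hM⟩

/-- covering lists -/
def Cov (l : List Cone) : Prop := ∀ n : ℤ, ∃ c ∈ l, c.In n

/-- pairwise disjoint lists -/
def PD (l : List Cone) : Prop := l.Pairwise (fun c d => Disjoint c.S d.S)

theorem Act.ext {g h : Equiv.Perm ℤ} : ∀ {l l' : List Cone}, Cov l → Act g l l' → Act h l l' →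
    g = h := by
  intro l l' hc h1 h2
  ext n
  obtain ⟨c, hc, hn⟩ := hc n
  obtain ⟨z, rfl⟩ := Cone.in_iff.mp hn
  have key : ∀ {l l' : List Cone}, Act g l l' → Act h l l' → ∀ c ∈ l, ∃ d, Mp g c d ∧ Mp h c d := by
    intro l
    induction l with
    | nil => intro l' _ _ c hc; simp at hc
    | cons a l ih =>
      intro l' h1 h2 c hc
      cases h1 with
      | cons a1 b1 =>
        cases h2 with
        | cons a2 b2 =>
          rcases List.mem_cons.mp hc with rfl | hc
          · exact ⟨_, a1, a2⟩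
          · exact ih b1 b2 c hc
  obtain ⟨d, h3, h4⟩ := key h1 h2 c hc
  rw [h3 z, h4 z]

theorem Act.cov {g : Equiv.Perm ℤ} {l l' : List Cone} (h : Act g l l') (hc : Cov l) : Cov l' := by
  intro n
  obtain ⟨c, hc, hn⟩ := hc (g⁻¹ n)
  obtain ⟨d, hd, hM⟩ := h.mem c hc
  refine ⟨d, hd, ?_⟩
  have := hM.in_iff (n := g⁻¹ n)
  rw [pai] at this
  exact this.mpr hn

theorem Act.pd {g : Equiv.Perm ℤ} : ∀ {l l' : List Cone}, Act g l l' → PD l → PD l'
  | [], [], _, _ => List.Pairwise.nil
  | a :: l, b :: l', h, hp => by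
    rcases h with _ | ⟨h1, h1'⟩
    have hp' := List.pairwise_cons.mp hp
    refine List.Pairwise.cons ?_ (Act.pd h1' hp'.2)
    intro d hd
    obtain ⟨c, hc, hM⟩ := Act.mem (Act.inv h1') d hd
    have := hp'.1 c hc
    rw [Set.disjoint_left] at this ⊢
    intro n hn hn'
    apply this (a := g⁻¹ n)
    · exact (h1.inv.in_iff).mpr hn
    · exact (hM.in_iff).mpr hn'

theorem Act_T {S : Finset ℕ} {g : Equiv.Perm ℤ} {l l' : List Cone} (h : Act g l l') (hc : Cov l)
    (hs : ∀ c ∈ l, Sm S c.m) (hs' : ∀ c ∈ l', Sm S c.m) : g ∈ T S := by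
  have hm : ∀ i : Fin l.length, ∃ d : Cone, Sm S d.m ∧ Mp g (l.get i) d := fun i => by
    obtain ⟨d, hd, hM⟩ := h.mem (l.get i) (List.get_mem _ _)
    exact ⟨d, hs' d hd, hM⟩
  choose D hD1 hD2 using hm
  refine T_of_cover (fun i : Fin l.length => l.get i) D (fun i => hs _ (List.get_mem _ _)) hD1 ?_ hD2
  intro n
  obtain ⟨c, hc, hn⟩ := hc n
  obtain ⟨i, hi⟩ := List.get_of_mem hc
  exact ⟨i, by rw [hi]; exact hn⟩

/-- double all members -/
def dbl (l : List Cone) : List Cone := l.flatMap (fun c => [c.comp u0, c.comp u1])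

theorem dbl_cons (a : Cone) (l : List Cone) : dbl (a :: l) = a.comp u0 :: a.comp u1 :: dbl l := rfl

theorem dbl_append (l l' : List Cone) : dbl (l ++ l') = dbl l ++ dbl l' := by
  simp [dbl]

theorem Act.dbl {g : Equiv.Perm ℤ} : ∀ {l l' : List Cone}, Act g l l' → Act g (dbl l) (dbl l')
  | [], [], _ => List.Forall₂.nil
  | a :: l, b :: l', h => by
    rcases h with _ | ⟨h1, h1'⟩
    exact List.Forall₂.cons (h1.sub _) (List.Forall₂.cons (h1.sub _) (Act.dbl h1'))

theorem Act.dbln {g : Equiv.Perm ℤ} {l l' : List Cone} (h : Act g l l') (n : ℕ) :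
    Act g (CT.dbl^[n] l) (CT.dbl^[n] l') := by
  induction n generalizing l l' with
  | zero => exact h
  | succ n ih => exact ih h.dbl

/-- a property closed under splittings is closed under doubling -/
theorem dbl_closed {P : List Cone → Prop} (hP : ∀ l i, i < l.length → P l → P (spl i l)) :
    ∀ (l m : List Cone), P (m ++ l) → P (m ++ dbl l)
  | [], m, h => h
  | a :: l, m, h => by
    have h1 := dbl_closed hP l (m ++ [a]) (by simpa using h)
    have h2 := hP _ m.length (by simp) h1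
    have h3 := spl_append_right m 0 (a :: dbl l)
    rw [add_zero] at h3
    rw [List.append_assoc] at h2
    simp only [List.singleton_append] at h2
    rw [h3] at h2
    simpa [spl, dbl_cons] using h2

theorem dbln_closed {P : List Cone → Prop} (hP : ∀ l i, i < l.length → P l → P (spl i l))
    (n : ℕ) {l : List Cone} (h : P l) : P (dbl^[n] l) := by
  induction n generalizing l with
  | zero => exact h
  | succ n ih => exact ih (dbl_closed hP l [] h)

namespace Tr

/-- split all leaves -/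
def ex : Tr → Tr
  | lf => nd lf lf
  | nd l r => nd (ex l) (ex r)

theorem lv_ex : ∀ (T : Tr) (c : Cone), T.ex.lv c = dbl (T.lv c)
  | lf, c => by simp [ex, lv, dbl]
  | nd l r, c => by simp only [ex, lv]; rw [lv_ex l, lv_ex r, dbl_append]

theorem lv_exn (n : ℕ) (T : Tr) (c : Cone) : (ex^[n] T).lv c = dbl^[n] (T.lv c) := by
  induction n generalizing T with
  | zero => rfl
  | succ n ih => rw [Function.iterate_succ_apply, Function.iterate_succ_apply, ih, lv_ex]

def dep : Tr → ℕ
  | lf => 0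
  | nd l r => max l.dep r.dep + 1

theorem exn_nd (n : ℕ) (a b : Tr) : ex^[n] (nd a b) = nd (ex^[n] a) (ex^[n] b) := by
  induction n generalizing a b with
  | zero => rfl
  | succ n ih =>
    rw [Function.iterate_succ_apply, Function.iterate_succ_apply, Function.iterate_succ_apply]
    exact ih _ _

theorem ext_exn : ∀ (S : Tr) (n : ℕ) (T : Tr), S.dep ≤ n → Ext S (ex^[n] T)
  | lf, n, T, _ => Ext.lf _
  | nd a b, 0, T, h => by simp [dep] at h
  | nd a b, n + 1, T, h => by
    simp only [dep] at h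
    rw [Function.iterate_succ_apply]
    have : ∃ c d, T.ex = nd c d := by
      cases T with
      | lf => exact ⟨_, _, rfl⟩
      | nd l r => exact ⟨_, _, rfl⟩
    obtain ⟨c, d, hcd⟩ := this
    rw [hcd, exn_nd]
    exact Ext.nd (ext_exn a n c (by omega)) (ext_exn b n d (by omega))

/-- the comb -/
def RC : ℕ → Tr
  | 0 => lf
  | n + 1 => nd lf (RC n)

theorem RC_sz : ∀ n, (RC n).sz = n + 1
  | 0 => rfl
  | n + 1 => by simp only [RC, sz, RC_sz n]; omega

theorem RC_sp : ∀ n, (RC n).sp n = RC (n + 1)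
  | 0 => rfl
  | n + 1 => by
    have h := RC_sp n
    unfold RC sp
    rw [if_neg (by simp [sz])]
    simp only [sz, Nat.add_sub_cancel]
    rw [h]

theorem RC_wl {Q : Type*} [Group Q] (x : ℕ → Q) : ∀ n k, (RC n).wl x k = 1
  | 0, k => rfl
  | n + 1, k => by
    simp only [RC, wl, w]
    rw [RC_wl x n]
    simp

end Tr

/-- the comb partition with `n + 1` members -/
def cl (n : ℕ) : List Cone := (Tr.RC n).lv one

theorem cl_len (n : ℕ) : (cl n).length = n + 1 := by
  unfold cl; rw [Tr.length_lv, Tr.RC_sz]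

theorem cl_succ (n : ℕ) : spl n (cl n) = cl (n + 1) := by
  unfold cl
  rw [← Tr.RC_sp, Tr.lv_sp _ _ _ (by rw [Tr.RC_sz]; omega)]

theorem cov_lv (T : Tr) : Cov (T.lv one) := fun n => Tr.lv_cover T one n (by simp [one, Cone.In])

theorem cov_cl (n : ℕ) : Cov (cl n) := cov_lv _

/-- the semantic requirements -/
structure Mod {Q : Type*} [Group Q] (x p t : ℕ → Q) (π : Q →* Equiv.Perm ℤ) : Prop where
  mx : ∀ i, Act (π (x i)) (cl (i + 2)) (spl i (cl (i + 1)))
  mp : ∀ k, Act (π (p k)) (cl (k + 2)) (swp k (cl (k + 2)))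
  mt : ∀ M, Act (π (t M)) (cl (M + 3)) (swp (M + 2) (cl (M + 3)))

section
variable {Q : Type*} [Group Q] {x p t : ℕ → Q} {π : Q →* Equiv.Perm ℤ} (hm : Mod x p t π)

include hm

theorem Mod.ex : ∀ i k, Act (π (x i)) (cl (i + 2 + k)) (spl i (cl (i + 1 + k))) := by
  intro i k
  induction k with
  | zero => exact hm.mx i
  | succ k ih =>
    have h1 := ih.spl (i + 2 + k)
    rw [cl_succ] at h1
    have h2 : spl (i + 2 + k) (spl i (cl (i + 1 + k))) = spl i (cl (i + 1 + (k + 1))) := by
      rw [show i + 1 + (k + 1) = (i + 1 + k) + 1 by omega, ← cl_succ (i + 1 + k),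
        spl_spl i (i + 1 + k) _ (by omega), show i + 1 + k + 1 = i + 2 + k by omega]
    rw [h2] at h1
    exact h1

theorem Mod.ex' (i n : ℕ) (h : i + 1 ≤ n) : Act (π (x i)) (cl (n + 1)) (spl i (cl n)) := by
  obtain ⟨k, rfl⟩ : ∃ k, n = i + 1 + k := ⟨n - i - 1, by omega⟩
  have := Mod.ex hm i k
  rw [show i + 2 + k = i + 1 + k + 1 by omega] at this
  exact this

theorem Mod.ep : ∀ i k, Act (π (p i)) (cl (i + 2 + k)) (swp i (cl (i + 2 + k))) := by
  intro i k
  induction k with
  | zero => exact hm.mp i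
  | succ k ih =>
    have h1 := ih.spl (i + 2 + k)
    rw [cl_succ, spl_swp2 _ _ _ (by omega), cl_succ] at h1
    exact h1

theorem Mod.ep' (i n : ℕ) (h : i + 2 ≤ n) : Act (π (p i)) (cl n) (swp i (cl n)) := by
  obtain ⟨k, rfl⟩ : ∃ k, n = i + 2 + k := ⟨n - i - 2, by omega⟩
  exact Mod.ep hm i k

theorem Mod.ay (n i : ℕ) (h : i ≤ n) : Act (π (yy x (n + 1) i)) (cl (n + 1)) (spl i (cl n)) := by
  unfold yy
  split_ifs with h1
  · exact Mod.ex' hm i n (by omega)
  · have : i = n := by omega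
    subst this
    rw [map_one, cl_succ]
    exact Act.one _

theorem Mod.aq (n k : ℕ) (hn : 3 ≤ n) (h : k + 1 ≤ n) :
    Act (π (qq p t (n + 1) k)) (cl n) (swp k (cl n)) := by
  unfold qq
  split_ifs with h1
  · exact Mod.ep' hm k n (by omega)
  · have := hm.mt (n - 3)
    rw [show n + 1 - 4 = n - 3 by omega]
    rw [show n - 3 + 3 = n by omega, show n - 3 + 2 = k by omega] at this
    exact this

theorem Mod.tr (F : Fam x p t) (T : Tr) : Act (π (T.wl x 0)) (cl (T.sz - 1)) (T.lv one) := by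
  refine Tr.ext_closed (Tr.Ext.lf T) (fun T => Act (π (T.wl x 0)) (cl (T.sz - 1)) (T.lv one)) ?_ ?_
  · intro S j hj hS
    have hs := S.sz_pos
    obtain ⟨n, hn⟩ : ∃ n, S.sz = n + 1 := ⟨S.sz - 1, by omega⟩
    rw [Tr.sz_sp, hn, Tr.lv_sp _ _ _ hj, W4' F S j hj, map_mul]
    rw [hn, Nat.add_sub_cancel] at hS
    have h1 := Mod.ay hm n j (by omega)
    rw [Nat.add_sub_cancel, hn]
    exact h1.mul (hS.spl j)
  · simp only [Tr.wl, map_one]
    exact Act.one _

theorem Mod.dd (F : Fam x p t) {l : List Cone} {d : Q} (h : DD x p t l d) :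
    Act (π d) (cl (l.length - 1)) l := by
  induction h with
  | tree T h =>
    rw [Tr.length_lv]
    exact Mod.tr hm F T
  | swap l d k hk hd ih =>
    have hlen := hd.len
    rw [length_swp, map_mul]
    obtain ⟨n, hn⟩ : ∃ n, l.length = n + 1 := ⟨l.length - 1, by omega⟩
    rw [hn] at hk ih hlen ⊢
    rw [Nat.add_sub_cancel] at ih ⊢
    exact (Mod.aq hm n k (by omega) (by omega)).mul (ih.swp k)

end

section
variable {Q : Type} [Group Q] (x p t : ℕ → Q) (π : Q →* Equiv.Perm ℤ)

/-- `s` acts correctly on the marked partition `l` -/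
def Good (s : Q) (l : List Cone) : Prop :=
  ∃ d l', DD x p t l d ∧ Act (π s) l l' ∧ DD x p t l' (s * d)

variable {x p t π}

theorem Good.spl (F : Fam x p t) {s : Q} {l : List Cone} (h : Good x p t π s l) (i : ℕ)
    (hi : i < l.length) : Good x p t π s (spl i l) := by
  obtain ⟨d, l', h1, h2, h3⟩ := h
  refine ⟨_, _, h1.spl F i hi, h2.spl i, ?_⟩
  have := h3.spl F i (by rw [← h2.len]; exact hi)
  rw [← h2.len, mul_assoc] at this
  exact this

theorem Good.swp {s : Q} {l : List Cone} (h : Good x p t π s l) (k : ℕ)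
    (hk : k + 1 < l.length) : Good x p t π s (swp k l) := by
  obtain ⟨d, l', h1, h2, h3⟩ := h
  refine ⟨_, _, DD.swap _ _ k hk h1, h2.swp k, ?_⟩
  have := DD.swap _ _ k (by rw [← h2.len]; exact hk) h3
  rw [← h2.len, mul_assoc] at this
  exact this

theorem Good.perm {s : Q} {l l' : List Cone} (hp : l.Perm l') (h : Good x p t π s l) :
    Good x p t π s l' :=
  perm_closed' (P := Good x p t π s) (fun _ k hk h => h.swp k hk) hp h

theorem Good.inv {s : Q} {l : List Cone} (h : Good x p t π s l) : ∃ T : Tr,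
    Good x p t π s⁻¹ (T.lv one) := by
  obtain ⟨d, l', h1, h2, h3⟩ := h
  obtain ⟨T, hT, hp⟩ := h3.tr
  refine ⟨T, Good.perm hp ⟨s * d, l, h3, ?_, ?_⟩⟩
  · rw [map_inv]; exact h2.inv
  · rw [inv_mul_cancel_left]; exact h1

theorem dbln_perm {l l' : List Cone} (h : l.Perm l') (n : ℕ) : (dbl^[n] l).Perm (dbl^[n] l') := by
  induction n generalizing l l' with
  | zero => exact h
  | succ n ih => exact ih (h.flatMap_right _)

/-- composition of good actions -/
theorem Good.mul (F : Fam x p t) {s h : Q} {T : Tr} (hs : Good x p t π s (T.lv one))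
    {l : List Cone} (hh : Good x p t π h l) : Good x p t π (s * h) (dbl^[T.dep] l) := by
  obtain ⟨d0, l', h1, h2, h3⟩ := id hh
  obtain ⟨d, l1, g1, g2, g3⟩ := dbln_closed (P := Good x p t π h)
    (fun _ i hi hl => hl.spl F i hi) T.dep hh
  have hl1 : l1 = dbl^[T.dep] l' := g2.uniq (h2.dbln T.dep)
  subst hl1
  obtain ⟨T', hT', hp⟩ := h3.tr
  have hs2 : Good x p t π s ((Tr.ex^[T.dep] T').lv one) :=
    Tr.ext_closed (Tr.ext_exn T T.dep T' le_rfl) (fun T => Good x p t π s (T.lv one))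
      (fun S j hj hS => by
        rw [Tr.lv_sp _ _ _ hj]
        exact hS.spl F j (by rw [Tr.length_lv]; exact hj)) hs
  rw [Tr.lv_exn] at hs2
  have hs3 : Good x p t π s (dbl^[T.dep] l') := Good.perm (dbln_perm hp T.dep).symm hs2
  obtain ⟨e, l2, k1, k2, k3⟩ := hs3
  have he : e = h * d := k1.uniq F g3
  subst he
  refine ⟨d, l2, g1, ?_, ?_⟩
  · rw [map_mul]; exact g2.mul k2
  · rw [mul_assoc]; exact k3

theorem DD_cl (n : ℕ) (hn : 3 ≤ n) : DD x p t (cl n) 1 := by
  have := DD.tree (x := x) (p := p) (t := t) (Tr.RC n) (by rw [Tr.RC_sz]; omega)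
  rw [Tr.RC_wl] at this
  exact this

theorem good_gen (F : Fam x p t) (hm : Mod x p t π) {s : Q}
    (hs : s ∈ Set.range x ∪ Set.range p ∪ Set.range t) :
    ∃ T : Tr, Good x p t π s (T.lv one) := by
  rcases hs with (⟨i, rfl⟩ | ⟨k, rfl⟩) | ⟨M, rfl⟩
  · refine ⟨Tr.RC (i + 3 + 1), 1, spl i (cl (i + 3)), DD_cl _ (by omega), Mod.ex' hm i (i + 3) (by omega), ?_⟩
    have := (DD_cl (x := x) (p := p) (t := t) (i + 3) (by omega)).spl F i (by rw [cl_len]; omega)
    rw [cl_len] at this
    unfold yy at this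
    rw [if_pos (by omega)] at this
    rw [one_mul] at this
    rw [mul_one]
    exact this
  · refine ⟨Tr.RC (k + 3), 1, swp k (cl (k + 3)), DD_cl _ (by omega), Mod.ep' hm k (k + 3) (by omega), ?_⟩
    have := DD.swap _ _ k (by rw [cl_len]; omega)
      (DD_cl (x := x) (p := p) (t := t) (k + 3) (by omega))
    rw [cl_len] at this
    unfold qq at this
    rw [if_pos (by omega)] at this
    rw [one_mul] at this
    rw [mul_one]
    exact this
  · refine ⟨Tr.RC (M + 3), 1, swp (M + 2) (cl (M + 3)), DD_cl _ (by omega), hm.mt M, ?_⟩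
    have := DD.swap _ _ (M + 2) (by rw [cl_len]; omega)
      (DD_cl (x := x) (p := p) (t := t) (M + 3) (by omega))
    rw [cl_len] at this
    unfold qq at this
    rw [if_neg (by omega)] at this
    rw [one_mul] at this
    rw [mul_one]
    exact this

theorem all_good (F : Fam x p t) (hm : Mod x p t π)
    (hg : Subgroup.closure (Set.range x ∪ Set.range p ∪ Set.range t) = ⊤) (h : Q) :
    ∃ l, Good x p t π h l := by
  have hh : h ∈ Subgroup.closure (Set.range x ∪ Set.range p ∪ Set.range t) := by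
    rw [hg]; exact Subgroup.mem_top _
  induction hh using Subgroup.closure_induction_left with
  | one => exact ⟨cl 3, 1, cl 3, DD_cl 3 le_rfl, by rw [map_one]; exact Act.one _,
      by rw [one_mul]; exact DD_cl 3 le_rfl⟩
  | mul_left y hy h hh ih =>
    obtain ⟨l, hl⟩ := ih
    obtain ⟨T, hT⟩ := good_gen F hm hy
    exact ⟨_, Good.mul F hT hl⟩
  | inv_mul_cancel y hy h hh ih =>
    obtain ⟨l, hl⟩ := ih
    obtain ⟨T, hT⟩ := good_gen F hm hy
    obtain ⟨T', hT'⟩ := Good.inv hT
    exact ⟨_, Good.mul F hT' hl⟩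

theorem pi_inj (F : Fam x p t) (hm : Mod x p t π)
    (hg : Subgroup.closure (Set.range x ∪ Set.range p ∪ Set.range t) = ⊤) :
    Function.Injective π := by
  rw [injective_iff_map_eq_one]
  intro h hh
  obtain ⟨l, d, l', h1, h2, h3⟩ := all_good F hm hg h
  rw [hh] at h2
  have : l' = l := h2.uniq (Act.one l)
  subst this
  have h4 := h1.uniq F h3
  have h5 : h * d = 1 * d := by rw [← h4, one_mul]
  exact mul_right_cancel h5

end

end Pool.Agent.U640.CT
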