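import Pool.Agent.U640.CT.B5

set_option autoImplicit false

namespace Pool.Agent.U640.CT

open Cone

theorem part_of_list {l : List Cone} (hp : PD l) (hc : Cov l) :
    IsPart (fun i : Fin l.length => l.get i) := by
  intro n
  obtain ⟨c, hc, hn⟩ := hc n
  obtain ⟨i, hi⟩ := List.get_of_mem hc
  refine ⟨i, by simp only; rw [hi]; exact hn, ?_⟩
  intro j hj
  by_contra hne
  unfold PD at hp
  rw [List.pairwise_iff_get] at hp
  rcases lt_or_gt_of_ne hne with h | h
  · have := hp _ _ h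
    exact Set.disjoint_left.mp this hj (by rw [hi]; exact hn)
  · have := hp _ _ h
    exact Set.disjoint_left.mp this (by rw [hi]; exact hn) hj

theorem exists_act {l l' : List Cone} (hp : PD l) (hc : Cov l) (hp' : PD l') (hc' : Cov l')
    (hlen : l.length = l'.length) : ∃ g, Act g l l' := by
  have h1 := part_of_list hp hc
  have h2 := (part_of_list hp' hc').comp_equiv (finCongr hlen)
  obtain ⟨g, hg⟩ := exists_perm h1 h2
  refine ⟨g, ?_⟩
  unfold Act
  rw [List.forall₂_iff_get]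
  refine ⟨hlen, fun i h3 h4 => ?_⟩
  exact hg ⟨i, h3⟩

theorem PD.perm {l l' : List Cone} (h : l.Perm l') (hp : PD l) : PD l' :=
  (h.pairwise_iff (fun {_ _} hd => Disjoint.symm hd)).mp hp

theorem Cov.perm {l l' : List Cone} (h : l.Perm l') (hc : Cov l) : Cov l' := by
  intro n
  obtain ⟨c, hc, hn⟩ := hc n
  exact ⟨c, h.mem_iff.mp hc, hn⟩

theorem swp_perm : ∀ (k : ℕ) (l : List Cone), (swp k l).Perm l := by
  intro k
  induction k with
  | zero =>
    intro l
    match l with
    | [] => exact List.Perm.refl _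
    | [a] => exact List.Perm.refl _
    | a :: b :: l => exact List.Perm.swap a b l
  | succ k ih =>
    intro l
    match l with
    | [] => exact List.Perm.refl _
    | a :: l =>
      simp only [swp]
      exact (ih l).cons a

theorem pd_cl (n : ℕ) : PD (cl n) := Tr.lv_pair _ _

theorem exists_model : ∃ X P T : ℕ → Equiv.Perm ℤ,
    Mod X P T (MonoidHom.id (Equiv.Perm ℤ)) := by
  have h1 : ∀ i : ℕ, ∃ g, Act g (cl (i + 2)) (spl i (cl (i + 1))) := fun i => by
    have e : spl i (cl (i + 1)) = ((Tr.RC (i + 1)).sp i).lv one := by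
      rw [Tr.lv_sp _ _ _ (by rw [Tr.RC_sz]; omega)]
      rfl
    rw [e]
    refine exists_act (pd_cl _) (cov_cl _) (Tr.lv_pair _ _) (cov_lv _) ?_
    rw [cl_len, Tr.length_lv, Tr.sz_sp, Tr.RC_sz]
  have h2 : ∀ k n : ℕ, ∃ g, Act g (cl n) (swp k (cl n)) := fun k n =>
    exists_act (pd_cl _) (cov_cl _) ((pd_cl _).perm (swp_perm _ _).symm)
      ((cov_cl _).perm (swp_perm _ _).symm) (by rw [length_swp])
  choose X hX using h1
  choose G hG using h2
  exact ⟨X, fun k => G k (k + 2), fun M => G (M + 2) (M + 3),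
    ⟨fun i => hX i, fun k => hG _ _, fun M => hG _ _⟩⟩

section
variable {X P T : ℕ → Equiv.Perm ℤ} (hm : Mod X P T (MonoidHom.id (Equiv.Perm ℤ)))

include hm

theorem mX (i n : ℕ) (h : i + 1 ≤ n) : Act (X i) (cl (n + 1)) (spl i (cl n)) := Mod.ex' hm i n h
theorem mP (k n : ℕ) (h : k + 2 ≤ n) : Act (P k) (cl n) (swp k (cl n)) := Mod.ep' hm k n h
theorem mT (M : ℕ) : Act (T M) (cl (M + 3)) (swp (M + 2) (cl (M + 3))) := hm.mt M

theorem model_fam : Fam X P T where
  A i j h := by
    have l1 := (mX hm i (j + 2) (by omega)).mul ((mX hm j (j + 1) le_rfl).spl i)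
    have l2 := (mX hm (j + 1) (j + 2) le_rfl).mul ((mX hm i (j + 1) (by omega)).spl (j + 1))
    rw [spl_spl i j _ h] at l1
    exact Act.ext (cov_cl _) l1 l2
  B1 i k h := by
    have l1 := (mX hm i (k + 2) (by omega)).mul ((mP hm k (k + 2) le_rfl).spl i)
    have l2 := (mP hm (k + 1) (k + 3) le_rfl).mul ((mX hm i (k + 2) (by omega)).swp (k + 1))
    rw [spl_swp1 i k _ h] at l1
    exact Act.ext (cov_cl _) l1 l2
  B2 k i h := by
    have l1 := (mX hm i (i + 1) le_rfl).mul ((mP hm k (i + 1) (by omega)).spl i)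
    have l2 := (mP hm k (i + 2) (by omega)).mul ((mX hm i (i + 1) le_rfl).swp k)
    rw [spl_swp2 i k _ h] at l1
    exact Act.ext (cov_cl _) l1 l2
  B3 i := by
    have l1 := (mX hm i (i + 2) (by omega)).mul ((mP hm i (i + 2) le_rfl).spl i)
    have l2 := (mP hm (i + 1) (i + 3) le_rfl).mul ((mP hm i (i + 3) (by omega)).swp (i + 1))
    have l3 := l2.mul (((mX hm (i + 1) (i + 2) le_rfl).swp i).swp (i + 1))
    rw [spl_swp3 i _ (by rw [cl_len]; omega)] at l1
    rw [← mul_assoc] at l3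
    exact Act.ext (cov_cl _) l1 l3
  C1 i := by
    have l1 := (mP hm i (i + 2) le_rfl).mul ((mP hm i (i + 2) le_rfl).swp i)
    rw [swp_swp] at l1
    exact Act.ext (cov_cl _) l1 (Act.one _)
  C2 i j h := by
    have l1 := (mP hm j (j + 2) le_rfl).mul ((mP hm i (j + 2) (by omega)).swp j)
    have l2 := (mP hm i (j + 2) (by omega)).mul ((mP hm j (j + 2) le_rfl).swp i)
    rw [← swp_comm i j _ h] at l1
    exact Act.ext (cov_cl _) l1 l2
  C3 i := by
    have a := mP hm i (i + 3) (by omega)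
    have b := mP hm (i + 1) (i + 3) le_rfl
    have l1 := (a.mul (b.swp i)).mul ((a.swp (i + 1)).swp i)
    have l2 := (b.mul (a.swp (i + 1))).mul ((b.swp i).swp (i + 1))
    rw [← mul_assoc] at l1 l2
    rw [swp_braid i _ (by rw [cl_len]; omega)] at l1
    exact Act.ext (cov_cl _) l1 l2
  T1 M i h := by
    have l1 := (mX hm i (M + 3) (by omega)).mul ((mT hm M).spl i)
    have l2 := (mT hm (M + 1)).mul ((mX hm i (M + 3) (by omega)).swp (M + 1 + 2))
    rw [spl_swp1 i _ _ h] at l1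
    exact Act.ext (cov_cl _) l1 l2
  T2 M := by
    have l1 := (mX hm (M + 2) (M + 3) (by omega)).mul ((mT hm M).spl (M + 2))
    have l2 := (mT hm (M + 1)).mul ((mP hm (M + 2) (M + 4) le_rfl).swp (M + 1 + 2))
    rw [spl_swp3 _ _ (by rw [cl_len]; omega), cl_succ] at l1
    exact Act.ext (cov_cl _) l1 l2
  T3 M := by
    have l1 := (mT hm M).mul ((mT hm M).swp (M + 2))
    rw [swp_swp] at l1
    exact Act.ext (cov_cl _) l1 (Act.one _)
  T4 M k h := by
    have l1 := (mT hm M).mul ((mP hm k (M + 3) (by omega)).swp (M + 2))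
    have l2 := (mP hm k (M + 3) (by omega)).mul ((mT hm M).swp k)
    rw [← swp_comm k (M + 2) _ (by omega)] at l1
    exact Act.ext (cov_cl _) l1 l2
  T5 M := by
    have a := mP hm (M + 1) (M + 3) (by omega)
    have b := mT hm M
    have l1 := (a.mul (b.swp (M + 1))).mul ((a.swp (M + 2)).swp (M + 1))
    have l2 := (b.mul (a.swp (M + 2))).mul ((b.swp (M + 1)).swp (M + 2))
    rw [← mul_assoc] at l1 l2
    rw [swp_braid (M + 1) _ (by rw [cl_len]; omega)] at l1
    exact Act.ext (cov_cl _) l1 l2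

end

section words

/-- the families generated by five elements -/
def gx {Q : Type*} [Group Q] (a : Fin 5 → Q) : ℕ → Q
  | 0 => a 0
  | i + 1 => (a 0 ^ i)⁻¹ * a 1 * a 0 ^ i

def gp {Q : Type*} [Group Q] (a : Fin 5 → Q) : ℕ → Q
  | 0 => a 2
  | i + 1 => (a 0 ^ i)⁻¹ * a 3 * a 0 ^ i

def gt {Q : Type*} [Group Q] (a : Fin 5 → Q) (M : ℕ) : Q := (a 0 ^ M)⁻¹ * a 4 * a 0 ^ M

theorem gshf {Q : Type*} [Group Q] (a : Fin 5 → Q) : Shf (gx a) (gp a) (gt a) where
  sx i hi := by
    obtain ⟨k, rfl⟩ : ∃ k, i = k + 1 := ⟨i - 1, by omega⟩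
    simp only [gx, pow_succ]
    group
  sp i hi := by
    obtain ⟨k, rfl⟩ : ∃ k, i = k + 1 := ⟨i - 1, by omega⟩
    simp only [gx, gp, pow_succ]
    group
  st M := by
    simp only [gx, gt, pow_succ]
    group

theorem map_gx {Q R : Type*} [Group Q] [Group R] (f : Q →* R) (a : Fin 5 → Q) (i : ℕ) :
    f (gx a i) = gx (fun j => f (a j)) i := by
  cases i <;> simp [gx]

theorem map_gp {Q R : Type*} [Group Q] [Group R] (f : Q →* R) (a : Fin 5 → Q) (i : ℕ) :
    f (gp a i) = gp (fun j => f (a j)) i := by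
  cases i <;> simp [gp]

theorem map_gt {Q R : Type*} [Group Q] [Group R] (f : Q →* R) (a : Fin 5 → Q) (i : ℕ) :
    f (gt a i) = gt (fun j => f (a j)) i := by
  simp [gt]

theorem baseRel_map {Q R : Type*} [Group Q] [Group R] (f : Q →* R) (x p t : ℕ → Q) :
    baseRel (fun i => f (x i)) (fun i => f (p i)) (fun i => f (t i)) =
      (baseRel x p t).map (fun r => (f r.1, f r.2)) := by
  simp [baseRel]

theorem shf_of_fam {Q : Type*} [Group Q] {x p t : ℕ → Q} (F : Fam x p t) : Shf x p t where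
  sx i hi := by have := F.A 0 i (by omega); rw [mul_assoc, this]; group
  sp i hi := by have := F.B1 0 i (by omega); rw [mul_assoc, this]; group
  st M := by have := F.T1 M 0 (by omega); rw [mul_assoc, this]; group

theorem gx_eq {Q : Type*} [Group Q] {x p t : ℕ → Q} (F : Fam x p t) (i : ℕ) :
    gx ![x 0, x 1, p 0, p 1, t 0] i = x i := by
  have h := shf_of_fam F
  cases i with
  | zero => rfl
  | succ i =>
    rw [show i + 1 = 1 + i by omega, shx h i 1 le_rfl, show 1 + i = i + 1 by omega]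
    rfl

theorem gp_eq {Q : Type*} [Group Q] {x p t : ℕ → Q} (F : Fam x p t) (i : ℕ) :
    gp ![x 0, x 1, p 0, p 1, t 0] i = p i := by
  have h := shf_of_fam F
  cases i with
  | zero => rfl
  | succ i =>
    rw [show i + 1 = 1 + i by omega, shp h i 1 le_rfl, show 1 + i = i + 1 by omega]
    rfl

theorem gt_eq {Q : Type*} [Group Q] {x p t : ℕ → Q} (F : Fam x p t) (i : ℕ) :
    gt ![x 0, x 1, p 0, p 1, t 0] i = t i := by
  have h := shf_of_fam F
  have := sht h i 0
  rw [zero_add] at this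
  rw [this]
  rfl

/-- the relators -/
def relW : Set (FreeGroup (Fin 5)) :=
  {y | ∃ r ∈ baseRel (gx FreeGroup.of) (gp FreeGroup.of) (gt FreeGroup.of), y = r.1 * r.2⁻¹}

theorem relW_finite : relW.Finite := by
  have : relW = (fun r : FreeGroup (Fin 5) × FreeGroup (Fin 5) => r.1 * r.2⁻¹) ''
      {r | r ∈ baseRel (gx (FreeGroup.of : Fin 5 → _)) (gp FreeGroup.of) (gt FreeGroup.of)} := by
    ext y
    simp only [relW, Set.mem_ofPred_eq, Set.mem_image]
    constructor
    · rintro ⟨r, hr, rfl⟩; exact ⟨r, hr, rfl⟩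
    · rintro ⟨r, hr, rfl⟩; exact ⟨r, hr, rfl⟩
  rw [this]
  exact (List.finite_toSet _).image _

abbrev QV := PresentedGroup relW

def aV : Fin 5 → QV := PresentedGroup.of

theorem famV : Fam (gx aV) (gp aV) (gt aV) := by
  apply fam_of_base (gshf aV)
  have h1 : (fun i => PresentedGroup.mk relW (gx FreeGroup.of i)) = gx aV := by
    funext i; rw [map_gx]; rfl
  have h2 : (fun i => PresentedGroup.mk relW (gp FreeGroup.of i)) = gp aV := by
    funext i; rw [map_gp]; rfl
  have h3 : (fun i => PresentedGroup.mk relW (gt FreeGroup.of i)) = gt aV := by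
    funext i; rw [map_gt]; rfl
  rw [← h1, ← h2, ← h3, baseRel_map]
  intro r hr
  rw [List.mem_map] at hr
  obtain ⟨r', hr', rfl⟩ := hr
  have : PresentedGroup.mk relW (r'.1 * r'.2⁻¹) = 1 :=
    PresentedGroup.one_of_mem ⟨r', hr', rfl⟩
  rw [map_mul, map_inv, mul_inv_eq_one] at this
  exact this

theorem genV : Subgroup.closure (Set.range (gx aV) ∪ Set.range (gp aV) ∪ Set.range (gt aV)) = ⊤ := by
  rw [eq_top_iff, ← PresentedGroup.closure_range_of relW]
  apply Subgroup.closure_mono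
  rintro _ ⟨i, rfl⟩
  fin_cases i
  · exact Or.inl (Or.inl ⟨0, rfl⟩)
  · exact Or.inl (Or.inl ⟨1, by simp [gx, aV]⟩)
  · exact Or.inl (Or.inr ⟨0, rfl⟩)
  · exact Or.inl (Or.inr ⟨1, by simp [gp, aV]⟩)
  · exact Or.inr ⟨0, by simp [gt, aV]⟩

end words

section final
variable {X P T' : ℕ → Equiv.Perm ℤ} (hm : Mod X P T' (MonoidHom.id (Equiv.Perm ℤ)))

theorem lift_rel {G : Type*} [Group G] {x p t : ℕ → G} (F : Fam x p t) : ∀ r ∈ relW,
    FreeGroup.lift ![x 0, x 1, p 0, p 1, t 0] r = 1 := by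
  rintro _ ⟨r, hr, rfl⟩
  have h := base_of_fam F
  have h1 : (fun i => FreeGroup.lift ![x 0, x 1, p 0, p 1, t 0] (gx FreeGroup.of i)) = x := by
    funext i; rw [map_gx]
    simp only [FreeGroup.lift_apply_of]
    exact gx_eq F i
  have h2 : (fun i => FreeGroup.lift ![x 0, x 1, p 0, p 1, t 0] (gp FreeGroup.of i)) = p := by
    funext i; rw [map_gp]
    simp only [FreeGroup.lift_apply_of]
    exact gp_eq F i
  have h3 : (fun i => FreeGroup.lift ![x 0, x 1, p 0, p 1, t 0] (gt FreeGroup.of i)) = t := by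
    funext i; rw [map_gt]
    simp only [FreeGroup.lift_apply_of]
    exact gt_eq F i
  have h4 := baseRel_map (FreeGroup.lift ![x 0, x 1, p 0, p 1, t 0]) (gx FreeGroup.of)
    (gp FreeGroup.of) (gt FreeGroup.of)
  rw [h1, h2, h3] at h4
  have h5 := h (_, _) (by rw [h4]; exact List.mem_map_of_mem hr)
  rw [map_mul, map_inv, mul_inv_eq_one]
  exact h5

noncomputable def piV : QV →* Equiv.Perm ℤ := PresentedGroup.toGroup (lift_rel (model_fam hm))

theorem piV_mk (w : FreeGroup (Fin 5)) : piV hm (PresentedGroup.mk relW w) =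
    FreeGroup.lift ![X 0, X 1, P 0, P 1, T' 0] w := rfl

theorem piV_x (i : ℕ) : piV hm (gx aV i) = X i := by
  rw [map_gx]
  have : (fun j => piV hm (aV j)) = ![X 0, X 1, P 0, P 1, T' 0] := by
    funext j
    exact PresentedGroup.toGroup.of _
  rw [this]
  exact gx_eq (model_fam hm) i

theorem piV_p (i : ℕ) : piV hm (gp aV i) = P i := by
  rw [map_gp]
  have : (fun j => piV hm (aV j)) = ![X 0, X 1, P 0, P 1, T' 0] := by
    funext j
    exact PresentedGroup.toGroup.of _
  rw [this]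
  exact gp_eq (model_fam hm) i

theorem piV_t (i : ℕ) : piV hm (gt aV i) = T' i := by
  rw [map_gt]
  have : (fun j => piV hm (aV j)) = ![X 0, X 1, P 0, P 1, T' 0] := by
    funext j
    exact PresentedGroup.toGroup.of _
  rw [this]
  exact gt_eq (model_fam hm) i

theorem modV : Mod (gx aV) (gp aV) (gt aV) (piV hm) where
  mx i := by rw [piV_x]; exact hm.mx i
  mp i := by rw [piV_p]; exact hm.mp i
  mt i := by rw [piV_t]; exact hm.mt i

theorem piV_inj : Function.Injective (piV hm) := pi_inj famV (modV hm) genV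

end final

end Pool.Agent.U640.CT
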