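import Pool.Agent.U640.CT.B6

set_option autoImplicit false

namespace Pool.Agent.U640.CT

open Cone

theorem lv_map : ∀ (T : Tr) (c d : Cone), T.lv (c.comp d) = (T.lv d).map c.comp
  | .lf, c, d => by simp [Tr.lv]
  | .nd l r, c, d => by
    simp only [Tr.lv, List.map_append]
    rw [comp_assoc, comp_assoc, lv_map l, lv_map r]

theorem sm2_even {c : Cone} (h : Sm {2} c.m) (h1 : c.m ≠ 1) : 2 ∣ c.m := by
  obtain ⟨q, hq, hqm⟩ := Nat.exists_prime_and_dvd h1
  have := h.2 q hq hqm
  rw [Finset.mem_singleton] at this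
  rw [← this]
  exact hqm

theorem split_cone {c : Cone} (h : 2 ∣ c.m) : (∃ e, c = u0.comp e) ∨ (∃ e, c = u1.comp e) := by
  rcases Tr.u01_cover (c.r : ℤ) with h1 | h1
  · obtain ⟨e, he, _⟩ := factor (c := u0) h h1
    exact Or.inl ⟨e, he⟩
  · obtain ⟨e, he, _⟩ := factor (c := u1) h h1
    exact Or.inr ⟨e, he⟩

theorem split_list : ∀ l : List Cone, (∀ c ∈ l, 2 ∣ c.m) → ∃ l0 l1 : List Cone,
    l.Perm (l0.map u0.comp ++ l1.map u1.comp)
  | [], _ => ⟨[], [], List.Perm.refl _⟩
  | c :: l, h => by
    obtain ⟨l0, l1, hp⟩ := split_list l (fun d hd => h d (by simp [hd]))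
    rcases split_cone (h c (by simp)) with ⟨e, he⟩ | ⟨e, he⟩
    · refine ⟨e :: l0, l1, ?_⟩
      rw [he]
      simp only [List.map_cons, List.cons_append]
      exact hp.cons _
    · refine ⟨l0, e :: l1, ?_⟩
      rw [he]
      simp only [List.map_cons]
      exact (hp.cons _).trans List.perm_middle.symm

theorem one_in (n : ℤ) : one.In n := by simp [one, Cone.In]

theorem exists_tree : ∀ (n : ℕ) (l : List Cone), l.length = n → (∀ c ∈ l, Sm {2} c.m) →
    PD l → Cov l → ∃ T : Tr, l.Perm (T.lv one) := by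
  intro n
  induction n using Nat.strong_induction_on with
  | _ n ih =>
    intro l hl hs hp hc
    by_cases h1 : ∃ c ∈ l, c.m = 1
    · obtain ⟨c, hcl, hcm⟩ := h1
      have hco : c = one := by
        have := c.h
        ext
        · show c.r = 0; omega
        · exact hcm
      subst hco
      obtain ⟨s, t, rfl⟩ := List.append_of_mem hcl
      have hp' : PD (one :: (s ++ t)) := hp.perm List.perm_middle
      have hnil : s ++ t = [] := by
        rw [List.eq_nil_iff_forall_not_mem]
        intro d hd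
        have := (List.pairwise_cons.mp hp').1 d hd
        exact Set.disjoint_left.mp this (one_in _) (in_r d)
      rw [List.append_eq_nil_iff] at hnil
      obtain ⟨rfl, rfl⟩ := hnil
      exact ⟨Tr.lf, List.Perm.refl _⟩
    · push Not at h1
      obtain ⟨l0, l1, hperm⟩ := split_list l (fun c hc => sm2_even (hs c hc) (h1 c hc))
      have hp' := hp.perm hperm
      have hc' := hc.perm hperm
      have hs' : ∀ c ∈ l0.map u0.comp ++ l1.map u1.comp, Sm {2} c.m := fun c hc =>
        hs c (hperm.mem_iff.mpr hc)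
      have hPD := List.pairwise_append.mp hp'
      have cov0 : Cov l0 := by
        intro n
        obtain ⟨c, hc, hn⟩ := hc' (u0.ev n)
        rw [List.mem_append, List.mem_map, List.mem_map] at hc
        rcases hc with ⟨e, he, rfl⟩ | ⟨e, he, rfl⟩
        · exact ⟨e, he, in_comp_iff.mp hn⟩
        · exact absurd (in_of_comp hn) (fun h => Set.disjoint_left.mp u01_disj (ev_in _ _) h)
      have cov1 : Cov l1 := by
        intro n
        obtain ⟨c, hc, hn⟩ := hc' (u1.ev n)
        rw [List.mem_append, List.mem_map, List.mem_map] at hc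
        rcases hc with ⟨e, he, rfl⟩ | ⟨e, he, rfl⟩
        · exact absurd (in_of_comp hn) (fun h => Set.disjoint_left.mp u01_disj h (ev_in _ _))
        · exact ⟨e, he, in_comp_iff.mp hn⟩
      have pd0 : PD l0 := by
        have := hPD.1
        rw [List.pairwise_map] at this
        refine this.imp ?_
        intro a b hab
        rw [Set.disjoint_left] at hab ⊢
        intro n hn hn'
        exact hab (a := u0.ev n) (in_comp_iff.mpr hn) (in_comp_iff.mpr hn')
      have pd1 : PD l1 := by
        have := hPD.2.1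
        rw [List.pairwise_map] at this
        refine this.imp ?_
        intro a b hab
        rw [Set.disjoint_left] at hab ⊢
        intro n hn hn'
        exact hab (a := u1.ev n) (in_comp_iff.mpr hn) (in_comp_iff.mpr hn')
      have sm0 : ∀ c ∈ l0, Sm {2} c.m := fun c hc => by
        have := hs' (u0.comp c) (by simp only [List.mem_append, List.mem_map]; exact Or.inl ⟨c, hc, rfl⟩)
        exact this.dvd (by rw [comp_m]; exact dvd_mul_left _ _)
      have sm1 : ∀ c ∈ l1, Sm {2} c.m := fun c hc => by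
        have := hs' (u1.comp c) (by simp only [List.mem_append, List.mem_map]; exact Or.inr ⟨c, hc, rfl⟩)
        exact this.dvd (by rw [comp_m]; exact dvd_mul_left _ _)
      have hlen : l.length = l0.length + l1.length := by
        rw [hperm.length_eq]; simp
      have pos0 : 0 < l0.length := by
        obtain ⟨c, hc, _⟩ := cov0 0
        exact List.length_pos_of_mem hc
      have pos1 : 0 < l1.length := by
        obtain ⟨c, hc, _⟩ := cov1 0
        exact List.length_pos_of_mem hc
      obtain ⟨T0, h0⟩ := ih l0.length (by omega) l0 rfl sm0 pd0 cov0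
      obtain ⟨T1, h1'⟩ := ih l1.length (by omega) l1 rfl sm1 pd1 cov1
      refine ⟨Tr.nd T0 T1, hperm.trans ?_⟩
      simp only [Tr.lv]
      have e0 : T0.lv (one.comp u0) = (T0.lv one).map u0.comp := by
        have := lv_map T0 u0 one
        rw [comp_one] at this
        rw [one_comp, this]
      have e1 : T1.lv (one.comp u1) = (T1.lv one).map u1.comp := by
        have := lv_map T1 u1 one
        rw [comp_one] at this
        rw [one_comp, this]
      rw [e0, e1]
      exact (h0.map _).append (h1'.map _)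

theorem lv_sm : ∀ (T : Tr) (c : Cone), Sm {2} c.m → ∀ d ∈ T.lv c, Sm {2} d.m
  | .lf, c, h, d, hd => by
    simp only [Tr.lv, List.mem_singleton] at hd
    rw [hd]; exact h
  | .nd l r, c, h, d, hd => by
    simp only [Tr.lv, List.mem_append] at hd
    have h2 : Sm ({2} : Finset ℕ) 2 := Sm.prime Nat.prime_two (by simp)
    rcases hd with hd | hd
    · exact lv_sm l _ (by rw [comp_m]; exact h.mul h2) d hd
    · exact lv_sm r _ (by rw [comp_m]; exact h.mul h2) d hd

theorem dbl_dvd {l : List Cone} {N : ℕ} (h : ∀ c ∈ l, N ∣ c.m) : ∀ c ∈ dbl l, N * 2 ∣ c.m := by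
  intro c hc
  unfold dbl at hc
  rw [List.mem_flatMap] at hc
  obtain ⟨d, hd, hc⟩ := hc
  simp only [List.mem_cons, List.not_mem_nil, or_false] at hc
  rcases hc with rfl | rfl
  · rw [comp_m]; exact mul_dvd_mul (h d hd) dvd_rfl
  · rw [comp_m]; exact mul_dvd_mul (h d hd) dvd_rfl

theorem dbln_dvd (n : ℕ) {l : List Cone} {N : ℕ} (h : ∀ c ∈ l, N ∣ c.m) :
    ∀ c ∈ dbl^[n] l, N * 2 ^ n ∣ c.m := by
  induction n generalizing l N with
  | zero => simpa using h
  | succ n ih =>
    intro c hc
    have := ih (dbl_dvd h) c hc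
    rw [pow_succ']
    rw [← mul_assoc]
    exact this

theorem sm2_pow {N : ℕ} (h : Sm {2} N) : ∃ k, N = 2 ^ k :=
  ⟨_, Nat.eq_prime_pow_of_unique_prime_dvd h.1 (fun {d} hd hdN => by
    have := h.2 d hd hdN
    rwa [Finset.mem_singleton] at this)⟩

theorem act_exists {S : Finset ℕ} {g : Equiv.Perm ℤ} : ∀ (l : List Cone),
    (∀ c ∈ l, ∃ d : Cone, Sm S d.m ∧ Mp g c d) → ∃ l', Act g l l' ∧ ∀ d ∈ l', Sm S d.m
  | [], _ => ⟨[], List.Forall₂.nil, by simp⟩
  | c :: l, h => by
    obtain ⟨d, hd, hM⟩ := h c (by simp)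
    obtain ⟨l', h1, h2⟩ := act_exists l (fun c hc => h c (by simp [hc]))
    refine ⟨d :: l', List.Forall₂.cons hM h1, ?_⟩
    intro e he
    rcases List.mem_cons.mp he with rfl | he
    · exact hd
    · exact h2 e he

section final
variable {X P T' : ℕ → Equiv.Perm ℤ} (hm : Mod X P T' (MonoidHom.id (Equiv.Perm ℤ)))

theorem cl_sm (n : ℕ) : ∀ c ∈ cl n, Sm {2} c.m := lv_sm _ _ (Sm.one _)

theorem spl_cl_sm (n i : ℕ) (h : i ≤ n) : ∀ c ∈ spl i (cl n), Sm {2} c.m := by
  have e : spl i (cl n) = ((Tr.RC n).sp i).lv one := by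
    rw [Tr.lv_sp _ _ _ (by rw [Tr.RC_sz]; omega)]
    rfl
  rw [e]
  exact lv_sm _ _ (Sm.one _)

theorem range_piV : (piV hm).range = T {2} := by
  apply le_antisymm
  · rw [MonoidHom.range_eq_map, ← genV, MonoidHom.map_closure, Subgroup.closure_le]
    rintro _ ⟨y, hy, rfl⟩
    rcases hy with (⟨i, rfl⟩ | ⟨k, rfl⟩) | ⟨M, rfl⟩
    · rw [piV_x]
      exact Act_T (hm.mx i) (cov_cl _) (cl_sm _) (spl_cl_sm _ _ (by omega))
    · rw [piV_p]
      exact Act_T (hm.mp k) (cov_cl _) (cl_sm _) (fun c hc => cl_sm _ c ((swp_perm _ _).mem_iff.mp hc))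
    · rw [piV_t]
      exact Act_T (hm.mt M) (cov_cl _) (cl_sm _) (fun c hc => cl_sm _ c ((swp_perm _ _).mem_iff.mp hc))
  · rintro g ⟨N, hN, hg⟩
    obtain ⟨k, rfl⟩ := sm2_pow hN
    set T := Tr.ex^[k] (Tr.RC 3) with hT
    have hlv : T.lv one = dbl^[k] (cl 3) := Tr.lv_exn k _ _
    have hsm : ∀ c ∈ T.lv one, Sm {2} c.m := lv_sm _ _ (Sm.one _)
    have hdv : ∀ c ∈ T.lv one, 2 ^ k ∣ c.m := by
      rw [hlv]
      have := dbln_dvd k (l := cl 3) (N := 1) (fun c _ => one_dvd _)
      rw [one_mul] at this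
      exact this
    obtain ⟨l', hact, hsm'⟩ := act_exists (T.lv one) (fun c hc => hg c (hsm c hc) (hdv c hc))
    obtain ⟨T2, hperm⟩ := exists_tree _ l' rfl hsm' (hact.pd (Tr.lv_pair _ _)) (hact.cov (cov_lv _))
    have hszT : 4 ≤ T.sz := by
      have h1 : ∀ (n : ℕ) (S : Tr), S.sz ≤ (Tr.ex^[n] S).sz := by
        intro n
        induction n with
        | zero => intro S; exact le_rfl
        | succ n ih =>
          intro S
          rw [Function.iterate_succ_apply]
          refine le_trans ?_ (ih _)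
          induction S with
          | lf => simp [Tr.ex, Tr.sz]
          | nd l r ihl ihr => simp only [Tr.ex, Tr.sz]; omega
      have := h1 k (Tr.RC 3)
      rw [Tr.RC_sz] at this
      exact this
    have hsz2 : T2.sz = T.sz := by
      have e1 := hperm.length_eq
      rw [Tr.length_lv, ← hact.len, Tr.length_lv] at e1
      exact e1.symm
    have hd := DD.tree (x := gx aV) (p := gp aV) (t := gt aV) T hszT
    obtain ⟨d', hd'⟩ := DD.exists_of_perm hperm.symm
      ⟨_, DD.tree (x := gx aV) (p := gp aV) (t := gt aV) T2 (by omega)⟩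
    have a1 := Mod.dd (modV hm) famV hd
    have a2 := Mod.dd (modV hm) famV hd'
    rw [← hact.len] at a2
    have a3 := a1.inv.mul a2
    refine ⟨d' * (T.wl (gx aV) 0)⁻¹, ?_⟩
    rw [map_mul, map_inv]
    exact Act.ext (cov_lv _) a3 hact

include hm in
theorem fp_base : Group.IsFinitelyPresented (T {2}) := by
  have : Finite relW := relW_finite
  have h : Group.IsFinitelyPresented QV := inferInstance
  rw [← range_piV hm]
  exact Group.IsFinitelyPresented.equiv (MonoidHom.ofInjective (piV_inj hm))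

/-- a permutation swapping two adjacent members of a partition is a class transposition -/
theorem swp_ct {g : Equiv.Perm ℤ} {l : List Cone} {k : ℕ} (hk : k + 1 < l.length) (hp : PD l)
    (hc : Cov l) (h : Act g l (swp k l)) (hs : ∀ c ∈ l, Sm {2} c.m) : IsCT {2} g := by
  have key : ∀ (i : ℕ) (c d : Cone), l[i]? = some c → (swp k l)[i]? = some d → Mp g c d := by
    intro i c d h1 h2
    rw [List.getElem?_eq_some_iff] at h1 h2
    obtain ⟨hi, h1⟩ := h1
    obtain ⟨hi', h2⟩ := h2
    unfold Act at h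
    rw [List.forall₂_iff_get] at h
    have := h.2 i hi hi'
    rw [List.get_eq_getElem, List.get_eq_getElem] at this
    rw [← h1, ← h2]
    exact this
  have g1 := swp_get k l hk
  refine ⟨l[k], l[k + 1], hs _ (List.getElem_mem _), hs _ (List.getElem_mem _), ?_, ?_, ?_, ?_⟩
  · unfold PD at hp
    rw [List.pairwise_iff_getElem] at hp
    exact hp k (k + 1) (by omega) hk (by omega)
  · apply key k
    · exact List.getElem?_eq_getElem _
    · rw [g1, if_pos rfl]; exact List.getElem?_eq_getElem _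
  · apply key (k + 1)
    · exact List.getElem?_eq_getElem _
    · rw [g1, if_neg (by omega), if_pos rfl]; exact List.getElem?_eq_getElem _
  · intro n h1 h2
    obtain ⟨c, hcl, hn⟩ := hc n
    obtain ⟨i, hi, rfl⟩ := List.getElem_of_mem hcl
    have hik : i ≠ k := by rintro rfl; exact h1 hn
    have hik1 : i ≠ k + 1 := by rintro rfl; exact h2 hn
    have := key i l[i] l[i] (List.getElem?_eq_getElem _) (by
      rw [g1, if_neg hik, if_neg hik1]; exact List.getElem?_eq_getElem _)
    obtain ⟨z, rfl⟩ := Cone.in_iff.mp hn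
    exact this z

include hm in
theorem base_KG : T {2} ≤ KG {2} := by
  rw [← range_piV hm, MonoidHom.range_eq_map, ← genV, MonoidHom.map_closure, Subgroup.closure_le]
  have F := model_fam hm
  have hP : ∀ k, P k ∈ KG {2} := fun k => Subgroup.subset_closure
    (swp_ct (by rw [cl_len]; omega) (pd_cl _) (cov_cl _) (hm.mp k) (cl_sm _))
  have hT : ∀ M, T' M ∈ KG {2} := fun M => Subgroup.subset_closure
    (swp_ct (by rw [cl_len]; omega) (pd_cl _) (cov_cl _) (hm.mt M) (cl_sm _))
  have hX2 : ∀ M, X (M + 2) ∈ KG {2} := fun M => by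
    have : X (M + 2) = (T' M)⁻¹ * (P (M + 2) * T' (M + 1)) := by
      rw [← F.T2 M]; group
    rw [this]
    exact mul_mem (inv_mem (hT M)) (mul_mem (hP _) (hT _))
  have hX1 : X 1 ∈ KG {2} := by
    have : X 1 = (P 1)⁻¹ * (X 2 * P 1 * P 2) := by rw [← F.B3 1]; group
    rw [this]
    exact mul_mem (inv_mem (hP _)) (mul_mem (mul_mem (hX2 0) (hP _)) (hP _))
  have hX0 : X 0 ∈ KG {2} := by
    have : X 0 = (P 0)⁻¹ * (X 1 * P 0 * P 1) := by rw [← F.B3 0]; group
    rw [this]
    exact mul_mem (inv_mem (hP _)) (mul_mem (mul_mem hX1 (hP _)) (hP _))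
  rintro _ ⟨y, hy, rfl⟩
  rcases hy with (⟨i, rfl⟩ | ⟨k, rfl⟩) | ⟨M, rfl⟩
  · rw [piV_x]
    match i with
    | 0 => exact hX0
    | 1 => exact hX1
    | i + 2 => exact hX2 i
  · rw [piV_p]; exact hP k
  · rw [piV_t]; exact hT M

end final

/-- **Main theorem**, in terms of `T S` -/
theorem main_T (P : Finset ℕ) (hP : ∀ p ∈ P, p.Prime ∧ p ≠ 2) :
    Group.IsFinitelyPresented (T (insert 2 P)) ∧ T (insert 2 P) ≤ KG (insert 2 P) := by
  obtain ⟨X, Pm, Tm, hm⟩ := exists_model
  induction P using Finset.induction_on with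
  | empty =>
    have e : insert 2 (∅ : Finset ℕ) = {2} := rfl
    rw [e]
    exact ⟨fp_base hm, base_KG hm⟩
  | insert p P hp ih =>
    obtain ⟨h1, h2⟩ := ih (fun q hq => hP q (Finset.mem_insert_of_mem hq))
    have hpp := hP p (Finset.mem_insert_self _ _)
    have h2S : 2 ∈ insert 2 P := Finset.mem_insert_self _ _
    have hpS : p ∉ insert 2 P := by
      rw [Finset.mem_insert, not_or]
      exact ⟨hpp.2, hp⟩
    have hS : ∀ q ∈ insert 2 P, q.Prime := by
      intro q hq
      rcases Finset.mem_insert.mp hq with rfl | hq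
      · exact Nat.prime_two
      · exact (hP q (Finset.mem_insert_of_mem hq)).1
    rw [Finset.insert_comm]
    exact ⟨T_insert_fp h2S hpp.1 hpS hS h1, T_le_KG_step h2S hpp.1 hpS h2⟩

end Pool.Agent.U640.CT
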